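import Pool.Agent.H58.JP9

open MeasureTheory Set Filter Topology

namespace Pool.Agent.H58.JP

/-- points for which `A q_i ≤ λ_i² ≤ B q_i` for all `i ≥ I` -/
def GSet (A B : ℝ) (I : ℕ) : Set (ℝ × ℝ) :=
  {z | Adm z ∧ ∀ i, I ≤ i → A * convQ z i ≤ lam (convQ z i) (convP z i) (convR z i) ^ 2 ∧
    lam (convQ z i) (convP z i) (convR z i) ^ 2 ≤ B * convQ z i}

/-! ### The set of good vectors -/

open Classical in
/-- vectors with `Q ≤ q ≤ 4800 Q`, close to the centre, with `A q ≤ λ² ≤ B q` -/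
noncomputable def GoodF (A B α β δ : ℝ) (Q : ℕ) : Finset (ℤ × ℤ × ℤ) :=
  (Finset.Icc (0 : ℤ) (4800 * Q) ×ˢ Finset.Icc (0 : ℤ) (4800 * Q) ×ˢ
    Finset.Icc (0 : ℤ) (4800 * Q)).filter (fun v => (1 ≤ v.1 ∧ (Q : ℤ) ≤ v.1) ∧
      (|(v.2.1 : ℝ) - α * v.1| ≤ 2 * δ * v.1 ∧ |(v.2.2 : ℝ) - β * v.1| ≤ 2 * δ * v.1) ∧
      A * v.1 ≤ lam v.1 v.2.1 v.2.2 ^ 2 ∧ lam v.1 v.2.1 v.2.2 ^ 2 ≤ B * v.1)

lemma mem_goodF {A B α β δ : ℝ} {Q : ℕ} {v : ℤ × ℤ × ℤ} : v ∈ GoodF A B α β δ Q ↔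
    ((0 ≤ v.1 ∧ v.1 ≤ 4800 * Q) ∧ (0 ≤ v.2.1 ∧ v.2.1 ≤ 4800 * Q) ∧
      (0 ≤ v.2.2 ∧ v.2.2 ≤ 4800 * Q)) ∧ (1 ≤ v.1 ∧ (Q : ℤ) ≤ v.1) ∧
      (|(v.2.1 : ℝ) - α * v.1| ≤ 2 * δ * v.1 ∧ |(v.2.2 : ℝ) - β * v.1| ≤ 2 * δ * v.1) ∧
      A * v.1 ≤ lam v.1 v.2.1 v.2.2 ^ 2 ∧ lam v.1 v.2.1 v.2.2 ^ 2 ≤ B * v.1 := by
  unfold GoodF
  rw [Finset.mem_filter, Finset.mem_product, Finset.mem_product, Finset.mem_Icc, Finset.mem_Icc,
    Finset.mem_Icc]

/-- the limiting polynomial -/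
noncomputable def hpoly (c δ l : ℝ) (t : ℝ) : ℝ :=
  128 * (2 * c + t) * ((2 * c + t) * (8 * l * δ ^ 2 * 4800 ^ 2) + 6 * l * δ * 4800 ^ 2 * t +
    t * ((2 * c + t) * ((4 * c * δ + t) * (l * 4800 + 2 * δ * 4800 + t ^ 2))))

lemma card_goodF {A B α β δ l : ℝ} (hA : 0 ≤ A) (hB : 0 < B) (hδ : 0 ≤ δ) (hl : 0 ≤ l)
    (hAl : B ≤ (1 + l) * A ∨ 1 ≤ l) (n : ℕ) (hn : 1 ≤ n) :
    64 * ((GoodF A B α β δ (n ^ 2)).card : ℝ) / ((n : ℝ) ^ 2) ^ 3 ≤
      hpoly (Real.sqrt (B * 4800)) (2 * δ) l (1 / n) := by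
  have hn' : (1 : ℝ) ≤ n := by exact_mod_cast hn
  set P : ℝ := 4800 * (n : ℝ) ^ 2 with hP
  have hP0 : 0 ≤ P := by positivity
  set c : ℝ := Real.sqrt (B * 4800) with hc
  have hc0 : 0 ≤ c := Real.sqrt_nonneg _
  have hc2 : c ^ 2 = B * 4800 := Real.sq_sqrt (by positivity)
  set R : ℕ := ⌊c * n⌋₊ with hR
  have hRle : (R : ℝ) ≤ c * n := Nat.floor_le (by positivity)
  have hcard : ((GoodF A B α β δ (n ^ 2)).card : ℝ) ≤ 2 * ((2 * R + 1) * FB P (2 * δ) l R) := by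
    apply card_good _ P (2 * δ) l α β hP0 (by positivity) hl R
    · intro v hv
      rw [mem_goodF] at hv
      obtain ⟨⟨h1, _⟩, ⟨h2, _⟩, ⟨h3, h4⟩, _⟩ := hv
      refine ⟨h2, ?_, h3, h4⟩
      rw [hP]
      exact_mod_cast h1.2
    · intro v hv
      rw [mem_goodF] at hv
      obtain ⟨⟨h1, _⟩, ⟨h2, _⟩, _, h5, h6⟩ := hv
      obtain ⟨x, y, hm, he⟩ := exists_isMin v h2
      have hvP : (v.1 : ℝ) ≤ P := by rw [hP]; exact_mod_cast h1.2
      have hsum : (x : ℝ) ^ 2 + (y : ℝ) ^ 2 ≤ (c * n) ^ 2 := by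
        rw [← he]
        calc lam v.1 v.2.1 v.2.2 ^ 2 ≤ B * v.1 := h6
          _ ≤ B * P := by gcongr
          _ = (c * n) ^ 2 := by rw [mul_pow, hc2, hP]; ring
      refine ⟨x, y, hm, ?_, ?_⟩
      · have h7 : |(x : ℝ)| ≤ c * n := by
          apply abs_le_of_sq_le_sq _ (by positivity)
          nlinarith [sq_nonneg (y : ℝ)]
        have h8 : (((|x|).toNat : ℕ) : ℝ) ≤ c * n := by
          have : (((|x|).toNat : ℕ) : ℤ) = |x| := Int.toNat_of_nonneg (abs_nonneg x)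
          calc (((|x|).toNat : ℕ) : ℝ) = ((((|x|).toNat : ℕ) : ℤ) : ℝ) := by push_cast; rfl
            _ = ((|x| : ℤ) : ℝ) := by rw [this]
            _ = |(x : ℝ)| := by push_cast; rfl
            _ ≤ _ := h7
        have := Nat.le_floor h8
        rw [← hR] at this
        omega
      · have h7 : |(y : ℝ)| ≤ c * n := by
          apply abs_le_of_sq_le_sq _ (by positivity)
          nlinarith [sq_nonneg (x : ℝ)]
        have h8 : (((|y|).toNat : ℕ) : ℝ) ≤ c * n := by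
          have : (((|y|).toNat : ℕ) : ℤ) = |y| := Int.toNat_of_nonneg (abs_nonneg y)
          calc (((|y|).toNat : ℕ) : ℝ) = ((((|y|).toNat : ℕ) : ℤ) : ℝ) := by push_cast; rfl
            _ = ((|y| : ℤ) : ℝ) := by rw [this]
            _ = |(y : ℝ)| := by push_cast; rfl
            _ ≤ _ := h7
        have := Nat.le_floor h8
        rw [← hR] at this
        omega
    · intro v hv v' hv' x y hm hm'
      rw [mem_goodF] at hv hv'
      obtain ⟨⟨a1, _⟩, ⟨a2, _⟩, _, a5, a6⟩ := hv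
      obtain ⟨⟨b1, _⟩, ⟨b2, _⟩, _, b5, b6⟩ := hv'
      rw [hm.lam_sq] at a5 a6
      rw [hm'.lam_sq] at b5 b6
      have a1' : (v.1 : ℝ) ≤ P := by rw [hP]; exact_mod_cast a1.2
      have b1' : (v'.1 : ℝ) ≤ P := by rw [hP]; exact_mod_cast b1.2
      have a2' : (1 : ℝ) ≤ v.1 := by exact_mod_cast a2
      have b2' : (1 : ℝ) ≤ v'.1 := by exact_mod_cast b2
      rcases hAl with h | h
      · have hA' : 0 < A := by
          rcases hA.lt_or_eq with h' | h'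
          · exact h'
          · rw [← h'] at h; linarith
        have h9 : A * v.1 ≤ A * ((1 + l) * v'.1) := by
          calc A * v.1 ≤ B * v'.1 := a5.trans b6
            _ ≤ (1 + l) * A * v'.1 := by gcongr
            _ = _ := by ring
        have h10 := le_of_mul_le_mul_left h9 hA'
        nlinarith
      · nlinarith
  have hcn : 0 ≤ c * n := by positivity
  have hFB : FB P (2 * δ) l R ≤ FB P (2 * δ) l (c * n) := by
    unfold FB
    gcongr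
  have hFB0 : 0 ≤ FB P (2 * δ) l R := by unfold FB; positivity
  have hcard2 : ((GoodF A B α β δ (n ^ 2)).card : ℝ) ≤
      2 * ((2 * (c * n) + 1) * FB P (2 * δ) l (c * n)) := by
    refine hcard.trans ?_
    gcongr
  calc 64 * ((GoodF A B α β δ (n ^ 2)).card : ℝ) / ((n : ℝ) ^ 2) ^ 3 ≤
      64 * (2 * ((2 * (c * n) + 1) * FB P (2 * δ) l (c * n))) / ((n : ℝ) ^ 2) ^ 3 := by gcongr
    _ = hpoly c (2 * δ) l (1 / n) := by
        unfold FB hpoly
        rw [hP]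
        field_simp
        ring

/-! ### The tail -/

open Classical in
/-- vectors with `q < Q` close to the centre -/
noncomputable def TailF (α β δ : ℝ) (Q : ℕ) : Finset (ℤ × ℤ × ℤ) :=
  (Finset.Icc (0 : ℤ) Q ×ˢ Finset.Icc (0 : ℤ) Q ×ˢ Finset.Icc (0 : ℤ) Q).filter
    (fun v => 1 ≤ v.1 ∧ v.1 < Q ∧ 1 ≤ δ * v.1 ∧
      (|(v.2.1 : ℝ) - α * v.1| ≤ 2 * δ * v.1 ∧ |(v.2.2 : ℝ) - β * v.1| ≤ 2 * δ * v.1))

lemma mem_tailF {α β δ : ℝ} {Q : ℕ} {v : ℤ × ℤ × ℤ} : v ∈ TailF α β δ Q ↔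
    ((0 ≤ v.1 ∧ v.1 ≤ Q) ∧ (0 ≤ v.2.1 ∧ v.2.1 ≤ Q) ∧ (0 ≤ v.2.2 ∧ v.2.2 ≤ Q)) ∧
      1 ≤ v.1 ∧ v.1 < Q ∧ 1 ≤ δ * v.1 ∧
      (|(v.2.1 : ℝ) - α * v.1| ≤ 2 * δ * v.1 ∧ |(v.2.2 : ℝ) - β * v.1| ≤ 2 * δ * v.1) := by
  unfold TailF
  rw [Finset.mem_filter, Finset.mem_product, Finset.mem_product, Finset.mem_Icc, Finset.mem_Icc,
    Finset.mem_Icc]

lemma tail_sum {α β δ : ℝ} (hδ : 0 < δ) (Q : ℕ) (hQ : 1 ≤ Q) :
    ∑ v ∈ TailF α β δ Q, 64 * ((3 * (v.1 : ℝ) / (4800 * Q)) / (v.1 : ℝ) ^ 3) ≤ δ ^ 2 := by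
  classical
  have hQ' : (1 : ℝ) ≤ Q := by exact_mod_cast hQ
  have hmaps : ∀ v ∈ TailF α β δ Q, v.1 ∈ Finset.Ico (1 : ℤ) Q := by
    intro v hv
    rw [mem_tailF] at hv
    rw [Finset.mem_Ico]
    exact ⟨hv.2.1, hv.2.2.1⟩
  rw [← Finset.sum_fiberwise_of_maps_to hmaps]
  have hb : ∀ q ∈ Finset.Ico (1 : ℤ) Q,
      ∑ v ∈ (TailF α β δ Q).filter (fun v => v.1 = q),
        64 * ((3 * (v.1 : ℝ) / (4800 * Q)) / (v.1 : ℝ) ^ 3) ≤ δ ^ 2 / Q := by
    intro q hq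
    rw [Finset.mem_Ico] at hq
    have hq1 : (1 : ℝ) ≤ q := by exact_mod_cast hq.1
    have he : ∀ v ∈ (TailF α β δ Q).filter (fun v => v.1 = q),
        64 * ((3 * (v.1 : ℝ) / (4800 * Q)) / (v.1 : ℝ) ^ 3) = 1 / (25 * Q * q ^ 2) := by
      intro v hv
      rw [(Finset.mem_filter.1 hv).2]
      field_simp
      norm_num
    rw [Finset.sum_congr rfl he, Finset.sum_const, nsmul_eq_mul]
    -- cardinality
    by_cases hδq : 1 ≤ δ * q
    · have hcard : (((TailF α β δ Q).filter (fun v => v.1 = q)).card : ℝ) ≤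
          (5 * δ * q) * (5 * δ * q) := by
        have hpos : 0 ≤ 5 * δ * q := by positivity
        have gen : ∀ (W : Finset (ℤ × ℤ × ℤ)) (fn : ℤ × ℤ × ℤ → ℤ) (γ : ℝ),
            (∀ v ∈ W, |(fn v : ℝ) - γ * q| ≤ 2 * δ * q) → ((W.image fn).card : ℝ) ≤ 5 * δ * q := by
          intro W fn γ hW
          have := card_sep (W.image fn) 1 le_rfl (4 * δ * q) (by positivity) (by
            intro m hm m' hm'
            rw [Finset.mem_image] at hm hm'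
            obtain ⟨v, hv, rfl⟩ := hm
            obtain ⟨v', hv', rfl⟩ := hm'
            refine ⟨one_dvd _, ?_⟩
            have h1 := abs_le.1 (hW v hv)
            have h2 := abs_le.1 (hW v' hv')
            linarith [h1.1, h1.2, h2.1, h2.2])
          simp only [Int.cast_one, div_one] at this
          linarith
        refine card_le_mul_real _ (fun v => v.2.1) _ _ hpos ?_ ?_
        · apply gen _ _ α
          intro v hv
          have h1 := (mem_tailF.1 (Finset.mem_filter.1 hv).1).2.2.2.2.1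
          rw [(Finset.mem_filter.1 hv).2] at h1
          exact h1
        · intro p _
          set W := ((TailF α β δ Q).filter (fun v => v.1 = q)).filter (fun v => v.2.1 = p) with hW
          have hmem : ∀ v ∈ W, v ∈ TailF α β δ Q ∧ v.1 = q ∧ v.2.1 = p := by
            intro v hv
            rw [hW, Finset.mem_filter, Finset.mem_filter] at hv
            exact ⟨hv.1.1, hv.1.2, hv.2⟩
          have hinj : Set.InjOn (fun v : ℤ × ℤ × ℤ => v.2.2) W := by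
            intro v hv v' hv' h
            obtain ⟨_, e1, e2⟩ := hmem v hv
            obtain ⟨_, e1', e2'⟩ := hmem v' hv'
            exact Prod.ext (e1.trans e1'.symm) (Prod.ext (e2.trans e2'.symm) h)
          rw [← Finset.card_image_of_injOn hinj]
          apply gen _ _ β
          intro v hv
          obtain ⟨h0, e1, e2⟩ := hmem v hv
          have h1 := (mem_tailF.1 h0).2.2.2.2.2
          rw [e1] at h1
          exact h1
      calc (((TailF α β δ Q).filter (fun v => v.1 = q)).card : ℝ) * (1 / (25 * Q * q ^ 2)) ≤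
          ((5 * δ * q) * (5 * δ * q)) * (1 / (25 * Q * q ^ 2)) := by gcongr
        _ = δ ^ 2 / Q := by field_simp; norm_num
    · have : (TailF α β δ Q).filter (fun v => v.1 = q) = ∅ := by
        apply Finset.eq_empty_of_forall_notMem
        intro v hv
        have h1 := (mem_tailF.1 (Finset.mem_filter.1 hv).1).2.2.2.1
        rw [(Finset.mem_filter.1 hv).2] at h1
        exact hδq h1
      rw [this]
      simp
      positivity
  refine (Finset.sum_le_sum hb).trans ?_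
  rw [Finset.sum_const, nsmul_eq_mul, Int.card_Ico]
  have : (((Q : ℤ) - 1).toNat : ℝ) ≤ Q := by
    exact_mod_cast (show ((Q : ℤ) - 1).toNat ≤ Q by omega)
  calc (((Q : ℤ) - 1).toNat : ℝ) * (δ ^ 2 / Q) ≤ Q * (δ ^ 2 / Q) := by gcongr
    _ = δ ^ 2 := by field_simp

end Pool.Agent.H58.JP
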