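import Pool.Agent.H58.JP10

open MeasureTheory Set Filter Topology

namespace Pool.Agent.H58.JP

lemma cover {A B δ : ℝ} {I k n1 n : ℕ} (hδ : 0 < δ) (hn : 1 ≤ n) (hI : I ≤ n1) (hk1 : 3 * k ≤ n1)
    (hk : ((26 : ℝ) / 27) ^ k ≤ δ) (hδn : 1 ≤ δ * n1) (z0 : ℝ × ℝ) :
    GSet A B I ∩ Metric.closedBall z0 δ ⊆
      ({z : ℝ × ℝ | z ∈ Ioo (0 : ℝ) 1 ×ˢ Ioo (0 : ℝ) 1 ∧ ((n ^ 2 : ℕ) : ℤ) ≤ convQ z (n1 + 2)} ∪
        HitSet (GoodF A B z0.1 z0.2 δ (n ^ 2)) (fun _ => 1)) ∪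
      HitSet (TailF z0.1 z0.2 δ (n ^ 2)) (fun v => 3 * (v.1 : ℝ) / (4800 * (n ^ 2 : ℕ))) := by
  rintro z ⟨⟨hz, hG⟩, hball⟩
  rw [Metric.mem_closedBall, Prod.dist_eq, max_le_iff, Real.dist_eq, Real.dist_eq] at hball
  by_cases h0 : ((n ^ 2 : ℕ) : ℤ) ≤ convQ z (n1 + 2)
  · left; left
    exact ⟨⟨⟨hz.x0, hz.x1⟩, ⟨hz.y0, hz.y1⟩⟩, h0⟩
  push Not at h0
  -- closeness
  have hclose : ∀ j, n1 + 2 ≤ j → |(convP z j : ℝ) - z0.1 * convQ z j| ≤ 2 * δ * convQ z j ∧
      |(convR z j : ℝ) - z0.2 * convQ z j| ≤ 2 * δ * convQ z j := by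
    intro j hj
    have hq : (1 : ℝ) ≤ convQ z j := by exact_mod_cast convQ_pos hz j
    obtain ⟨u1, u2⟩ := uniform_conv hz k j (by omega)
    have hk' : ((26 : ℝ) / 27) ^ k * convQ z j ≤ δ * convQ z j := by gcongr
    constructor
    · calc |(convP z j : ℝ) - z0.1 * convQ z j| =
          |((convP z j : ℝ) - z.1 * convQ z j) + (z.1 - z0.1) * convQ z j| := by ring_nf
        _ ≤ |(convP z j : ℝ) - z.1 * convQ z j| + |(z.1 - z0.1) * convQ z j| := abs_add_le _ _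
        _ = |(convP z j : ℝ) - z.1 * convQ z j| + |z.1 - z0.1| * convQ z j := by
            rw [abs_mul, abs_of_nonneg (by linarith : (0 : ℝ) ≤ convQ z j)]
        _ ≤ δ * convQ z j + δ * convQ z j := by
            have := mul_le_mul_of_nonneg_right hball.1 (by linarith : (0 : ℝ) ≤ convQ z j)
            linarith
        _ = _ := by ring
    · calc |(convR z j : ℝ) - z0.2 * convQ z j| =
          |((convR z j : ℝ) - z.2 * convQ z j) + (z.2 - z0.2) * convQ z j| := by ring_nf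
        _ ≤ |(convR z j : ℝ) - z.2 * convQ z j| + |(z.2 - z0.2) * convQ z j| := abs_add_le _ _
        _ = |(convR z j : ℝ) - z.2 * convQ z j| + |z.2 - z0.2| * convQ z j := by
            rw [abs_mul, abs_of_nonneg (by linarith : (0 : ℝ) ≤ convQ z j)]
        _ ≤ δ * convQ z j + δ * convQ z j := by
            have := mul_le_mul_of_nonneg_right hball.2 (by linarith : (0 : ℝ) ≤ convQ z j)
            linarith
        _ = _ := by ring
  have hex : ∃ j, ((n ^ 2 : ℕ) : ℤ) ≤ convQ z j := ⟨n ^ 2 + 2, convQ_ge hz (n ^ 2)⟩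
  classical
  obtain ⟨m, hm, hmin⟩ : ∃ m, ((n ^ 2 : ℕ) : ℤ) ≤ convQ z m ∧
      ∀ j, j < m → convQ z j < ((n ^ 2 : ℕ) : ℤ) :=
    ⟨Nat.find hex, Nat.find_spec hex, fun j hj => not_le.1 (Nat.find_min hex hj)⟩
  have hmn : n1 + 2 < m := by
    by_contra hcon
    push Not at hcon
    have : convQ z m ≤ convQ z (n1 + 2) := jpQ_mono' hz (by omega)
    omega
  obtain ⟨j, rfl⟩ : ∃ j, m = j + 1 := ⟨m - 1, by omega⟩
  have hj : n1 + 2 ≤ j := by omega
  have hqj := hmin j (by omega)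
  have hj1 : (1 : ℤ) ≤ convQ z j := convQ_pos hz j
  have hj1' : (1 : ℝ) ≤ convQ z j := by exact_mod_cast hj1
  have hjj1 : (1 : ℤ) ≤ convQ z (j + 1) := convQ_pos hz (j + 1)
  have hn' : (1 : ℝ) ≤ (n ^ 2 : ℕ) := by
    exact_mod_cast Nat.one_le_pow _ _ hn
  by_cases hbig : convQ z (j + 1) ≤ 4800 * ((n ^ 2 : ℕ) : ℤ)
  · left; right
    refine ⟨hz, j + 1, ?_, (hz.iter (j + 1)).x1.le⟩
    rw [vec_word, mem_goodF]
    have p0 : 0 ≤ convP z (j + 1) :=
      jpRec_nonneg hz (by norm_num) (le_refl 0) (le_refl 0) (j + 1 + 2)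
    have r0 : 0 ≤ convR z (j + 1) :=
      jpRec_nonneg hz (le_refl 0) (by norm_num) (le_refl 0) (j + 1 + 2)
    have p1 := convP_le hz (j + 1)
    have r1 := convR_le hz (j + 1)
    refine ⟨⟨⟨by omega, hbig⟩, ⟨p0, p1.trans hbig⟩, ⟨r0, r1.trans hbig⟩⟩, ⟨hjj1, hm⟩,
      hclose (j + 1) (by omega), ?_⟩
    exact hG (j + 1) (by omega)
  · right
    push Not at hbig
    refine ⟨hz, j, ?_, ?_⟩
    · rw [vec_word, mem_tailF]
      have p0 : 0 ≤ convP z j :=
        jpRec_nonneg hz (by norm_num) (le_refl 0) (le_refl 0) (j + 2)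
      have r0 : 0 ≤ convR z j :=
        jpRec_nonneg hz (le_refl 0) (by norm_num) (le_refl 0) (j + 2)
      have p1 := convP_le hz j
      have r1 := convR_le hz j
      refine ⟨⟨⟨by omega, hqj.le⟩, ⟨p0, p1.trans hqj.le⟩, ⟨r0, r1.trans hqj.le⟩⟩, hj1, hqj, ?_,
        hclose j hj⟩
      obtain ⟨j', rfl⟩ : ∃ j', j = j' + 2 := ⟨j - 2, by omega⟩
      have h3 : (j' : ℤ) ≤ convQ z (j' + 2) := convQ_ge hz j'
      have h3' : (j' : ℝ) ≤ convQ z (j' + 2) := by exact_mod_cast h3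
      have h4 : (n1 : ℝ) ≤ j' := by exact_mod_cast (show n1 ≤ j' by omega)
      calc 1 ≤ δ * n1 := hδn
        _ ≤ δ * convQ z (j' + 2) := by gcongr; linarith
    · rw [vec_word]
      simp only
      have hit := hz.iter j
      have hle : convQ z (j + 1) ≤ 3 * dB (T^[j] z) * convQ z j := jpQ_succ_le hz j
      have hle' : (convQ z (j + 1) : ℝ) ≤ 3 * dB (T^[j] z) * convQ z j := by exact_mod_cast hle
      have hbig' : 4800 * ((n ^ 2 : ℕ) : ℝ) < convQ z (j + 1) := by exact_mod_cast hbig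
      have hdB : (dB (T^[j] z) : ℝ) * (T^[j] z).1 ≤ 1 := by
        have : (dB (T^[j] z) : ℝ) ≤ 1 / (T^[j] z).1 := Int.floor_le _
        rwa [le_div_iff₀ hit.x0] at this
      rw [le_div_iff₀ (by positivity)]
      have hx0 := hit.x0
      calc (T^[j] z).1 * (4800 * ((n ^ 2 : ℕ) : ℝ)) ≤
          (T^[j] z).1 * (3 * dB (T^[j] z) * convQ z j) :=
            mul_le_mul_of_nonneg_left (hbig'.le.trans hle') hx0.le
        _ = 3 * convQ z j * (dB (T^[j] z) * (T^[j] z).1) := by ring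
        _ ≤ 3 * convQ z j * 1 := by gcongr
        _ = 3 * (convQ z j : ℝ) := by ring

lemma ball_bound {A B l : ℝ} (I : ℕ) (hA : 0 ≤ A) (hB : 0 < B) (hl : 0 ≤ l)
    (hAl : B ≤ (1 + l) * A ∨ 1 ≤ l) (hBl : 16384 * 4800 ^ 3 * (l * B) ≤ 1) (z0 : ℝ × ℝ) (δ : ℝ)
    (hδ : 0 < δ) :
    volume (GSet A B I ∩ Metric.closedBall z0 δ) ≤ ENNReal.ofReal (2 * δ ^ 2) := by
  obtain ⟨k, hk⟩ := exists_pow_lt_of_lt_one hδ (show ((26 : ℝ) / 27) < 1 by norm_num)
  obtain ⟨m, hm⟩ := exists_nat_gt (1 / δ)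
  set n1 := max I (max (3 * k) m) with hn1
  have hI : I ≤ n1 := le_max_left _ _
  have hk1 : 3 * k ≤ n1 := (le_max_left _ _).trans (le_max_right _ _)
  have hm1 : m ≤ n1 := (le_max_right _ _).trans (le_max_right _ _)
  have hδn : 1 ≤ δ * n1 := by
    have h1 : (m : ℝ) ≤ n1 := by exact_mod_cast hm1
    have h2 : 1 / δ ≤ n1 := by linarith
    rw [div_le_iff₀ hδ] at h2
    linarith
  set h : ℝ → ℝ := hpoly (Real.sqrt (B * 4800)) (2 * δ) l with hh
  have hbound : ∀ n : ℕ, 1 ≤ n → volume (GSet A B I ∩ Metric.closedBall z0 δ) ≤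
      (volume {z : ℝ × ℝ | z ∈ Ioo (0 : ℝ) 1 ×ˢ Ioo (0 : ℝ) 1 ∧
        ((n ^ 2 : ℕ) : ℤ) ≤ convQ z (n1 + 2)} + ENNReal.ofReal (h (1 / n))) +
        ENNReal.ofReal (δ ^ 2) := by
    intro n hn
    have hn' : (1 : ℝ) ≤ n := by exact_mod_cast hn
    refine (measure_mono (cover (n := n) hδ hn hI hk1 hk.le hδn z0)).trans ?_
    refine (measure_union_le _ _).trans ?_
    refine add_le_add ((measure_union_le _ _).trans (add_le_add le_rfl ?_)) ?_
    · refine (volume_hitSet _ _ (fun _ _ => zero_le_one) ?_).trans ?_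
      · intro v hv; exact (mem_goodF.1 hv).2.1.1
      · apply ENNReal.ofReal_le_ofReal
        refine le_trans ?_ (card_goodF (α := z0.1) (β := z0.2) hA hB hδ.le hl hAl n hn)
        calc ∑ v ∈ GoodF A B z0.1 z0.2 δ (n ^ 2), 64 * (1 / (v.1 : ℝ) ^ 3) ≤
            ∑ v ∈ GoodF A B z0.1 z0.2 δ (n ^ 2), 64 * (1 / ((n : ℝ) ^ 2) ^ 3) := by
              apply Finset.sum_le_sum
              intro v hv
              have h1 := (mem_goodF.1 hv).2.1.2
              have h2 : (n : ℝ) ^ 2 ≤ v.1 := by exact_mod_cast h1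
              gcongr
          _ = 64 * ((GoodF A B z0.1 z0.2 δ (n ^ 2)).card : ℝ) / ((n : ℝ) ^ 2) ^ 3 := by
              rw [Finset.sum_const, nsmul_eq_mul]; ring
    · refine (volume_hitSet _ _ ?_ ?_).trans ?_
      · intro v hv
        have : (1 : ℝ) ≤ v.1 := by exact_mod_cast (mem_tailF.1 hv).2.1
        positivity
      · intro v hv; exact (mem_tailF.1 hv).2.1
      · apply ENNReal.ofReal_le_ofReal
        exact tail_sum hδ (n ^ 2) (Nat.one_le_pow _ _ hn)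
  have hcont : Continuous h := by
    rw [hh]; unfold hpoly; fun_prop
  have hlim : Tendsto (fun n : ℕ => (volume {z : ℝ × ℝ | z ∈ Ioo (0 : ℝ) 1 ×ˢ Ioo (0 : ℝ) 1 ∧
        ((n ^ 2 : ℕ) : ℤ) ≤ convQ z (n1 + 2)} + ENNReal.ofReal (h (1 / n))) +
        ENNReal.ofReal (δ ^ 2)) atTop (𝓝 ((0 + ENNReal.ofReal (h 0)) + ENNReal.ofReal (δ ^ 2))) := by
    apply Tendsto.add _ tendsto_const_nhds
    apply Tendsto.add (tendsto_start (n1 + 2))
    apply ENNReal.tendsto_ofReal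
    exact (hcont.tendsto 0).comp tendsto_one_div_atTop_nhds_zero_nat
  have hle := ge_of_tendsto hlim (eventually_atTop.2 ⟨1, hbound⟩)
  refine hle.trans ?_
  rw [zero_add, ← ENNReal.ofReal_add]
  · apply ENNReal.ofReal_le_ofReal
    have hh0 : h 0 = (16384 * 4800 ^ 3 * (l * B)) * δ ^ 2 := by
      have hc2 : Real.sqrt (B * 4800) ^ 2 = B * 4800 := Real.sq_sqrt (by positivity)
      rw [hh]; unfold hpoly
      linear_combination (4096 * l * (2 * δ) ^ 2 * 4800 ^ 2) * hc2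
    rw [hh0]
    have : 0 ≤ δ ^ 2 := by positivity
    nlinarith
  · rw [hh]; unfold hpoly
    have := Real.sqrt_nonneg (B * 4800)
    positivity
  · positivity

lemma null_of_ball {G : Set (ℝ × ℝ)}
    (h : ∀ (z0 : ℝ × ℝ) (δ : ℝ), 0 < δ →
      volume (G ∩ Metric.closedBall z0 δ) ≤ ENNReal.ofReal (2 * δ ^ 2)) : volume G = 0 := by
  by_contra hne
  have hr : (volume.restrict G : Measure (ℝ × ℝ)) ≠ 0 := by
    rw [Ne, Measure.restrict_eq_zero]; exact hne
  have hae := Besicovitch.ae_tendsto_measure_inter_div (volume : Measure (ℝ × ℝ)) G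
  have : (ae (volume.restrict G : Measure (ℝ × ℝ))).NeBot := ae_neBot.2 hr
  obtain ⟨x, hx⟩ := hae.exists
  have hev := hx.eventually (lt_mem_nhds (show ENNReal.ofReal (1 / 2) < 1 by
    rw [← ENNReal.ofReal_one]; exact (ENNReal.ofReal_lt_ofReal_iff (by norm_num)).2 (by norm_num)))
  have hpos : ∀ᶠ r : ℝ in 𝓝[>] 0, 0 < r := eventually_mem_nhdsWithin
  obtain ⟨r, hr1, hr0⟩ := (hev.and hpos).exists
  have hb := h x r hr0
  have hvol : volume (Metric.closedBall x r) = ENNReal.ofReal (4 * r ^ 2) := by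
    rw [← closedBall_prod_same x.1 x.2 r, Measure.volume_eq_prod, Measure.prod_prod,
      Real.volume_closedBall, Real.volume_closedBall, ← ENNReal.ofReal_mul (by positivity)]
    congr 1
    ring
  rw [hvol] at hr1
  have : volume (G ∩ Metric.closedBall x r) / ENNReal.ofReal (4 * r ^ 2) ≤
      ENNReal.ofReal (1 / 2) := by
    calc volume (G ∩ Metric.closedBall x r) / ENNReal.ofReal (4 * r ^ 2) ≤
        ENNReal.ofReal (2 * r ^ 2) / ENNReal.ofReal (4 * r ^ 2) := by gcongr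
      _ = ENNReal.ofReal (1 / 2) := by
          rw [← ENNReal.ofReal_div_of_pos (by positivity)]
          congr 1
          field_simp
          norm_num
  exact absurd hr1 (not_lt.2 this)

end Pool.Agent.H58.JP
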