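import Pool.Agent.H58.JP11

open MeasureTheory Set Filter Topology

namespace Pool.Agent.H58.JP

/-- the small constant -/
noncomputable def eps0 : ℝ := 1 / (16384 * 4800 ^ 3)

lemma null_GSet {A B l : ℝ} (I : ℕ) (hA : 0 ≤ A) (hB : 0 < B) (hl : 0 ≤ l)
    (hAl : B ≤ (1 + l) * A ∨ 1 ≤ l) (hBl : l * B ≤ eps0) : volume (GSet A B I) = 0 := by
  apply null_of_ball
  intro z0 δ hδ
  refine ball_bound I hA hB hl hAl ?_ z0 δ hδ
  unfold eps0 at hBl
  rw [le_div_iff₀ (by positivity)] at hBl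
  linarith

/-- the exceptional set -/
def Exc : Set (ℝ × ℝ) :=
  (⋃ (I : ℕ), GSet 0 eps0 I) ∪
    ⋃ (A : ℚ), ⋃ (B : ℚ), ⋃ (I : ℕ), ⋃ (_ : 0 < A ∧ A ≤ B ∧ ((B : ℝ) / A - 1) * B ≤ eps0),
      GSet A B I

lemma volume_Exc : volume Exc = 0 := by
  unfold Exc
  rw [measure_union_null_iff]
  constructor
  · refine measure_iUnion_null fun I => ?_
    have h0 : (0 : ℝ) < eps0 := by unfold eps0; positivity
    exact null_GSet (l := 1) I le_rfl h0 zero_le_one (Or.inr le_rfl) (by rw [one_mul])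
  · refine measure_iUnion_null fun A => measure_iUnion_null fun B => measure_iUnion_null fun I =>
      measure_iUnion_null fun h => ?_
    obtain ⟨h1, h2, h3⟩ := h
    have h1' : (0 : ℝ) < A := by exact_mod_cast h1
    have h2' : (A : ℝ) ≤ B := by exact_mod_cast h2
    refine null_GSet (l := (B : ℝ) / A - 1) I h1'.le (by linarith) ?_ (Or.inl ?_) h3
    · have : 1 ≤ (B : ℝ) / A := by rw [le_div_iff₀ h1']; linarith
      linarith
    · field_simp
      linarith

lemma mem_Exc {z : ℝ × ℝ} (hz : Adm z) {L : ℝ} (hL : Tendsto (s z) atTop (𝓝 L)) : z ∈ Exc := by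
  have hsq : ∀ i, s z i ^ 2 * convQ z i = lam (convQ z i) (convP z i) (convR z i) ^ 2 := by
    intro i
    have hq : (1 : ℝ) ≤ convQ z i := by exact_mod_cast convQ_pos hz i
    have hq0 : (0 : ℝ) < convQ z i := by linarith
    unfold s f
    rw [div_pow, Real.sq_sqrt hq0.le]
    field_simp
  have hlim : Tendsto (fun i => s z i ^ 2) atTop (𝓝 (L ^ 2)) := hL.pow 2
  have h0 : (0 : ℝ) < eps0 := by unfold eps0; positivity
  by_cases hL0 : L = 0
  · left
    rw [hL0] at hlim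
    have hev := hlim.eventually (ge_mem_nhds (show (0 : ℝ) ^ 2 < eps0 by simpa using h0))
    obtain ⟨I, hI⟩ := eventually_atTop.1 hev
    rw [Set.mem_iUnion]
    refine ⟨I, hz, fun i hi => ?_⟩
    have hq : (1 : ℝ) ≤ convQ z i := by exact_mod_cast convQ_pos hz i
    rw [← hsq i]
    constructor
    · rw [zero_mul]; positivity
    · have := hI i hi
      exact mul_le_mul_of_nonneg_right this (by linarith)
  · right
    have hLpos : 0 < L ^ 2 := by positivity
    set η : ℝ := min (L ^ 2 / 2) (eps0 / 12) with hη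
    have hη0 : 0 < η := by rw [hη]; positivity
    have hη1 : η ≤ L ^ 2 / 2 := min_le_left _ _
    have hη2 : η ≤ eps0 / 12 := min_le_right _ _
    obtain ⟨A, hA1, hA2⟩ := exists_rat_btwn (show L ^ 2 - η < L ^ 2 by linarith)
    obtain ⟨B, hB1, hB2⟩ := exists_rat_btwn (show L ^ 2 < L ^ 2 + η by linarith)
    have hev1 := hlim.eventually (le_mem_nhds hA2)
    have hev2 := hlim.eventually (ge_mem_nhds hB1)
    obtain ⟨I, hI⟩ := eventually_atTop.1 (hev1.and hev2)
    simp only [Set.mem_iUnion]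
    have hApos : (0 : ℝ) < A := by linarith
    refine ⟨A, B, I, ⟨by exact_mod_cast hApos, ?_, ?_⟩, hz, fun i hi => ?_⟩
    · have : (A : ℝ) ≤ B := by linarith
      exact_mod_cast this
    · have e1 : ((B : ℝ) / A - 1) * B = (B - A) * B / A := by field_simp
      rw [e1, div_le_iff₀ hApos]
      have hA3 : L ^ 2 / 2 ≤ A := by linarith
      have hB3 : (B : ℝ) ≤ 3 / 2 * L ^ 2 := by linarith
      have hBA : (B : ℝ) - A ≤ 2 * η := by linarith
      calc ((B : ℝ) - A) * B ≤ (2 * η) * (3 / 2 * L ^ 2) := by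
            apply mul_le_mul hBA hB3 (by linarith) (by positivity)
        _ = 3 * η * L ^ 2 := by ring
        _ ≤ 3 * (eps0 / 12) * L ^ 2 := by gcongr
        _ ≤ eps0 * (L ^ 2 / 2) := by nlinarith
        _ ≤ eps0 * A := by gcongr
    · have hq : (1 : ℝ) ≤ convQ z i := by exact_mod_cast convQ_pos hz i
      rw [← hsq i]
      have := hI i hi
      exact ⟨mul_le_mul_of_nonneg_right this.1 (by linarith),
        mul_le_mul_of_nonneg_right this.2 (by linarith)⟩

/-! ### Almost every point is admissible -/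

lemma null_line (c0 c1 c2 : ℤ) (hne : c1 ≠ 0 ∨ c2 ≠ 0) :
    volume {z : ℝ × ℝ | (c0 : ℝ) + c1 * z.1 + c2 * z.2 = 0} = 0 := by
  have hmeas : MeasurableSet {z : ℝ × ℝ | (c0 : ℝ) + c1 * z.1 + c2 * z.2 = 0} := by
    apply measurableSet_eq_fun
    · fun_prop
    · fun_prop
  rw [Measure.volume_eq_prod, Measure.measure_prod_null hmeas]
  by_cases h2 : c2 = 0
  · have h1 : c1 ≠ 0 := by
      rcases hne with h | h
      · exact h
      · exact absurd h2 h
    have h1' : (c1 : ℝ) ≠ 0 := by exact_mod_cast h1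
    have : ∀ᵐ x : ℝ, x ≠ -(c0 : ℝ) / c1 := by
      simp [ae_iff, measure_singleton]
    filter_upwards [this] with x hx
    have he : Prod.mk x ⁻¹' {z : ℝ × ℝ | (c0 : ℝ) + c1 * z.1 + c2 * z.2 = 0} = ∅ := by
      apply Set.eq_empty_of_forall_notMem
      intro y hy
      simp only [h2, Int.cast_zero, Set.mem_preimage, Set.mem_ofPred_eq] at hy
      apply hx
      field_simp
      linarith
    rw [he]; simp
  · have h2' : (c2 : ℝ) ≠ 0 := by exact_mod_cast h2
    refine Eventually.of_forall fun x => ?_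
    have hsub : Prod.mk x ⁻¹' {z : ℝ × ℝ | (c0 : ℝ) + c1 * z.1 + c2 * z.2 = 0} ⊆
        {-((c0 : ℝ) + c1 * x) / c2} := by
      intro y hy
      simp only [Set.mem_preimage, Set.mem_ofPred_eq] at hy
      rw [Set.mem_singleton_iff]
      field_simp
      linarith
    exact measure_mono_null hsub (by simp)

lemma ae_adm : ∀ᵐ z : ℝ × ℝ ∂(volume.restrict (Ioo (0 : ℝ) 1 ×ˢ Ioo (0 : ℝ) 1)), Adm z := by
  have h : ∀ᵐ z : ℝ × ℝ, ∀ c : ℤ × ℤ × ℤ, (c.2.1 ≠ 0 ∨ c.2.2 ≠ 0) →
      (c.1 : ℝ) + c.2.1 * z.1 + c.2.2 * z.2 ≠ 0 := by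
    rw [ae_all_iff]
    intro c
    by_cases hc : c.2.1 ≠ 0 ∨ c.2.2 ≠ 0
    · have := null_line c.1 c.2.1 c.2.2 hc
      have h2 := (measure_eq_zero_iff_ae_notMem).1 this
      filter_upwards [h2] with z hz _
      exact hz
    · exact Eventually.of_forall fun z h' => absurd h' hc
  rw [ae_restrict_iff' (measurableSet_Ioo.prod measurableSet_Ioo)]
  filter_upwards [h] with z hz hmem
  refine ⟨hmem.1.1, hmem.1.2, hmem.2.1, hmem.2.2, ?_⟩
  intro c0 c1 c2 hc
  by_cases hne : c1 ≠ 0 ∨ c2 ≠ 0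
  · exact absurd hc (hz (c0, c1, c2) hne)
  · push Not at hne
    obtain ⟨h1, h2⟩ := hne
    subst h1; subst h2
    simp at hc
    exact ⟨hc, rfl, rfl⟩

/-- For almost every `(α, β) ∈ (0,1)²`, the sequence `s_i(α, β)` has no limit. -/
theorem ae_no_limit : ∀ᵐ z : ℝ × ℝ ∂(volume.restrict (Ioo (0 : ℝ) 1 ×ˢ Ioo (0 : ℝ) 1)),
    Admissible z ∧ ¬ ∃ L : ℝ, Tendsto (s z) atTop (𝓝 L) := by
  have h1 := measure_eq_zero_iff_ae_notMem.1 volume_Exc
  have h2 : ∀ᵐ z : ℝ × ℝ ∂(volume.restrict (Ioo (0 : ℝ) 1 ×ˢ Ioo (0 : ℝ) 1)), z ∉ Exc :=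
    ae_restrict_of_ae h1
  filter_upwards [h2, ae_adm] with z hz hadm
  refine ⟨(admissible_iff z).2 hadm, ?_⟩
  rintro ⟨L, hL⟩
  exact hz (mem_Exc hadm hL)

/-- Sanity check: the convergents converge to the point. -/
theorem tendsto_convergents {z : ℝ × ℝ} (h : Admissible z) :
    Tendsto (fun i => (convP z i : ℝ) / convQ z i) atTop (𝓝 z.1) ∧
      Tendsto (fun i => (convR z i : ℝ) / convQ z i) atTop (𝓝 z.2) := by
  have hz := (admissible_iff z).1 h
  have gen : ∀ (c : ℕ → ℤ) (x : ℝ), (∀ k n : ℕ, 3 * k ≤ n →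
      |(c n : ℝ) - x * convQ z n| ≤ (26 / 27) ^ k * convQ z n) →
      Tendsto (fun i => (c i : ℝ) / convQ z i) atTop (𝓝 x) := by
    intro c x hc
    rw [Metric.tendsto_atTop]
    intro ε hε
    obtain ⟨k, hk⟩ := exists_pow_lt_of_lt_one hε (show ((26 : ℝ) / 27) < 1 by norm_num)
    refine ⟨3 * k, fun n hn => ?_⟩
    have hq : (1 : ℝ) ≤ convQ z n := by exact_mod_cast convQ_pos hz n
    have hq0 : (0 : ℝ) < convQ z n := by linarith
    rw [Real.dist_eq]
    have e : (c n : ℝ) / convQ z n - x = ((c n : ℝ) - x * convQ z n) / convQ z n := by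
      field_simp
    rw [e, abs_div, abs_of_pos hq0, div_lt_iff₀ hq0]
    calc |(c n : ℝ) - x * convQ z n| ≤ (26 / 27) ^ k * convQ z n := hc k n hn
      _ < ε * convQ z n := by gcongr
  exact ⟨gen _ _ fun k n hn => (uniform_conv hz k n hn).1,
    gen _ _ fun k n hn => (uniform_conv hz k n hn).2⟩

end Pool.Agent.H58.JP
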