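import Pool.Agent.H58.JPDefs

namespace Pool.Agent.H58.JP

/-- Integer version of admissibility. -/
structure Adm (z : ℝ × ℝ) : Prop where
  x0 : 0 < z.1
  x1 : z.1 < 1
  y0 : 0 < z.2
  y1 : z.2 < 1
  ind : ∀ c0 c1 c2 : ℤ, (c0 : ℝ) + c1 * z.1 + c2 * z.2 = 0 → c0 = 0 ∧ c1 = 0 ∧ c2 = 0

lemma admissible_iff (z : ℝ × ℝ) : Admissible z ↔ Adm z := by
  have key : LinearIndependent ℚ (![1, z.1, z.2] : Fin 3 → ℝ) ↔
      ∀ c0 c1 c2 : ℤ, (c0 : ℝ) + c1 * z.1 + c2 * z.2 = 0 → c0 = 0 ∧ c1 = 0 ∧ c2 = 0 := by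
    rw [← LinearIndependent.iff_fractionRing ℤ ℚ, Fintype.linearIndependent_iff]
    constructor
    · intro h c0 c1 c2 hc
      have := h ![c0, c1, c2] (by simp [Fin.sum_univ_three]; linarith)
      exact ⟨by simpa using this 0, by simpa using this 1, by simpa using this 2⟩
    · intro h g hg i
      simp [Fin.sum_univ_three] at hg
      have := h (g 0) (g 1) (g 2) (by linarith)
      fin_cases i
      · exact this.1
      · exact this.2.1
      · exact this.2.2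
  unfold Admissible
  constructor
  · rintro ⟨h1, h2, h3, h4, h5⟩
    exact ⟨h1, h2, h3, h4, key.1 h5⟩
  · rintro ⟨h1, h2, h3, h4, h5⟩
    exact ⟨h1, h2, h3, h4, key.2 h5⟩

lemma T_fst (z : ℝ × ℝ) : (T z).1 = z.2 / z.1 - dA z := rfl

lemma T_snd (z : ℝ × ℝ) : (T z).2 = 1 / z.1 - dB z := rfl

lemma Adm.T {z : ℝ × ℝ} (h : Adm z) : Adm (T z) := by
  have hx := h.x0
  have hne : z.1 ≠ 0 := hx.ne'
  have ind : ∀ c0 c1 c2 : ℤ, (c0 : ℝ) + c1 * (JP.T z).1 + c2 * (JP.T z).2 = 0 →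
      c0 = 0 ∧ c1 = 0 ∧ c2 = 0 := by
    intro c0 c1 c2 hc
    rw [T_fst, T_snd] at hc
    have h1 : ((c2 : ℤ) : ℝ) + ((c0 - c1 * dA z - c2 * dB z : ℤ) : ℝ) * z.1 + (c1 : ℤ) * z.2 = 0 := by
      push_cast
      have : (c0 + c1 * (z.2 / z.1 - dA z) + c2 * (1 / z.1 - dB z)) * z.1 = 0 := by
        rw [hc]; ring
      field_simp at this
      linarith
    obtain ⟨e1, e2, e3⟩ := h.ind _ _ _ h1
    subst e1; subst e3
    simp at e2
    exact ⟨e2, rfl, rfl⟩
  refine ⟨?_, Int.fract_lt_one _, ?_, Int.fract_lt_one _, ind⟩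
  · rcases (Int.fract_nonneg (z.2 / z.1)).lt_or_eq with h' | h'
    · exact h'
    · exfalso
      have := ind 0 1 0 (by
        have : (JP.T z).1 = 0 := h'.symm
        rw [this]; simp)
      simp at this
  · rcases (Int.fract_nonneg (1 / z.1)).lt_or_eq with h' | h'
    · exact h'
    · exfalso
      have := ind 0 0 1 (by
        have : (JP.T z).2 = 0 := h'.symm
        rw [this]; simp)
      simp at this

lemma Adm.iter {z : ℝ × ℝ} (h : Adm z) : ∀ n, Adm (JP.T^[n] z) := by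
  intro n
  induction n with
  | zero => simpa using h
  | succ n ih => rw [Function.iterate_succ_apply']; exact ih.T

lemma Adm.dB_pos {z : ℝ × ℝ} (h : Adm z) : 1 ≤ dB z := by
  unfold dB
  rw [Int.le_floor]
  rw [le_div_iff₀ h.x0]
  have := h.x1
  push_cast; linarith

lemma Adm.dA_nonneg {z : ℝ × ℝ} (h : Adm z) : 0 ≤ dA z := by
  unfold dA
  exact Int.floor_nonneg.2 (div_nonneg h.y0.le h.x0.le)

lemma Adm.dA_le {z : ℝ × ℝ} (h : Adm z) : dA z ≤ dB z := by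
  unfold dA dB
  apply Int.floor_mono
  exact div_le_div_of_nonneg_right h.y1.le h.x0.le

lemma Adm.dA_next {z : ℝ × ℝ} (h : Adm z) (he : dA z = dB z) : 1 ≤ dA (JP.T z) := by
  have h1 : (JP.T z).1 < (JP.T z).2 := by
    rw [T_fst, T_snd, he]
    have : z.2 / z.1 < 1 / z.1 := div_lt_div_of_pos_right h.y1 h.x0
    linarith
  unfold dA
  rw [Int.le_floor, le_div_iff₀ h.T.x0]
  push_cast; linarith

lemma Adm.fst_eq {z : ℝ × ℝ} (h : Adm z) : z.1 * (dB z + (JP.T z).2) = 1 := by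
  rw [T_snd]
  have := h.x0.ne'
  field_simp
  ring

lemma Adm.snd_eq {z : ℝ × ℝ} (h : Adm z) : z.2 * (dB z + (JP.T z).2) = dA z + (JP.T z).1 := by
  rw [T_snd, T_fst]
  have := h.x0.ne'
  field_simp
  ring

/-! ### The left recursion -/

lemma rec_succ (z : ℝ × ℝ) (c0 c1 c2 : ℤ) (n : ℕ) : jpRec z c0 c1 c2 (n + 3) =
    dB (T^[n] z) * jpRec z c0 c1 c2 (n + 2) + dA (T^[n] z) * jpRec z c0 c1 c2 (n + 1) +
      jpRec z c0 c1 c2 n := by
  rw [jpRec]

/-- `(q, p, r)` at index `n + 1` for `z` is the digit matrix applied to index `n` for `T z`. -/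
lemma left_rec (z : ℝ × ℝ) : ∀ n : ℕ,
    jpRec z 0 0 1 (n + 1) = dB z * jpRec (T z) 0 0 1 n + jpRec (T z) 0 1 0 n ∧
    jpRec z 1 0 0 (n + 1) = jpRec (T z) 0 0 1 n ∧
    jpRec z 0 1 0 (n + 1) = dA z * jpRec (T z) 0 0 1 n + jpRec (T z) 1 0 0 n := by
  intro n
  induction n using Nat.strong_induction_on with
  | _ n ih =>
    rcases n with _ | _ | _ | n
    · simp [jpRec]
    · simp [jpRec]
    · simp [jpRec]
    · have i0 := ih n (by omega)
      have i1 := ih (n + 1) (by omega)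
      have i2 := ih (n + 2) (by omega)
      have e : ∀ c0 c1 c2 : ℤ, jpRec z c0 c1 c2 (n + 3 + 1) =
          dB (T^[n + 1] z) * jpRec z c0 c1 c2 (n + 2 + 1) +
          dA (T^[n + 1] z) * jpRec z c0 c1 c2 (n + 1 + 1) + jpRec z c0 c1 c2 (n + 1) := by
        intro c0 c1 c2
        exact rec_succ z c0 c1 c2 (n + 1)
      have e' : ∀ c0 c1 c2 : ℤ, jpRec (T z) c0 c1 c2 (n + 3) =
          dB (T^[n + 1] z) * jpRec (T z) c0 c1 c2 (n + 2) +
          dA (T^[n + 1] z) * jpRec (T z) c0 c1 c2 (n + 1) + jpRec (T z) c0 c1 c2 n := by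
        intro c0 c1 c2
        rw [rec_succ, Function.iterate_succ_apply]
      simp only [e, e', i0, i1, i2]
      refine ⟨?_, ?_, ?_⟩ <;> first | ring | trivial

lemma convQ_succ (z : ℝ × ℝ) (n : ℕ) :
    convQ z (n + 1) = dB z * convQ (T z) n + convR (T z) n := (left_rec z (n + 2)).1

lemma convP_succ (z : ℝ × ℝ) (n : ℕ) : convP z (n + 1) = convQ (T z) n :=
  (left_rec z (n + 2)).2.1

lemma convR_succ (z : ℝ × ℝ) (n : ℕ) :
    convR z (n + 1) = dA z * convQ (T z) n + convP (T z) n := (left_rec z (n + 2)).2.2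

/-! ### Monotonicity of the denominators -/

lemma jpRec_nonneg {z : ℝ × ℝ} (h : Adm z) {c0 c1 c2 : ℤ} (h0 : 0 ≤ c0) (h1 : 0 ≤ c1)
    (h2 : 0 ≤ c2) : ∀ n, 0 ≤ jpRec z c0 c1 c2 n := by
  intro n
  induction n using Nat.strong_induction_on with
  | _ n ih =>
    rcases n with _ | _ | _ | n
    · simpa [jpRec] using h0
    · simpa [jpRec] using h1
    · simpa [jpRec] using h2
    · rw [rec_succ]
      have a1 := ih n (by omega)
      have a2 := ih (n + 1) (by omega)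
      have a3 := ih (n + 2) (by omega)
      have b1 := (h.iter n).dB_pos
      have b2 := (h.iter n).dA_nonneg
      positivity

lemma jpQ_mono {z : ℝ × ℝ} (h : Adm z) : ∀ n, jpRec z 0 0 1 n ≤ jpRec z 0 0 1 (n + 1) := by
  intro n
  rcases n with _ | _ | n
  · simp [jpRec]
  · simp [jpRec]
  · rw [show n + 2 + 1 = n + 3 by ring, rec_succ]
    have a1 := jpRec_nonneg h (le_refl 0) (le_refl 0) (by norm_num : (0:ℤ) ≤ 1) n
    have a2 := jpRec_nonneg h (le_refl 0) (le_refl 0) (by norm_num : (0:ℤ) ≤ 1) (n + 1)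
    have a3 := jpRec_nonneg h (le_refl 0) (le_refl 0) (by norm_num : (0:ℤ) ≤ 1) (n + 2)
    have b1 := (h.iter n).dB_pos
    have b2 := (h.iter n).dA_nonneg
    nlinarith [mul_nonneg b2 a2, mul_nonneg (by linarith : (0:ℤ) ≤ dB (T^[n] z) - 1) a3]

lemma jpQ_mono' {z : ℝ × ℝ} (h : Adm z) {m n : ℕ} (hmn : m ≤ n) :
    jpRec z 0 0 1 m ≤ jpRec z 0 0 1 n :=
  monotone_nat_of_le_succ (jpQ_mono h) hmn

lemma convQ_pos {z : ℝ × ℝ} (h : Adm z) (n : ℕ) : 1 ≤ convQ z n := by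
  have := jpQ_mono' h (show 2 ≤ n + 2 by omega)
  have h2 : jpRec z 0 0 1 2 = 1 := by simp [jpRec]
  rw [h2] at this
  exact this

/-- the three-term upper bound for the next denominator -/
lemma jpQ_succ_le {z : ℝ × ℝ} (h : Adm z) (n : ℕ) :
    jpRec z 0 0 1 (n + 3) ≤ 3 * dB (T^[n] z) * jpRec z 0 0 1 (n + 2) := by
  rw [rec_succ]
  have a1 := jpRec_nonneg h (le_refl 0) (le_refl 0) (by norm_num : (0:ℤ) ≤ 1) n
  have a2 := jpRec_nonneg h (le_refl 0) (le_refl 0) (by norm_num : (0:ℤ) ≤ 1) (n + 1)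
  have a3 := jpRec_nonneg h (le_refl 0) (le_refl 0) (by norm_num : (0:ℤ) ≤ 1) (n + 2)
  have m1 := jpQ_mono' h (show n ≤ n + 2 by omega)
  have m2 := jpQ_mono' h (show n + 1 ≤ n + 2 by omega)
  have b1 := (h.iter n).dB_pos
  have b2 := (h.iter n).dA_nonneg
  have b3 := (h.iter n).dA_le
  have c1 : dA (T^[n] z) * jpRec z 0 0 1 (n + 1) ≤ dB (T^[n] z) * jpRec z 0 0 1 (n + 2) :=
    mul_le_mul b3 m2 a2 (by linarith)
  have c2 : jpRec z 0 0 1 n ≤ dB (T^[n] z) * jpRec z 0 0 1 (n + 2) := by nlinarith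
  nlinarith

/-- the denominators grow -/
lemma convQ_lt {z : ℝ × ℝ} (h : Adm z) (n : ℕ) : convQ z (n + 2) + 1 ≤ convQ z (n + 3) := by
  have e : jpRec z 0 0 1 (n + 3 + 2) = _ := rec_succ z 0 0 1 (n + 2)
  unfold convQ
  rw [e]
  have a0 := convQ_pos h n
  unfold convQ at a0
  have a2 := jpRec_nonneg h (le_refl 0) (le_refl 0) (by norm_num : (0:ℤ) ≤ 1) (n + 2 + 1)
  have a3 := jpRec_nonneg h (le_refl 0) (le_refl 0) (by norm_num : (0:ℤ) ≤ 1) (n + 2 + 2)
  have b1 := (h.iter (n + 2)).dB_pos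
  have b2 := (h.iter (n + 2)).dA_nonneg
  nlinarith [mul_nonneg b2 a2, mul_nonneg (by linarith : (0:ℤ) ≤ dB (T^[n+2] z) - 1) a3]

lemma convQ_ge {z : ℝ × ℝ} (h : Adm z) (n : ℕ) : (n : ℤ) ≤ convQ z (n + 2) := by
  induction n with
  | zero => have := convQ_pos h (0 + 2); push_cast; linarith
  | succ n ih =>
    have := convQ_lt h n
    rw [show n + 1 + 2 = n + 3 by ring]
    push_cast
    linarith

end Pool.Agent.H58.JP
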