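import Pool.Agent.H58.JP2

namespace Pool.Agent.H58.JP

/-! ### The cylinder identity -/

lemma cyl_identity {z : ℝ × ℝ} (h : Adm z) (n : ℕ) :
    z.1 * ((jpRec z 0 0 1 (n + 2) : ℝ) + jpRec z 0 0 1 n * (T^[n] z).1 +
      jpRec z 0 0 1 (n + 1) * (T^[n] z).2) =
      (jpRec z 1 0 0 (n + 2) : ℝ) + jpRec z 1 0 0 n * (T^[n] z).1 +
      jpRec z 1 0 0 (n + 1) * (T^[n] z).2 ∧
    z.2 * ((jpRec z 0 0 1 (n + 2) : ℝ) + jpRec z 0 0 1 n * (T^[n] z).1 +
      jpRec z 0 0 1 (n + 1) * (T^[n] z).2) =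
      (jpRec z 0 1 0 (n + 2) : ℝ) + jpRec z 0 1 0 n * (T^[n] z).1 +
      jpRec z 0 1 0 (n + 1) * (T^[n] z).2 := by
  induction n with
  | zero => simp [jpRec]
  | succ n ih =>
    have hn := h.iter n
    have e1 := hn.fst_eq
    have e2 := hn.snd_eq
    rw [← Function.iterate_succ_apply' T n z] at e1 e2
    have key : ∀ c0 c1 c2 : ℤ, ((jpRec z c0 c1 c2 (n + 1 + 2) : ℝ) +
        jpRec z c0 c1 c2 (n + 1) * (T^[n + 1] z).1 +
        jpRec z c0 c1 c2 (n + 1 + 1) * (T^[n + 1] z).2) =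
        ((jpRec z c0 c1 c2 (n + 2) : ℝ) + jpRec z c0 c1 c2 n * (T^[n] z).1 +
        jpRec z c0 c1 c2 (n + 1) * (T^[n] z).2) * (dB (T^[n] z) + (T^[n + 1] z).2) := by
      intro c0 c1 c2
      have e : jpRec z c0 c1 c2 (n + 1 + 2) = _ := rec_succ z c0 c1 c2 n
      rw [e]
      push_cast
      rw [show n + 1 + 1 = n + 2 by ring]
      linear_combination (-(jpRec z c0 c1 c2 n : ℝ)) * e1 - (jpRec z c0 c1 c2 (n + 1) : ℝ) * e2
    rw [key, key, key, ← mul_assoc, ← mul_assoc, ih.1, ih.2]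
    exact ⟨rfl, rfl⟩

/-! ### Numerators are at most denominators -/

lemma convP_le {z : ℝ × ℝ} (h : Adm z) (n : ℕ) : convP z n ≤ convQ z n := by
  rcases n with _ | n
  · simp [convP, convQ, jpRec]
  · rw [convP_succ, convQ_succ]
    have a1 := convQ_pos h.T n
    have a2 : 0 ≤ convR (T z) n :=
      jpRec_nonneg h.T (le_refl 0) (by norm_num) (le_refl 0) (n + 2)
    have b1 := h.dB_pos
    nlinarith

lemma convR_le {z : ℝ × ℝ} (h : Adm z) (n : ℕ) : convR z n ≤ convQ z n := by
  rcases n with _ | n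
  · simp [convR, convQ, jpRec]
  · rw [convR_succ, convQ_succ]
    have a1 := convQ_pos h.T n
    have a2 : 0 ≤ convR (T z) n :=
      jpRec_nonneg h.T (le_refl 0) (by norm_num) (le_refl 0) (n + 2)
    have a3 := convP_le h.T n
    rcases h.dA_le.lt_or_eq with hlt | heq
    · nlinarith
    · have h1 := h.dA_next heq
      have : convP (T z) n ≤ convR (T z) n := by
        rcases n with _ | n
        · simp [convP, convR, jpRec]
        · rw [convP_succ, convR_succ]
          have a4 := convQ_pos h.T.T n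
          have a5 : 0 ≤ convP (T (T z)) n :=
            jpRec_nonneg h.T.T (by norm_num) (le_refl 0) (le_refl 0) (n + 2)
          nlinarith
      rw [heq]; linarith

/-! ### Uniform convergence -/

lemma contraction {z : ℝ × ℝ} (h : Adm z) (c0 c1 c2 : ℤ)
    (hb : ∀ n : ℕ, 0 ≤ jpRec z c0 c1 c2 (n + 2) ∧
      jpRec z c0 c1 c2 (n + 2) ≤ jpRec z 0 0 1 (n + 2)) :
    ∀ k : ℕ, ∃ m M : ℝ, M - m ≤ (26 / 27) ^ k ∧ ∀ n : ℕ, 3 * k + 2 ≤ n →
      m * jpRec z 0 0 1 n ≤ jpRec z c0 c1 c2 n ∧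
      (jpRec z c0 c1 c2 n : ℝ) ≤ M * jpRec z 0 0 1 n := by
  intro k
  induction k with
  | zero =>
    refine ⟨0, 1, by norm_num, ?_⟩
    intro n hn
    obtain ⟨j, rfl⟩ : ∃ j, n = j + 2 := ⟨n - 2, by omega⟩
    have := hb j
    constructor
    · rw [zero_mul]; exact_mod_cast this.1
    · rw [one_mul]; exact_mod_cast this.2
  | succ k ih =>
    obtain ⟨m, M, hmM, hbd⟩ := ih
    set t := 3 * k + 4 with ht
    have hQpos : ∀ n : ℕ, 2 ≤ n → (0 : ℝ) < jpRec z 0 0 1 n := by
      intro n hn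
      obtain ⟨j, rfl⟩ : ∃ j, n = j + 2 := ⟨n - 2, by omega⟩
      have := convQ_pos h j
      unfold convQ at this
      exact_mod_cast this
    have hQt := hQpos t (by omega)
    set X : ℝ := jpRec z c0 c1 c2 t / jpRec z 0 0 1 t with hX
    have hXt : (jpRec z c0 c1 c2 t : ℝ) = X * jpRec z 0 0 1 t := by
      rw [hX]; field_simp
    have hmX : m ≤ X := by
      rw [hX, le_div_iff₀ hQt]; exact (hbd t (by omega)).1
    have hXM : X ≤ M := by
      rw [hX, div_le_iff₀ hQt]; exact (hbd t (by omega)).2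
    -- one step
    have step : ∀ n : ℕ, 3 * k + 4 ≤ n → ∀ e : ℝ, 0 ≤ e →
        ((m + e) * jpRec z 0 0 1 n ≤ jpRec z c0 c1 c2 n →
          (m + e / 3) * jpRec z 0 0 1 (n + 1) ≤ jpRec z c0 c1 c2 (n + 1)) ∧
        ((jpRec z c0 c1 c2 n : ℝ) ≤ (M - e) * jpRec z 0 0 1 n →
          (jpRec z c0 c1 c2 (n + 1) : ℝ) ≤ (M - e / 3) * jpRec z 0 0 1 (n + 1)) := by
      intro n hn e he
      obtain ⟨j, rfl⟩ : ∃ j, n = j + 2 := ⟨n - 2, by omega⟩
      have e1 := rec_succ z c0 c1 c2 j
      have e2 := rec_succ z 0 0 1 j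
      have e3 := jpQ_succ_le h j
      have b1 : (1 : ℝ) ≤ dB (T^[j] z) := by exact_mod_cast (h.iter j).dB_pos
      have b2 : (0 : ℝ) ≤ dA (T^[j] z) := by exact_mod_cast (h.iter j).dA_nonneg
      have l0 := hbd j (by omega)
      have l1 := hbd (j + 1) (by omega)
      have e3' : (jpRec z 0 0 1 (j + 3) : ℝ) ≤ 3 * dB (T^[j] z) * jpRec z 0 0 1 (j + 2) := by
        exact_mod_cast e3
      have e1' : (jpRec z c0 c1 c2 (j + 3) : ℝ) = dB (T^[j] z) * jpRec z c0 c1 c2 (j + 2) +
          dA (T^[j] z) * jpRec z c0 c1 c2 (j + 1) + jpRec z c0 c1 c2 j := by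
        exact_mod_cast e1
      have e2' : (jpRec z 0 0 1 (j + 3) : ℝ) = dB (T^[j] z) * jpRec z 0 0 1 (j + 2) +
          dA (T^[j] z) * jpRec z 0 0 1 (j + 1) + jpRec z 0 0 1 j := by
        exact_mod_cast e2
      rw [show j + 2 + 1 = j + 3 by ring]
      have m1 := mul_le_mul_of_nonneg_left l1.1 b2
      have m1' := mul_le_mul_of_nonneg_left l1.2 b2
      have m3 := mul_le_mul_of_nonneg_left e3' he
      have e2m : m * (jpRec z 0 0 1 (j + 3) : ℝ) = m * (dB (T^[j] z) * jpRec z 0 0 1 (j + 2) +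
          dA (T^[j] z) * jpRec z 0 0 1 (j + 1) + jpRec z 0 0 1 j) := by rw [e2']
      have e2M : M * (jpRec z 0 0 1 (j + 3) : ℝ) = M * (dB (T^[j] z) * jpRec z 0 0 1 (j + 2) +
          dA (T^[j] z) * jpRec z 0 0 1 (j + 1) + jpRec z 0 0 1 j) := by rw [e2']
      constructor
      · intro hh
        have m2 := mul_le_mul_of_nonneg_left hh (by linarith : (0:ℝ) ≤ dB (T^[j] z))
        linarith [l0.1]
      · intro hh
        have m2 := mul_le_mul_of_nonneg_left hh (by linarith : (0:ℝ) ≤ dB (T^[j] z))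
        linarith [l0.2]
    have hm0 : 0 ≤ X - m := by linarith
    have hM0 : 0 ≤ M - X := by linarith
    have lo1 := (step t (by omega) (X - m) hm0).1 (by rw [hXt]; linarith)
    have lo2 := (step (t + 1) (by omega) ((X - m) / 3) (by positivity)).1 lo1
    have lo3 := (step (t + 2) (by omega) ((X - m) / 3 / 3) (by positivity)).1 lo2
    have up1 := (step t (by omega) (M - X) hM0).2 (by rw [hXt]; linarith)
    have up2 := (step (t + 1) (by omega) ((M - X) / 3) (by positivity)).2 up1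
    have up3 := (step (t + 2) (by omega) ((M - X) / 3 / 3) (by positivity)).2 up2
    refine ⟨m + (X - m) / 27, M - (M - X) / 27, ?_, ?_⟩
    · have : M - (M - X) / 27 - (m + (X - m) / 27) = (26 / 27) * (M - m) := by ring
      rw [this, pow_succ]
      nlinarith
    · have key : ∀ j : ℕ, (m + (X - m) / 27) * jpRec z 0 0 1 (t + 1 + j) ≤
          jpRec z c0 c1 c2 (t + 1 + j) ∧
          (jpRec z c0 c1 c2 (t + 1 + j) : ℝ) ≤ (M - (M - X) / 27) * jpRec z 0 0 1 (t + 1 + j) := by
        intro j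
        induction j using Nat.strong_induction_on with
        | _ j ihj =>
          rcases j with _ | _ | _ | j
          · have q1 := hQpos (t + 1) (by omega)
            have u1 := mul_nonneg hm0 q1.le
            have u2 := mul_nonneg hM0 q1.le
            simp only [add_zero]
            constructor <;> linarith
          · have q1 := hQpos (t + 2) (by omega)
            have u1 := mul_nonneg hm0 q1.le
            have u2 := mul_nonneg hM0 q1.le
            rw [show t + 1 + (0 + 1) = t + 2 by ring]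
            rw [show t + 1 + 1 = t + 2 by ring] at lo2 up2
            constructor <;> linarith
          · have q1 := hQpos (t + 3) (by omega)
            rw [show t + 1 + (0 + 1 + 1) = t + 3 by ring]
            rw [show t + 2 + 1 = t + 3 by ring] at lo3 up3
            constructor <;> linarith
          · have i0 := ihj j (by omega)
            have i1 := ihj (j + 1) (by omega)
            have i2 := ihj (j + 2) (by omega)
            have e1 := rec_succ z c0 c1 c2 (t + 1 + j)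
            have e2 := rec_succ z 0 0 1 (t + 1 + j)
            have b1 : (1 : ℝ) ≤ dB (T^[t + 1 + j] z) := by
              exact_mod_cast (h.iter (t + 1 + j)).dB_pos
            have b2 : (0 : ℝ) ≤ dA (T^[t + 1 + j] z) := by
              exact_mod_cast (h.iter (t + 1 + j)).dA_nonneg
            rw [show t + 1 + (j + 3) = t + 1 + j + 3 by ring, e1, e2]
            rw [show t + 1 + (j + 1) = t + 1 + j + 1 by ring] at i1
            rw [show t + 1 + (j + 2) = t + 1 + j + 2 by ring] at i2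
            push_cast
            have m1 := mul_le_mul_of_nonneg_left i1.1 b2
            have m1' := mul_le_mul_of_nonneg_left i1.2 b2
            have m2 := mul_le_mul_of_nonneg_left i2.1 (by linarith : (0:ℝ) ≤ dB (T^[t + 1 + j] z))
            have m2' := mul_le_mul_of_nonneg_left i2.2 (by linarith : (0:ℝ) ≤ dB (T^[t + 1 + j] z))
            constructor <;> linarith [i0.1, i0.2]
      intro n hn
      obtain ⟨j, rfl⟩ : ∃ j, n = t + 1 + j := ⟨n - (t + 1), by omega⟩
      exact key j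

/-- Uniform convergence of the Jacobi-Perron convergents. -/
lemma uniform_conv {z : ℝ × ℝ} (h : Adm z) (k n : ℕ) (hn : 3 * k ≤ n) :
    |(convP z n : ℝ) - z.1 * convQ z n| ≤ (26 / 27) ^ k * convQ z n ∧
    |(convR z n : ℝ) - z.2 * convQ z n| ≤ (26 / 27) ^ k * convQ z n := by
  have hQnn : ∀ n : ℕ, (0 : ℝ) ≤ jpRec z 0 0 1 n := fun n => by
    exact_mod_cast jpRec_nonneg h (le_refl 0) (le_refl 0) (by norm_num : (0:ℤ) ≤ 1) n
  have hQpos : (1 : ℝ) ≤ convQ z n := by exact_mod_cast convQ_pos h n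
  have gen : ∀ (x : ℝ) (c0 c1 c2 : ℤ) (hb : ∀ n : ℕ, 0 ≤ jpRec z c0 c1 c2 (n + 2) ∧
      jpRec z c0 c1 c2 (n + 2) ≤ jpRec z 0 0 1 (n + 2))
      (hid : ∀ n, x * ((jpRec z 0 0 1 (n + 2) : ℝ) + jpRec z 0 0 1 n * (T^[n] z).1 +
      jpRec z 0 0 1 (n + 1) * (T^[n] z).2) =
      (jpRec z c0 c1 c2 (n + 2) : ℝ) + jpRec z c0 c1 c2 n * (T^[n] z).1 +
      jpRec z c0 c1 c2 (n + 1) * (T^[n] z).2),
      |(jpRec z c0 c1 c2 (n + 2) : ℝ) - x * convQ z n| ≤ (26 / 27) ^ k * convQ z n := by
    intro x c0 c1 c2 hb hid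
    obtain ⟨m, M, hmM, hbd⟩ := contraction h c0 c1 c2 hb k
    have hid' := hid (3 * k + 2)
    have hx := (h.iter (3 * k + 2)).x0
    have hy := (h.iter (3 * k + 2)).y0
    have l0 := hbd (3 * k + 2) le_rfl
    have l1 := hbd (3 * k + 2 + 1) (by omega)
    have l2 := hbd (3 * k + 2 + 2) (by omega)
    have ln := hbd (n + 2) (by omega)
    have hQ2 : (1 : ℝ) ≤ jpRec z 0 0 1 (3 * k + 2 + 2) := by
      exact_mod_cast convQ_pos h (3 * k + 2)
    set D : ℝ := (jpRec z 0 0 1 (3 * k + 2 + 2) : ℝ) +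
      jpRec z 0 0 1 (3 * k + 2) * (T^[3 * k + 2] z).1 +
      jpRec z 0 0 1 (3 * k + 2 + 1) * (T^[3 * k + 2] z).2 with hD
    have hDpos : 0 < D := by
      have := mul_nonneg (hQnn (3 * k + 2)) hx.le
      have := mul_nonneg (hQnn (3 * k + 2 + 1)) hy.le
      linarith
    have hxm : m ≤ x := by
      by_contra hcon
      push Not at hcon
      have h1 := mul_le_mul_of_nonneg_right l0.1 hx.le
      have h2 := mul_le_mul_of_nonneg_right l1.1 hy.le
      have h3 : m * D ≤ x * D := by rw [hid', hD]; nlinarith [l2.1]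
      nlinarith
    have hxM : x ≤ M := by
      by_contra hcon
      push Not at hcon
      have h1 := mul_le_mul_of_nonneg_right l0.2 hx.le
      have h2 := mul_le_mul_of_nonneg_right l1.2 hy.le
      have h3 : x * D ≤ M * D := by rw [hid', hD]; nlinarith [l2.2]
      nlinarith
    have hq : (0 : ℝ) ≤ convQ z n := by linarith
    have v1 := mul_le_mul_of_nonneg_right hxm hq
    have v2 := mul_le_mul_of_nonneg_right hxM hq
    have v3 := mul_le_mul_of_nonneg_right hmM hq
    have ln1 : m * (convQ z n : ℝ) ≤ jpRec z c0 c1 c2 (n + 2) := ln.1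
    have ln2 : (jpRec z c0 c1 c2 (n + 2) : ℝ) ≤ M * convQ z n := ln.2
    rw [abs_le]
    constructor <;> linarith
  constructor
  · exact gen z.1 1 0 0 (fun n => ⟨jpRec_nonneg h (by norm_num) (le_refl 0) (le_refl 0) _,
      convP_le h n⟩) (fun n => (cyl_identity h n).1)
  · exact gen z.2 0 1 0 (fun n => ⟨jpRec_nonneg h (le_refl 0) (by norm_num) (le_refl 0) _,
      convR_le h n⟩) (fun n => (cyl_identity h n).2)

end Pool.Agent.H58.JP
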