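import Pool.Agent.H58.JP3

namespace Pool.Agent.H58.JP

/-! ### Words of digits -/

/-- the vector `(q, p, r)` of a word of digits -/
def vec : List (ℤ × ℤ) → ℤ × ℤ × ℤ
  | [] => (1, 0, 0)
  | d :: w => (d.2 * (vec w).1 + (vec w).2.2, (vec w).1, d.1 * (vec w).1 + (vec w).2.1)

/-- the first `n` digits of `z` -/
noncomputable def word : ℕ → ℝ × ℝ → List (ℤ × ℤ)
  | 0, _ => []
  | n + 1, z => (dA z, dB z) :: word n (T z)

/-- admissible words of digits -/
def Valid : List (ℤ × ℤ) → Prop
  | [] => True
  | d :: w => 1 ≤ d.2 ∧ 0 ≤ d.1 ∧ d.1 ≤ d.2 ∧ (d.1 = d.2 → ∀ e ∈ w.head?, 1 ≤ e.1) ∧ Valid w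

lemma vec_word (n : ℕ) : ∀ z : ℝ × ℝ, vec (word n z) = (convQ z n, convP z n, convR z n) := by
  induction n with
  | zero => intro z; simp [word, vec, convQ, convP, convR, jpRec]
  | succ n ih =>
    intro z
    simp only [word, vec, ih]
    rw [convQ_succ, convP_succ, convR_succ]

lemma word_length (n : ℕ) : ∀ z : ℝ × ℝ, (word n z).length = n := by
  induction n with
  | zero => intro z; simp [word]
  | succ n ih => intro z; simp [word, ih]

lemma word_valid (n : ℕ) : ∀ z : ℝ × ℝ, Adm z → Valid (word n z) := by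
  induction n with
  | zero => intro z _; simp [word, Valid]
  | succ n ih =>
    intro z hz
    refine ⟨hz.dB_pos, hz.dA_nonneg, hz.dA_le, ?_, ih _ hz.T⟩
    intro he e hmem
    cases n with
    | zero => simp [word] at hmem
    | succ n =>
      simp only [word, List.head?_cons, Option.mem_def, Option.some.injEq] at hmem
      subst hmem
      exact hz.dA_next he

lemma Valid.tail {d : ℤ × ℤ} {w : List (ℤ × ℤ)} (h : Valid (d :: w)) : Valid w := h.2.2.2.2

lemma vec_bounds : ∀ w : List (ℤ × ℤ), Valid w → 1 ≤ (vec w).1 ∧ 0 ≤ (vec w).2.1 ∧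
    (vec w).2.1 ≤ (vec w).1 ∧ 0 ≤ (vec w).2.2 ∧ (vec w).2.2 ≤ (vec w).1 ∧
    ((∀ e ∈ w.head?, 1 ≤ e.1) → (vec w).2.1 ≤ (vec w).2.2) := by
  intro w
  induction w with
  | nil => intro _; simp [vec]
  | cons d w ih =>
    intro h
    obtain ⟨h1, h2, h3, h4, h5⟩ := h
    obtain ⟨a1, a2, a3, a4, a5, a6⟩ := ih h5
    simp only [vec]
    refine ⟨by nlinarith, by linarith, by nlinarith, by nlinarith, ?_, ?_⟩
    · rcases h3.lt_or_eq with hlt | heq
      · nlinarith
      · have := a6 (h4 heq)
        rw [heq]; linarith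
    · intro h6
      have := h6 d (by simp)
      nlinarith

/-! ### Special vectors come from short words -/

lemma length_of_p_zero {w : List (ℤ × ℤ)} (h : Valid w) (hp : (vec w).2.1 = 0) : w = [] := by
  cases w with
  | nil => rfl
  | cons d w =>
    have := (vec_bounds w h.tail).1
    simp only [vec] at hp
    omega

lemma length_of_r_zero {w : List (ℤ × ℤ)} (h : Valid w) (hr : (vec w).2.2 = 0) :
    w.length ≤ 1 := by
  cases w with
  | nil => simp
  | cons d w =>
    obtain ⟨a1, a2, a3, a4, a5, a6⟩ := vec_bounds w h.tail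
    simp only [vec] at hr
    have hd := h.2.1
    have h1 : (vec w).2.1 = 0 := by nlinarith
    rw [length_of_p_zero h.tail h1]
    simp

lemma length_of_p_eq_q {w : List (ℤ × ℤ)} (h : Valid w) (hp : (vec w).2.1 = (vec w).1) :
    w.length ≤ 2 := by
  cases w with
  | nil => simp
  | cons d w =>
    obtain ⟨a1, a2, a3, a4, a5, a6⟩ := vec_bounds w h.tail
    simp only [vec] at hp
    have hd := h.1
    have h1 : (vec w).2.2 = 0 := by nlinarith
    have := length_of_r_zero h.tail h1
    simp; omega

lemma length_of_r_eq_q {w : List (ℤ × ℤ)} (h : Valid w) (hr : (vec w).2.2 = (vec w).1) :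
    w.length ≤ 2 := by
  cases w with
  | nil => simp
  | cons d w =>
    obtain ⟨h1, h2, h3, h4, h5⟩ := h
    obtain ⟨a1, a2, a3, a4, a5, a6⟩ := vec_bounds w h5
    simp only [vec] at hr
    rcases h3.lt_or_eq with hlt | heq
    · -- then `r' = 0`
      have : (vec w).2.2 = 0 := by nlinarith
      have := length_of_r_zero h5 this
      simp; omega
    · have hpr : (vec w).2.1 = (vec w).2.2 := by rw [heq] at hr; linarith
      have hhead := h4 heq
      cases w with
      | nil => simp
      | cons e w =>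
        have he := hhead e (by simp)
        obtain ⟨b1, b2, b3, b4, b5, b6⟩ := vec_bounds w h5.tail
        simp only [vec] at hpr
        have : (vec w).2.1 = 0 := by nlinarith
        rw [length_of_p_zero h5.tail this]
        simp

/-! ### Decoding the first digit -/

/-- the two bits of a word -/
def bits (w : List (ℤ × ℤ)) : Bool × Bool :=
  (decide ((vec w).2.2 = (vec w).1), decide ((vec w).2.1 = (vec w).1))

lemma bits_of_length {w : List (ℤ × ℤ)} (h : Valid w) (hl : 3 ≤ w.length) :
    bits w = (false, false) := by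
  unfold bits
  have h1 : ¬ (vec w).2.2 = (vec w).1 := fun h' => by
    have := length_of_r_eq_q h h'; omega
  have h2 : ¬ (vec w).2.1 = (vec w).1 := fun h' => by
    have := length_of_p_eq_q h h'; omega
  simp [h1, h2]

lemma decode {d1 d2 : ℤ × ℤ} {u1 u2 : List (ℤ × ℤ)} (h1 : Valid (d1 :: u1))
    (h2 : Valid (d2 :: u2)) (hv : vec (d1 :: u1) = vec (d2 :: u2)) (hb : bits u1 = bits u2) :
    d1 = d2 ∧ vec u1 = vec u2 := by
  obtain ⟨a1, a2, a3, a4, a5, a6⟩ := vec_bounds u1 h1.tail
  obtain ⟨b1, b2, b3, b4, b5, b6⟩ := vec_bounds u2 h2.tail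
  simp only [vec, Prod.mk.injEq] at hv
  obtain ⟨v1, v2, v3⟩ := hv
  unfold bits at hb
  simp only [Prod.mk.injEq, decide_eq_decide] at hb
  obtain ⟨c1, c2⟩ := hb
  rw [← v2] at v1 v3 c1 c2 b1 b3 b5
  have e1 : d1.2 = d2.2 := by
    by_contra hne
    rcases lt_or_gt_of_ne hne with hlt | hgt
    · have : (vec u1).2.2 = (vec u1).1 ∧ (vec u2).2.2 = 0 := by constructor <;> nlinarith
      have := c1.1 this.1
      omega
    · have : (vec u2).2.2 = (vec u1).1 ∧ (vec u1).2.2 = 0 := by constructor <;> nlinarith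
      have := c1.2 this.1
      omega
  have e2 : d1.1 = d2.1 := by
    by_contra hne
    rcases lt_or_gt_of_ne hne with hlt | hgt
    · have : (vec u1).2.1 = (vec u1).1 ∧ (vec u2).2.1 = 0 := by constructor <;> nlinarith
      have := c2.1 this.1
      omega
    · have : (vec u2).2.1 = (vec u1).1 ∧ (vec u1).2.1 = 0 := by constructor <;> nlinarith
      have := c2.2 this.1
      omega
  refine ⟨Prod.ext e2 e1, ?_⟩
  rw [e1] at v1
  rw [e2] at v3
  exact Prod.ext v2 (Prod.ext (by linarith) (by linarith))

lemma decode_ne {d1 d2 : ℤ × ℤ} {u1 u2 : List (ℤ × ℤ)} (h1 : Valid (d1 :: u1))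
    (h2 : Valid (d2 :: u2)) (hv : vec (d1 :: u1) = vec (d2 :: u2)) (hne : d1 ≠ d2) :
    u1.length ≤ 2 ∧ u2.length ≤ 2 := by
  obtain ⟨a1, a2, a3, a4, a5, a6⟩ := vec_bounds u1 h1.tail
  obtain ⟨b1, b2, b3, b4, b5, b6⟩ := vec_bounds u2 h2.tail
  simp only [vec, Prod.mk.injEq] at hv
  obtain ⟨v1, v2, v3⟩ := hv
  by_cases hb : d1.2 = d2.2
  · have hane : d1.1 ≠ d2.1 := fun h => hne (Prod.ext h hb)
    rcases lt_or_gt_of_ne hane with hlt | hgt
    · have : (vec u1).2.1 = (vec u1).1 ∧ (vec u2).2.1 = 0 := by
        rw [← v2] at v3 b3; constructor <;> nlinarith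
      rw [length_of_p_zero h2.tail this.2]
      exact ⟨length_of_p_eq_q h1.tail this.1, by simp⟩
    · have : (vec u2).2.1 = (vec u2).1 ∧ (vec u1).2.1 = 0 := by
        rw [v2] at v3 a1 a3; constructor <;> nlinarith
      rw [length_of_p_zero h1.tail this.2]
      exact ⟨by simp, length_of_p_eq_q h2.tail this.1⟩
  · rcases lt_or_gt_of_ne hb with hlt | hgt
    · have : (vec u1).2.2 = (vec u1).1 ∧ (vec u2).2.2 = 0 := by
        rw [← v2] at v1 b5; constructor <;> nlinarith
      exact ⟨length_of_r_eq_q h1.tail this.1, by have := length_of_r_zero h2.tail this.2; omega⟩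
    · have : (vec u2).2.2 = (vec u2).1 ∧ (vec u1).2.2 = 0 := by
        rw [v2] at v1 a1 a5; constructor <;> nlinarith
      exact ⟨by have := length_of_r_zero h1.tail this.2; omega, length_of_r_eq_q h2.tail this.1⟩

lemma length_le (w1 : List (ℤ × ℤ)) : ∀ w2 : List (ℤ × ℤ), Valid w1 → Valid w2 →
    vec w1 = vec w2 → w1.length ≤ w2.length + 3 := by
  induction w1 with
  | nil => intro w2 _ _ _; simp
  | cons d1 u1 ih =>
    intro w2 h1 h2 hv
    cases w2 with
    | nil =>
      exfalso
      have := (vec_bounds u1 h1.tail).1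
      simp only [vec, Prod.mk.injEq] at hv
      omega
    | cons d2 u2 =>
      by_cases hd : d1 = d2
      · subst hd
        have hv' : vec u1 = vec u2 := by
          simp only [vec, Prod.mk.injEq] at hv
          obtain ⟨v1, v2, v3⟩ := hv
          rw [v2] at v1 v3
          exact Prod.ext v2 (Prod.ext (by linarith) (by linarith))
        have := ih u2 h1.tail h2.tail hv'
        simp; omega
      · have := (decode_ne h1 h2 hv hd).1
        simp; omega

/-- bits of the end of a word -/
def endBits (j : ℕ) (w : List (ℤ × ℤ)) : Bool × Bool := bits (w.drop (w.length - j))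

lemma word_inj (w1 : List (ℤ × ℤ)) : ∀ w2 : List (ℤ × ℤ), Valid w1 → Valid w2 →
    vec w1 = vec w2 → w1.length = w2.length →
    (1 < w1.length → endBits 1 w1 = endBits 1 w2) → (2 < w1.length → endBits 2 w1 = endBits 2 w2) →
    w1 = w2 := by
  induction w1 with
  | nil =>
    intro w2 _ _ _ hl _ _
    exact (List.length_eq_zero_iff.1 (by simpa using hl.symm)).symm
  | cons d1 u1 ih =>
    intro w2 h1 h2 hv hl e1 e2
    cases w2 with
    | nil => simp at hl
    | cons d2 u2 =>
      have hl' : u1.length = u2.length := by simpa using hl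
      have hb : bits u1 = bits u2 := by
        have hcase : u1.length = 0 ∨ u1.length = 1 ∨ u1.length = 2 ∨ 3 ≤ u1.length := by omega
        rcases hcase with h | h | h | h
        · have h' : u2.length = 0 := by omega
          rw [List.length_eq_zero_iff.1 h, List.length_eq_zero_iff.1 h']
        · have := e1 (by simp [h])
          unfold endBits at this
          simpa [h, hl'.symm.trans h] using this
        · have := e2 (by simp [h])
          unfold endBits at this
          simpa [h, hl'.symm.trans h] using this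
        · rw [bits_of_length h1.tail h, bits_of_length h2.tail (hl' ▸ h)]
      obtain ⟨hd, hv'⟩ := decode h1 h2 hv hb
      have key : ∀ j, j < u1.length → endBits j (d1 :: u1) = endBits j (d2 :: u2) →
          endBits j u1 = endBits j u2 := by
        intro j hj h
        unfold endBits at h ⊢
        have a1 : (d1 :: u1).length - j = (u1.length - j) + 1 := by simp; omega
        have a2 : (d2 :: u2).length - j = (u2.length - j) + 1 := by simp; omega
        rw [a1, a2] at h
        simpa using h
      have := ih u2 h1.tail h2.tail hv' hl'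
        (fun h => key 1 h (e1 (by simp; omega))) (fun h => key 2 h (e2 (by simp; omega)))
      rw [hd, this]

/-- a code with finitely many values -/
def code (w : List (ℤ × ℤ)) : Fin 4 × (Bool × Bool) × (Bool × Bool) :=
  (⟨w.length % 4, Nat.mod_lt _ (by norm_num)⟩, endBits 1 w, endBits 2 w)

lemma code_injOn (v : ℤ × ℤ × ℤ) : Set.InjOn code {w | Valid w ∧ vec w = v} := by
  rintro w1 ⟨h1, hv1⟩ w2 ⟨h2, hv2⟩ hc
  unfold code at hc
  simp only [Prod.mk.injEq, Fin.mk.injEq] at hc
  obtain ⟨c1, c2, c3⟩ := hc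
  have hv : vec w1 = vec w2 := hv1.trans hv2.symm
  have l1 := length_le w1 w2 h1 h2 hv
  have l2 := length_le w2 w1 h2 h1 hv.symm
  exact word_inj w1 w2 h1 h2 hv (by omega) (fun _ => c2) (fun _ => c3)

lemma fiber_finite (v : ℤ × ℤ × ℤ) : {w | Valid w ∧ vec w = v}.Finite :=
  Set.Finite.of_injOn (f := code) (t := Set.univ) (fun _ _ => Set.mem_univ _) (code_injOn v)
    Set.finite_univ

lemma fiber_card (v : ℤ × ℤ × ℤ) : (fiber_finite v).toFinset.card ≤ 64 := by
  have h := Finset.card_le_card_of_injOn (s := (fiber_finite v).toFinset)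
    (t := (Finset.univ : Finset (Fin 4 × (Bool × Bool) × (Bool × Bool)))) code
    (fun _ _ => by simp) (by
      have := code_injOn v
      intro a ha b hb hab
      exact this (by simpa using ha) (by simpa using hb) hab)
  refine h.trans ?_
  decide

end Pool.Agent.H58.JP
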