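import Pool.Agent.H58.JP4

open MeasureTheory Set

namespace Pool.Agent.H58.JP

/-! ### The inverse branches and their Jacobians -/

lemma hasFDerivAt_frac (n1 n2 n3 q1 q2 q3 : ℝ) (u : ℝ × ℝ) (hD : q1 + q2 * u.1 + q3 * u.2 ≠ 0) :
    HasFDerivAt (fun u : ℝ × ℝ => (n1 + n2 * u.1 + n3 * u.2) / (q1 + q2 * u.1 + q3 * u.2))
      (((n2 * (q1 + q2 * u.1 + q3 * u.2) - q2 * (n1 + n2 * u.1 + n3 * u.2)) /
          (q1 + q2 * u.1 + q3 * u.2) ^ 2) • ContinuousLinearMap.fst ℝ ℝ ℝ +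
        ((n3 * (q1 + q2 * u.1 + q3 * u.2) - q3 * (n1 + n2 * u.1 + n3 * u.2)) /
          (q1 + q2 * u.1 + q3 * u.2) ^ 2) • ContinuousLinearMap.snd ℝ ℝ ℝ) u := by
  have lin : ∀ a b c : ℝ, HasFDerivAt (fun u : ℝ × ℝ => a + b * u.1 + c * u.2)
      (b • ContinuousLinearMap.fst ℝ ℝ ℝ + c • ContinuousLinearMap.snd ℝ ℝ ℝ) u := by
    intro a b c
    have h1 : HasFDerivAt (fun u : ℝ × ℝ => b * u.1) (b • ContinuousLinearMap.fst ℝ ℝ ℝ) u :=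
      (hasFDerivAt_fst).const_mul b
    have h2 : HasFDerivAt (fun u : ℝ × ℝ => c * u.2) (c • ContinuousLinearMap.snd ℝ ℝ ℝ) u :=
      (hasFDerivAt_snd).const_mul c
    have h3 := (h1.const_add a).add h2
    exact h3
  have hN := lin n1 n2 n3
  have hDer := lin q1 q2 q3
  have hinv := (hasDerivAt_inv hD).comp_hasFDerivAt u hDer
  have hmul := hN.mul hinv
  simp only [div_eq_mul_inv]
  refine hmul.congr_fderiv ?_
  ext
  · simp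
    field_simp
    ring
  · simp
    field_simp
    ring

/-- An inverse branch. -/
noncomputable def phi (c1 c2 c3 : ℤ × ℤ × ℤ) (u : ℝ × ℝ) : ℝ × ℝ :=
  ((c1.2.1 + c2.2.1 * u.1 + c3.2.1 * u.2) / (c1.1 + c2.1 * u.1 + c3.1 * u.2),
    (c1.2.2 + c2.2.2 * u.1 + c3.2.2 * u.2) / (c1.1 + c2.1 * u.1 + c3.1 * u.2))

/-- determinant of three vectors -/
def det3 (c1 c2 c3 : ℤ × ℤ × ℤ) : ℤ :=
  c1.1 * (c2.2.1 * c3.2.2 - c3.2.1 * c2.2.2) - c2.1 * (c1.2.1 * c3.2.2 - c3.2.1 * c1.2.2) +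
    c3.1 * (c1.2.1 * c2.2.2 - c2.2.1 * c1.2.2)

lemma volume_phi_image_le (c1 c2 c3 : ℤ × ℤ × ℤ) (h1 : 1 ≤ c1.1) (h2 : 0 ≤ c2.1) (h3 : 0 ≤ c3.1)
    (hdet : det3 c1 c2 c3 = 1) {E : Set (ℝ × ℝ)} (hE : MeasurableSet E)
    (hpos : ∀ u ∈ E, 0 ≤ u.1 ∧ 0 ≤ u.2) :
    volume (phi c1 c2 c3 '' E) ≤ ENNReal.ofReal (1 / (c1.1 : ℝ) ^ 3) * volume E := by
  have r1 : (1 : ℝ) ≤ c1.1 := by exact_mod_cast h1
  have r2 : (0 : ℝ) ≤ c2.1 := by exact_mod_cast h2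
  have r3 : (0 : ℝ) ≤ c3.1 := by exact_mod_cast h3
  have hDge : ∀ u ∈ E, (c1.1 : ℝ) ≤ c1.1 + c2.1 * u.1 + c3.1 * u.2 := by
    intro u hu
    have := hpos u hu
    have a1 := mul_nonneg r2 this.1
    have a2 := mul_nonneg r3 this.2
    linarith
  set M : ℝ × ℝ → (ℝ × ℝ →L[ℝ] ℝ × ℝ) := fun u =>
    (Matrix.toLin (.finTwoProd ℝ) (.finTwoProd ℝ)
    !![(c2.2.1 * (c1.1 + c2.1 * u.1 + c3.1 * u.2) - c2.1 * (c1.2.1 + c2.2.1 * u.1 + c3.2.1 * u.2)) /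
          (c1.1 + c2.1 * u.1 + c3.1 * u.2) ^ 2,
       (c3.2.1 * (c1.1 + c2.1 * u.1 + c3.1 * u.2) - c3.1 * (c1.2.1 + c2.2.1 * u.1 + c3.2.1 * u.2)) /
          (c1.1 + c2.1 * u.1 + c3.1 * u.2) ^ 2;
       (c2.2.2 * (c1.1 + c2.1 * u.1 + c3.1 * u.2) - c2.1 * (c1.2.2 + c2.2.2 * u.1 + c3.2.2 * u.2)) /
          (c1.1 + c2.1 * u.1 + c3.1 * u.2) ^ 2,
       (c3.2.2 * (c1.1 + c2.1 * u.1 + c3.1 * u.2) - c3.1 * (c1.2.2 + c2.2.2 * u.1 + c3.2.2 * u.2)) /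
          (c1.1 + c2.1 * u.1 + c3.1 * u.2) ^ 2]).toContinuousLinearMap with hM
  have hder : ∀ u ∈ E, HasFDerivWithinAt (phi c1 c2 c3) (M u) E u := by
    intro u hu
    have hD : (c1.1 : ℝ) + c2.1 * u.1 + c3.1 * u.2 ≠ 0 := by
      have := hDge u hu; intro h; linarith
    have a1 := hasFDerivAt_frac c1.2.1 c2.2.1 c3.2.1 c1.1 c2.1 c3.1 u hD
    have a2 := hasFDerivAt_frac c1.2.2 c2.2.2 c3.2.2 c1.1 c2.1 c3.1 u hD
    have a3 := a1.prodMk a2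
    rw [hM]
    simp only
    rw [Matrix.toLin_finTwoProd_toContinuousLinearMap]
    exact a3.hasFDerivWithinAt
  have hdetM : ∀ u ∈ E, (M u).det = 1 / ((c1.1 : ℝ) + c2.1 * u.1 + c3.1 * u.2) ^ 3 := by
    intro u hu
    have hD : (c1.1 : ℝ) + c2.1 * u.1 + c3.1 * u.2 ≠ 0 := by
      have := hDge u hu; intro h; linarith
    have hd : ((c1.1 : ℝ) * (c2.2.1 * c3.2.2 - c3.2.1 * c2.2.2) -
        c2.1 * (c1.2.1 * c3.2.2 - c3.2.1 * c1.2.2) +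
        c3.1 * (c1.2.1 * c2.2.2 - c2.2.1 * c1.2.2)) = 1 := by
      unfold det3 at hdet
      exact_mod_cast hdet
    rw [hM]
    simp only [LinearMap.det_toContinuousLinearMap, LinearMap.det_toLin, Matrix.det_fin_two_of]
    field_simp
    linear_combination ((c1.1 : ℝ) + c2.1 * u.1 + c3.1 * u.2) * hd
  refine (addHaar_image_le_lintegral_abs_det_fderiv volume hE hder).trans ?_
  calc ∫⁻ u in E, ENNReal.ofReal |(M u).det| ≤ ∫⁻ _u in E, ENNReal.ofReal (1 / (c1.1 : ℝ) ^ 3) := by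
        apply setLIntegral_mono' hE
        intro u hu
        rw [hdetM u hu]
        have hge := hDge u hu
        have hD0 : (0 : ℝ) ≤ (c1.1 : ℝ) + c2.1 * u.1 + c3.1 * u.2 := by linarith
        rw [abs_of_nonneg (one_div_nonneg.2 (pow_nonneg hD0 3))]
        apply ENNReal.ofReal_le_ofReal
        apply one_div_le_one_div_of_le (by positivity)
        exact pow_le_pow_left₀ (by linarith) hge 3
    _ = ENNReal.ofReal (1 / (c1.1 : ℝ) ^ 3) * volume E := by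
        rw [setLIntegral_const]

end Pool.Agent.H58.JP
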