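import Pool.Agent.H58.JP5

open MeasureTheory Set

namespace Pool.Agent.H58.JP

/-- action of a word of digits on a vector -/
def vecG (v : ℤ × ℤ × ℤ) : List (ℤ × ℤ) → ℤ × ℤ × ℤ
  | [] => v
  | d :: w => (d.2 * (vecG v w).1 + (vecG v w).2.2, (vecG v w).1,
      d.1 * (vecG v w).1 + (vecG v w).2.1)

lemma vecG_eq_vec (w : List (ℤ × ℤ)) : vecG (1, 0, 0) w = vec w := by
  induction w with
  | nil => rfl
  | cons d w ih => simp only [vecG, vec, ih]

lemma det3_vecG (v1 v2 v3 : ℤ × ℤ × ℤ) (w : List (ℤ × ℤ)) :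
    det3 (vecG v1 w) (vecG v2 w) (vecG v3 w) = det3 v1 v2 v3 := by
  induction w with
  | nil => rfl
  | cons d w ih =>
    rw [← ih]
    simp only [vecG, det3]
    ring

lemma vecG_nonneg {v : ℤ × ℤ × ℤ} (h1 : 0 ≤ v.1) (h2 : 0 ≤ v.2.1) (h3 : 0 ≤ v.2.2)
    (w : List (ℤ × ℤ)) (hw : Valid w) :
    0 ≤ (vecG v w).1 ∧ 0 ≤ (vecG v w).2.1 ∧ 0 ≤ (vecG v w).2.2 := by
  induction w with
  | nil => exact ⟨h1, h2, h3⟩
  | cons d w ih =>
    obtain ⟨a1, a2, a3⟩ := ih hw.tail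
    have b1 : 0 ≤ d.2 := by have := hw.1; linarith
    have b2 : 0 ≤ d.1 := hw.2.1
    simp only [vecG]
    refine ⟨by positivity, a1, by positivity⟩

lemma cyl (n : ℕ) : ∀ z : ℝ × ℝ, Adm z →
    z.1 * (((vecG (1, 0, 0) (word n z)).1 : ℝ) + (vecG (0, 1, 0) (word n z)).1 * (T^[n] z).1 +
      (vecG (0, 0, 1) (word n z)).1 * (T^[n] z).2) =
      ((vecG (1, 0, 0) (word n z)).2.1 : ℝ) + (vecG (0, 1, 0) (word n z)).2.1 * (T^[n] z).1 +
      (vecG (0, 0, 1) (word n z)).2.1 * (T^[n] z).2 ∧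
    z.2 * (((vecG (1, 0, 0) (word n z)).1 : ℝ) + (vecG (0, 1, 0) (word n z)).1 * (T^[n] z).1 +
      (vecG (0, 0, 1) (word n z)).1 * (T^[n] z).2) =
      ((vecG (1, 0, 0) (word n z)).2.2 : ℝ) + (vecG (0, 1, 0) (word n z)).2.2 * (T^[n] z).1 +
      (vecG (0, 0, 1) (word n z)).2.2 * (T^[n] z).2 := by
  induction n with
  | zero => intro z _; simp [word, vecG]
  | succ n ih =>
    intro z hz
    obtain ⟨i1, i2⟩ := ih (T z) hz.T
    have e1 := hz.fst_eq
    have e2 := hz.snd_eq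
    rw [Function.iterate_succ_apply]
    simp only [word, vecG]
    push_cast
    set D : ℝ := (((vecG (1, 0, 0) (word n (T z))).1 : ℝ) +
      (vecG (0, 1, 0) (word n (T z))).1 * (T^[n] (T z)).1 +
      (vecG (0, 0, 1) (word n (T z))).1 * (T^[n] (T z)).2) with hD
    constructor
    · linear_combination D * e1 - z.1 * i2
    · linear_combination D * e2 - z.2 * i2 + i1

lemma phi_word (n : ℕ) {z : ℝ × ℝ} (hz : Adm z) :
    phi (vecG (1, 0, 0) (word n z)) (vecG (0, 1, 0) (word n z)) (vecG (0, 0, 1) (word n z))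
      (T^[n] z) = z := by
  obtain ⟨i1, i2⟩ := cyl n z hz
  have hv := word_valid n z hz
  have p1 : (1 : ℝ) ≤ (vecG (1, 0, 0) (word n z)).1 := by
    rw [vecG_eq_vec]; exact_mod_cast (vec_bounds _ hv).1
  have p2 : (0 : ℝ) ≤ (vecG (0, 1, 0) (word n z)).1 := by
    exact_mod_cast (vecG_nonneg (v := (0, 1, 0)) (by norm_num) (by norm_num) (by norm_num) _ hv).1
  have p3 : (0 : ℝ) ≤ (vecG (0, 0, 1) (word n z)).1 := by
    exact_mod_cast (vecG_nonneg (v := (0, 0, 1)) (by norm_num) (by norm_num) (by norm_num) _ hv).1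
  have q1 := (hz.iter n).x0
  have q2 := (hz.iter n).y0
  have hD : 0 < (((vecG (1, 0, 0) (word n z)).1 : ℝ) + (vecG (0, 1, 0) (word n z)).1 * (T^[n] z).1 +
      (vecG (0, 0, 1) (word n z)).1 * (T^[n] z).2) := by
    have := mul_nonneg p2 q1.le
    have := mul_nonneg p3 q2.le
    linarith
  unfold phi
  apply Prod.ext
  · simp only
    rw [div_eq_iff hD.ne']
    exact i1.symm
  · simp only
    rw [div_eq_iff hD.ne']
    exact i2.symm

/-- Volume of (truncated) cylinders. -/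
lemma volume_cyl (w : List (ℤ × ℤ)) (hw : Valid w) (t : ℝ) :
    volume {z : ℝ × ℝ | Adm z ∧ word w.length z = w ∧ (T^[w.length] z).1 ≤ t} ≤
      ENNReal.ofReal (1 / ((vec w).1 : ℝ) ^ 3) * ENNReal.ofReal t := by
  have hsub : {z : ℝ × ℝ | Adm z ∧ word w.length z = w ∧ (T^[w.length] z).1 ≤ t} ⊆
      phi (vecG (1, 0, 0) w) (vecG (0, 1, 0) w) (vecG (0, 0, 1) w) ''
        (Icc (0 : ℝ) t ×ˢ Icc (0 : ℝ) 1) := by
    rintro z ⟨hz, hwz, ht⟩
    refine ⟨T^[w.length] z, ?_, ?_⟩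
    · have := hz.iter w.length
      exact ⟨⟨this.x0.le, ht⟩, ⟨this.y0.le, this.y1.le⟩⟩
    · have := phi_word w.length hz
      rw [hwz] at this
      exact this
  refine (measure_mono hsub).trans ?_
  have h1 : 1 ≤ (vecG (1, 0, 0) w).1 := by rw [vecG_eq_vec]; exact (vec_bounds _ hw).1
  have h2 := (vecG_nonneg (v := (0, 1, 0)) (by norm_num) (by norm_num) (by norm_num) _ hw).1
  have h3 := (vecG_nonneg (v := (0, 0, 1)) (by norm_num) (by norm_num) (by norm_num) _ hw).1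
  have hdet : det3 (vecG (1, 0, 0) w) (vecG (0, 1, 0) w) (vecG (0, 0, 1) w) = 1 := by
    rw [det3_vecG]; rfl
  have := volume_phi_image_le (vecG (1, 0, 0) w) (vecG (0, 1, 0) w) (vecG (0, 0, 1) w) h1 h2 h3 hdet
    (E := Icc (0 : ℝ) t ×ˢ Icc (0 : ℝ) 1) (measurableSet_Icc.prod measurableSet_Icc)
    (by rintro u ⟨⟨a, _⟩, ⟨b, _⟩⟩; exact ⟨a, b⟩)
  refine this.trans ?_
  rw [vecG_eq_vec, Measure.volume_eq_prod, Measure.prod_prod, Real.volume_Icc, Real.volume_Icc]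
  simp

end Pool.Agent.H58.JP
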