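import Pool.Agent.H58.JPDefs

namespace Pool.Agent.H58.JP

/-! ### Elementary counting lemmas -/

lemma card_sep (s : Finset ℤ) (d : ℤ) (hd : 1 ≤ d) (l : ℝ) (hl : 0 ≤ l)
    (h : ∀ m ∈ s, ∀ n ∈ s, d ∣ m - n ∧ ((m : ℝ) - n) ≤ l) : (s.card : ℝ) ≤ l / d + 1 := by
  have hd' : (0 : ℝ) < d := by exact_mod_cast (by linarith : (0 : ℤ) < d)
  rcases s.eq_empty_or_nonempty with rfl | hne
  · simp; positivity
  · set m := s.min' hne with hm
    have hms : m ∈ s := s.min'_mem hne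
    have hinj : Set.InjOn (fun n : ℤ => (n - m) / d) s := by
      intro a ha b hb hab
      simp only at hab
      have h1 := (h a ha m hms).1
      have h2 := (h b hb m hms).1
      have e1 := Int.ediv_mul_cancel h1
      have e2 := Int.ediv_mul_cancel h2
      rw [hab] at e1
      linarith
    have hmaps : ∀ n ∈ s, (n - m) / d ∈ Finset.Icc (0 : ℤ) ⌊l / d⌋ := by
      intro n hn
      rw [Finset.mem_Icc]
      have h1 := (h n hn m hms)
      have e1 := Int.ediv_mul_cancel h1.1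
      constructor
      · apply Int.ediv_nonneg _ (by linarith)
        have := s.min'_le n hn
        linarith
      · rw [Int.le_floor, le_div_iff₀ hd']
        have : (((n - m) / d : ℤ) : ℝ) * d = (n : ℝ) - m := by exact_mod_cast e1
        rw [this]; exact h1.2
    have hc := Finset.card_le_card_of_injOn _ hmaps hinj
    rw [Int.card_Icc] at hc
    have hf : (0 : ℤ) ≤ ⌊l / d⌋ := Int.floor_nonneg.2 (by positivity)
    have hc' : (s.card : ℤ) ≤ ⌊l / d⌋ + 1 := by omega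
    have hc'' : (s.card : ℝ) ≤ (⌊l / d⌋ : ℝ) + 1 := by exact_mod_cast hc'
    have := Int.floor_le (l / d)
    linarith

lemma card_le_mul_real {α β : Type*} [DecidableEq β] (s : Finset α) (f : α → β) (C D : ℝ)
    (hC : 0 ≤ C) (h1 : ((s.image f).card : ℝ) ≤ D)
    (h2 : ∀ b ∈ s.image f, ((s.filter (fun a => f a = b)).card : ℝ) ≤ C) :
    (s.card : ℝ) ≤ D * C := by
  have h := Finset.card_eq_sum_card_image f s
  rw [h]
  push_cast
  calc ∑ b ∈ s.image f, ((s.filter (fun a => f a = b)).card : ℝ) ≤ ∑ _b ∈ s.image f, C :=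
        Finset.sum_le_sum h2
    _ = (s.image f).card * C := by simp
    _ ≤ D * C := mul_le_mul_of_nonneg_right h1 hC

/-! ### Shortest vectors -/

/-- `(x, y)` is a shortest nonzero vector of the lattice of `v = (N, a, b)`. -/
def IsMin (v : ℤ × ℤ × ℤ) (x y : ℤ) : Prop :=
  (x ≠ 0 ∨ y ≠ 0) ∧ InLattice v.1 v.2.1 v.2.2 x y ∧
    ∀ x' y' : ℤ, (x' ≠ 0 ∨ y' ≠ 0) → InLattice v.1 v.2.1 v.2.2 x' y' →
      x ^ 2 + y ^ 2 ≤ x' ^ 2 + y' ^ 2

lemma exists_isMin (v : ℤ × ℤ × ℤ) (hv : 1 ≤ v.1) :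
    ∃ x y : ℤ, IsMin v x y ∧ lam v.1 v.2.1 v.2.2 ^ 2 = (x : ℝ) ^ 2 + (y : ℝ) ^ 2 := by
  classical
  set S : Set ℕ := {m | ∃ x y : ℤ, (x ≠ 0 ∨ y ≠ 0) ∧ InLattice v.1 v.2.1 v.2.2 x y ∧
    (m : ℤ) = x ^ 2 + y ^ 2} with hS
  have hne : S.Nonempty := by
    refine ⟨(v.1 ^ 2).toNat, v.1, 0, Or.inl (by omega), ⟨0, by simp, by simp⟩, ?_⟩
    rw [Int.toNat_of_nonneg (by positivity)]; ring
  obtain ⟨x, y, h1, h2, h3⟩ := Nat.sInf_mem hne
  have hmin : ∀ x' y' : ℤ, (x' ≠ 0 ∨ y' ≠ 0) → InLattice v.1 v.2.1 v.2.2 x' y' →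
      x ^ 2 + y ^ 2 ≤ x' ^ 2 + y' ^ 2 := by
    intro x' y' h1' h2'
    have : sInf S ≤ (x' ^ 2 + y' ^ 2).toNat := by
      apply Nat.sInf_le
      exact ⟨x', y', h1', h2', Int.toNat_of_nonneg (by positivity)⟩
    have h4 : ((x' ^ 2 + y' ^ 2).toNat : ℤ) = x' ^ 2 + y' ^ 2 :=
      Int.toNat_of_nonneg (by positivity)
    rw [← h3, ← h4]
    exact_mod_cast this
  refine ⟨x, y, ⟨h1, h2, hmin⟩, ?_⟩
  have hl : lam v.1 v.2.1 v.2.2 = Real.sqrt ((x : ℝ) ^ 2 + (y : ℝ) ^ 2) := by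
    unfold lam
    apply IsLeast.csInf_eq
    refine ⟨⟨x, y, h1, h2, rfl⟩, ?_⟩
    rintro t ⟨x', y', h1', h2', rfl⟩
    apply Real.sqrt_le_sqrt
    exact_mod_cast hmin x' y' h1' h2'
  rw [hl, Real.sq_sqrt (by positivity)]

lemma IsMin.dvd {v : ℤ × ℤ × ℤ} {x y : ℤ} (h : IsMin v x y) : v.1 ∣ x * v.2.2 - y * v.2.1 := by
  obtain ⟨n, ⟨a, ha⟩, ⟨b, hb⟩⟩ := h.2.1
  refine ⟨a * v.2.2 - b * v.2.1, ?_⟩
  linear_combination v.2.2 * ha - v.2.1 * hb

lemma IsMin.gcd_dvd {v : ℤ × ℤ × ℤ} {g x y : ℤ} (hg : 1 ≤ g) (h : IsMin v (g * x) (g * y)) :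
    g ∣ v.1 := by
  obtain ⟨h1, ⟨n, hn1, hn2⟩, h3⟩ := h
  have hd := Int.gcd_eq_gcd_ab g v.1
  set d : ℤ := (Int.gcd g v.1 : ℤ) with hdd
  set u := Int.gcdA g v.1
  set w := Int.gcdB g v.1
  have hdg : d ∣ g := Int.gcd_dvd_left _ _
  have hdv : d ∣ v.1 := Int.gcd_dvd_right _ _
  have hd0 : 0 ≤ d := by rw [hdd]; positivity
  have hd1 : 1 ≤ d := by
    rcases hd0.lt_or_eq with h | h
    · exact h
    · rw [← h] at hdg
      have := zero_dvd_iff.1 hdg
      omega
  have hxy : x ≠ 0 ∨ y ≠ 0 := by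
    rcases h1 with h | h
    · left; rintro rfl; simp at h
    · right; rintro rfl; simp at h
  have hlat : InLattice v.1 v.2.1 v.2.2 (d * x) (d * y) := by
    obtain ⟨a, ha⟩ := hn1
    obtain ⟨b, hb⟩ := hn2
    refine ⟨u * n, ⟨u * a + w * x, ?_⟩, ⟨u * b + w * y, ?_⟩⟩
    · linear_combination x * hd + u * ha
    · linear_combination y * hd + u * hb
  have := h3 (d * x) (d * y) (by
    rcases hxy with h | h
    · left; exact mul_ne_zero (by omega) h
    · right; exact mul_ne_zero (by omega) h) hlat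
  have hs : 0 < x ^ 2 + y ^ 2 := by
    rcases hxy with h | h
    · positivity
    · positivity
  have hle : g ≤ d := by
    by_contra hcon
    push Not at hcon
    have h5 : d ^ 2 < g ^ 2 := by nlinarith
    nlinarith
  have hle' : d ≤ g := Int.le_of_dvd (by omega) hdg
  have : d = g := le_antisymm hle' hle
  rw [← this]; exact hdv

/-! ### The number of vectors with a given shortest vector -/

lemma card_fixed (V : Finset (ℤ × ℤ × ℤ)) (P δ l α β : ℝ) (hP : 0 ≤ P) (hδ : 0 ≤ δ) (hl : 0 ≤ l)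
    (g x y : ℤ) (hg : 1 ≤ g) (hx : x ≠ 0) (hyx : |y| ≤ |x|) (hco : IsCoprime x y)
    (h1 : ∀ v ∈ V, 1 ≤ v.1 ∧ (v.1 : ℝ) ≤ P ∧ |(v.2.1 : ℝ) - α * v.1| ≤ δ * v.1 ∧
      |(v.2.2 : ℝ) - β * v.1| ≤ δ * v.1)
    (h2 : ∀ v ∈ V, IsMin v (g * x) (g * y))
    (h3 : ∀ v ∈ V, ∀ v' ∈ V, (v.1 : ℝ) - v'.1 ≤ l * P) :
    (V.card : ℝ) ≤ (l * P / g + 1) * ((4 * (g * |(x : ℝ)|) * δ + 1) * (2 * δ * P / |(x : ℝ)| + 1)) := by
  classical
  have hg' : (1 : ℝ) ≤ g := by exact_mod_cast hg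
  have hx' : (0 : ℝ) < |(x : ℝ)| := by
    rw [abs_pos]; exact_mod_cast hx
  have hyx' : |(y : ℝ)| ≤ |(x : ℝ)| := by exact_mod_cast hyx
  refine card_le_mul_real V (fun v => v.1) _ _ (by positivity) ?_ ?_
  · refine card_sep _ g hg (l * P) (by positivity) ?_
    intro m hm n hn
    rw [Finset.mem_image] at hm hn
    obtain ⟨v, hv, rfl⟩ := hm
    obtain ⟨v', hv', rfl⟩ := hn
    exact ⟨dvd_sub ((h2 v hv).gcd_dvd hg) ((h2 v' hv').gcd_dvd hg), h3 v hv v' hv'⟩
  · intro q hq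
    rw [Finset.mem_image] at hq
    obtain ⟨v0, hv0, rfl⟩ := hq
    set q := v0.1 with hqdef
    have hq1 : (1 : ℝ) ≤ q := by exact_mod_cast (h1 v0 hv0).1
    have hqP : (q : ℝ) ≤ P := (h1 v0 hv0).2.1
    set kf : ℤ × ℤ × ℤ → ℤ := fun v => (g * x * v.2.2 - g * y * v.2.1) / v.1 with hkf
    have hk : ∀ v ∈ V, kf v * v.1 = g * x * v.2.2 - g * y * v.2.1 := by
      intro v hv
      exact Int.ediv_mul_cancel (h2 v hv).dvd
    have hdiff : ∀ v ∈ V, ∀ v' ∈ V, v.1 = q → v'.1 = q →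
        |(v.2.1 : ℝ) - v'.2.1| ≤ 2 * δ * q ∧ |(v.2.2 : ℝ) - v'.2.2| ≤ 2 * δ * q := by
      intro v hv v' hv' e e'
      have a := h1 v hv
      have b := h1 v' hv'
      rw [e] at a
      rw [e'] at b
      obtain ⟨_, _, a3, a4⟩ := a
      obtain ⟨_, _, b3, b4⟩ := b
      rw [abs_le] at a3 a4 b3 b4
      constructor <;> rw [abs_le] <;> constructor <;> linarith [a3.1, a3.2, a4.1, a4.2, b3.1, b3.2, b4.1, b4.2]
    refine card_le_mul_real _ kf _ _ (by positivity) ?_ ?_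
    · have := card_sep ((V.filter (fun v => v.1 = q)).image kf) 1 le_rfl
        (4 * (g * |(x : ℝ)|) * δ) (by positivity) ?_
      · simpa using this
      · intro m hm n hn
        refine ⟨one_dvd _, ?_⟩
        rw [Finset.mem_image] at hm hn
        obtain ⟨v, hv, rfl⟩ := hm
        obtain ⟨v', hv', rfl⟩ := hn
        rw [Finset.mem_filter] at hv hv'
        have k1 := hk v hv.1
        have k2 := hk v' hv'.1
        rw [hv.2] at k1
        rw [hv'.2] at k2
        have k1' : (kf v : ℝ) * q = g * x * v.2.2 - g * y * v.2.1 := by exact_mod_cast k1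
        have k2' : (kf v' : ℝ) * q = g * x * v'.2.2 - g * y * v'.2.1 := by exact_mod_cast k2
        obtain ⟨d1, d2⟩ := hdiff v hv.1 v' hv'.1 hv.2 hv'.2
        have e1 : (g : ℝ) * x * (v.2.2 - v'.2.2) ≤ g * |(x : ℝ)| * (2 * δ * q) := by
          calc (g : ℝ) * x * (v.2.2 - v'.2.2) = g * (x * (v.2.2 - v'.2.2)) := by ring
            _ ≤ g * |(x : ℝ) * (v.2.2 - v'.2.2)| := by
                gcongr; exact le_abs_self _
            _ = g * (|(x : ℝ)| * |(v.2.2 : ℝ) - v'.2.2|) := by rw [abs_mul]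
            _ ≤ g * (|(x : ℝ)| * (2 * δ * q)) := by gcongr
            _ = _ := by ring
        have e2 : -((g : ℝ) * y * (v.2.1 - v'.2.1)) ≤ g * |(x : ℝ)| * (2 * δ * q) := by
          calc -((g : ℝ) * y * (v.2.1 - v'.2.1)) = g * (-(y * (v.2.1 - v'.2.1))) := by ring
            _ ≤ g * |(y : ℝ) * (v.2.1 - v'.2.1)| := by
                gcongr; exact neg_le_abs _
            _ = g * (|(y : ℝ)| * |(v.2.1 : ℝ) - v'.2.1|) := by rw [abs_mul]
            _ ≤ g * (|(x : ℝ)| * (2 * δ * q)) := by gcongr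
            _ = _ := by ring
        have e3 : ((kf v : ℝ) - kf v') * q ≤ 4 * (g * |(x : ℝ)|) * δ * q := by
          calc ((kf v : ℝ) - kf v') * q = g * x * (v.2.2 - v'.2.2) +
                -((g : ℝ) * y * (v.2.1 - v'.2.1)) := by
                  linear_combination k1' - k2'
            _ ≤ g * |(x : ℝ)| * (2 * δ * q) + g * |(x : ℝ)| * (2 * δ * q) := add_le_add e1 e2
            _ = _ := by ring
        exact le_of_mul_le_mul_right e3 (by linarith)
    · intro k hk0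
      set W := (V.filter (fun v => v.1 = q)).filter (fun v => kf v = k) with hW
      have hWmem : ∀ v ∈ W, v ∈ V ∧ v.1 = q ∧ kf v = k := by
        intro v hv
        rw [hW, Finset.mem_filter, Finset.mem_filter] at hv
        exact ⟨hv.1.1, hv.1.2, hv.2⟩
      have hrel : ∀ v ∈ W, ∀ v' ∈ W, x * (v.2.2 - v'.2.2) = y * (v.2.1 - v'.2.1) := by
        intro v hv v' hv'
        obtain ⟨a1, a2, a3⟩ := hWmem v hv
        obtain ⟨b1, b2, b3⟩ := hWmem v' hv'
        have k1 := hk v a1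
        have k2 := hk v' b1
        rw [a2, a3] at k1
        rw [b2, b3] at k2
        have : g * (x * (v.2.2 - v'.2.2)) = g * (y * (v.2.1 - v'.2.1)) := by
          linear_combination k2 - k1
        exact mul_left_cancel₀ (by omega) this
      have hinj : Set.InjOn (fun v : ℤ × ℤ × ℤ => v.2.1) W := by
        intro v hv v' hv' hvv'
        simp only at hvv'
        have hr := hrel v hv v' hv'
        rw [hvv', sub_self, mul_zero] at hr
        have hr' : v.2.2 - v'.2.2 = 0 := by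
          rcases mul_eq_zero.1 hr with h | h
          · exact absurd h hx
          · exact h
        have e1 := (hWmem v hv).2.1
        have e2 := (hWmem v' hv').2.1
        exact Prod.ext (e1.trans e2.symm) (Prod.ext hvv' (by linarith))
      have hcard : W.card = (W.image (fun v : ℤ × ℤ × ℤ => v.2.1)).card :=
        (Finset.card_image_of_injOn hinj).symm
      rw [hcard]
      have hxa : ((|x| : ℤ) : ℝ) = |(x : ℝ)| := by push_cast; rfl
      rw [← hxa]
      refine card_sep _ |x| (by have := abs_pos.2 hx; omega) _ (by positivity) ?_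
      intro m hm n hn
      rw [Finset.mem_image] at hm hn
      obtain ⟨v, hv, rfl⟩ := hm
      obtain ⟨v', hv', rfl⟩ := hn
      constructor
      · rw [abs_dvd]
        have : x ∣ y * (v.2.1 - v'.2.1) := ⟨_, (hrel v hv v' hv').symm⟩
        exact hco.dvd_of_dvd_mul_left this
      · obtain ⟨a1, a2, a3⟩ := hWmem v hv
        obtain ⟨b1, b2, b3⟩ := hWmem v' hv'
        have d := (hdiff v a1 v' b1 a2 b2).1
        have := le_abs_self ((v.2.1 : ℝ) - v'.2.1)
        calc (v.2.1 : ℝ) - v'.2.1 ≤ 2 * δ * q := by linarith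
          _ ≤ 2 * δ * P := by gcongr

end Pool.Agent.H58.JP
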