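import Pool.Agent.H58.JP7

namespace Pool.Agent.H58.JP

lemma card_xy (V : Finset (ℤ × ℤ × ℤ)) (P δ l α β : ℝ) (hP : 0 ≤ P) (hδ : 0 ≤ δ) (hl : 0 ≤ l)
    (x y : ℤ) (hx : x ≠ 0) (hyx : |y| ≤ |x|)
    (h1 : ∀ v ∈ V, 1 ≤ v.1 ∧ (v.1 : ℝ) ≤ P ∧ |(v.2.1 : ℝ) - α * v.1| ≤ δ * v.1 ∧
      |(v.2.2 : ℝ) - β * v.1| ≤ δ * v.1)
    (h2 : ∀ v ∈ V, IsMin v x y)
    (h3 : ∀ v ∈ V, ∀ v' ∈ V, (v.1 : ℝ) - v'.1 ≤ l * P) :
    (V.card : ℝ) ≤ 8 * l * δ ^ 2 * P ^ 2 + 2 * l * δ * P ^ 2 / |(x : ℝ)| +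
      (4 * |(x : ℝ)| * δ + 1) * (l * P + 2 * δ * P + 1) := by
  have hgpos : 0 < Int.gcd x y := Int.gcd_pos_of_ne_zero_left _ hx
  obtain ⟨x', y', hco, hxe, hye⟩ := Int.exists_gcd_one hgpos
  set g : ℤ := (Int.gcd x y : ℤ) with hg
  have hg1 : 1 ≤ g := by rw [hg]; exact_mod_cast hgpos
  have hxe' : x = g * x' := by rw [hxe]; ring
  have hye' : y = g * y' := by rw [hye]; ring
  have hx' : x' ≠ 0 := by rintro rfl; simp at hxe'; exact hx hxe'
  have hyx' : |y'| ≤ |x'| := by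
    rw [hxe', hye', abs_mul, abs_mul] at hyx
    exact le_of_mul_le_mul_left hyx (abs_pos.2 (by omega))
  have key := card_fixed V P δ l α β hP hδ hl g x' y' hg1 hx' hyx' (Int.isCoprime_iff_gcd_eq_one.2 hco)
    h1 (fun v hv => by rw [← hxe', ← hye']; exact h2 v hv) h3
  have hgr : (1 : ℝ) ≤ g := by exact_mod_cast hg1
  have hX : |(x : ℝ)| = g * |(x' : ℝ)| := by
    rw [hxe']; push_cast; rw [abs_mul, abs_of_nonneg (by linarith : (0 : ℝ) ≤ g)]
  have hX' : (1 : ℝ) ≤ |(x' : ℝ)| := by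
    have := abs_pos.2 hx'
    have h' : (1 : ℤ) ≤ |x'| := by omega
    exact_mod_cast h'
  rw [hX]
  set X := |(x' : ℝ)| with hXdef
  refine key.trans ?_
  have hpos1 : 0 ≤ 4 * (g * X) * δ + 1 := by positivity
  have e1 : (l * P / g + 1) * (2 * δ * P / X + 1) ≤
      2 * l * δ * P ^ 2 / (g * X) + (l * P + 2 * δ * P + 1) := by
    have : (l * P / g + 1) * (2 * δ * P / X + 1) =
        2 * l * δ * P ^ 2 / (g * X) + (l * P / g + 2 * δ * P / X + 1) := by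
      have : (g : ℝ) ≠ 0 := by linarith
      have : X ≠ 0 := by linarith
      field_simp
      ring
    rw [this]
    have a1 : l * P / g ≤ l * P := div_le_self (by positivity) hgr
    have a2 : 2 * δ * P / X ≤ 2 * δ * P := div_le_self (by positivity) hX'
    linarith
  calc (l * P / g + 1) * ((4 * (g * X) * δ + 1) * (2 * δ * P / X + 1)) =
      (4 * (g * X) * δ + 1) * ((l * P / g + 1) * (2 * δ * P / X + 1)) := by ring
    _ ≤ (4 * (g * X) * δ + 1) * (2 * l * δ * P ^ 2 / (g * X) + (l * P + 2 * δ * P + 1)) :=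
        mul_le_mul_of_nonneg_left e1 hpos1
    _ = _ := by
        have : (g : ℝ) ≠ 0 := by linarith
        have : X ≠ 0 := by linarith
        field_simp
        ring

/-- the bound for one value of `x` -/
noncomputable def FB (P δ l : ℝ) (R : ℝ) : ℝ :=
  (2 * R + 1) * (8 * l * δ ^ 2 * P ^ 2) + 6 * l * δ * P ^ 2 +
    (2 * R + 1) * ((4 * R * δ + 1) * (l * P + 2 * δ * P + 1))

lemma card_half (V : Finset (ℤ × ℤ × ℤ)) (P δ l α β : ℝ) (hP : 0 ≤ P) (hδ : 0 ≤ δ) (hl : 0 ≤ l)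
    (R : ℕ)
    (h1 : ∀ v ∈ V, 1 ≤ v.1 ∧ (v.1 : ℝ) ≤ P ∧ |(v.2.1 : ℝ) - α * v.1| ≤ δ * v.1 ∧
      |(v.2.2 : ℝ) - β * v.1| ≤ δ * v.1)
    (h2 : ∀ v ∈ V, ∃ x y : ℤ, IsMin v x y ∧ x ≠ 0 ∧ |y| ≤ |x| ∧ |x| ≤ R)
    (h3 : ∀ v ∈ V, ∀ v' ∈ V, ∀ x y, IsMin v x y → IsMin v' x y → (v.1 : ℝ) - v'.1 ≤ l * P) :
    (V.card : ℝ) ≤ (2 * R + 1) * FB P δ l R := by
  classical
  set U : ℤ → ℤ → Finset (ℤ × ℤ × ℤ) := fun x y => V.filter (fun v => IsMin v x y ∧ x ≠ 0) with hU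
  have hsub : V ⊆ (Finset.Icc (-(R : ℤ)) R).biUnion
      (fun x => (Finset.Icc (-|x|) |x|).biUnion (fun y => U x y)) := by
    intro v hv
    obtain ⟨x, y, hm, hx, hyx, hR⟩ := h2 v hv
    rw [Finset.mem_biUnion]
    refine ⟨x, ?_, ?_⟩
    · rw [Finset.mem_Icc]; exact abs_le.1 hR
    · rw [Finset.mem_biUnion]
      refine ⟨y, ?_, ?_⟩
      · rw [Finset.mem_Icc]; exact abs_le.1 hyx
      · rw [hU]; simp only [Finset.mem_filter]; exact ⟨hv, hm, hx⟩
  have hF0 : 0 ≤ FB P δ l R := by unfold FB; positivity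
  have hinner : ∀ x ∈ Finset.Icc (-(R : ℤ)) R,
      (((Finset.Icc (-|x|) |x|).biUnion (fun y => U x y)).card : ℝ) ≤ FB P δ l R := by
    intro x hxR
    rw [Finset.mem_Icc] at hxR
    by_cases hx : x = 0
    · have : ((Finset.Icc (-|x|) |x|).biUnion (fun y => U x y)) = ∅ := by
        apply Finset.eq_empty_of_forall_notMem
        intro v hv
        rw [Finset.mem_biUnion] at hv
        obtain ⟨y, _, hv⟩ := hv
        exact (Finset.mem_filter.1 hv).2.2 hx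
      rw [this]
      simpa using hF0
    · have hXR : |(x : ℝ)| ≤ R := by
        have : |x| ≤ R := abs_le.2 hxR
        exact_mod_cast this
      have hX1 : (1 : ℝ) ≤ |(x : ℝ)| := by
        have := abs_pos.2 hx
        have h' : (1 : ℤ) ≤ |x| := by omega
        exact_mod_cast h'
      have hcard : (((Finset.Icc (-|x|) |x|).biUnion (fun y => U x y)).card : ℝ) ≤
          ∑ y ∈ Finset.Icc (-|x|) |x|, ((U x y).card : ℝ) := by
        exact_mod_cast Finset.card_biUnion_le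
      refine hcard.trans ?_
      have hb : ∀ y ∈ Finset.Icc (-|x|) |x|, ((U x y).card : ℝ) ≤
          8 * l * δ ^ 2 * P ^ 2 + 2 * l * δ * P ^ 2 / |(x : ℝ)| +
      (4 * |(x : ℝ)| * δ + 1) * (l * P + 2 * δ * P + 1) := by
        intro y hy
        rw [Finset.mem_Icc] at hy
        apply card_xy (U x y) P δ l α β hP hδ hl x y hx (abs_le.2 hy)
        · intro v hv
          exact h1 v (Finset.mem_filter.1 hv).1
        · intro v hv
          exact (Finset.mem_filter.1 hv).2.1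
        · intro v hv v' hv'
          exact h3 v (Finset.mem_filter.1 hv).1 v' (Finset.mem_filter.1 hv').1 x y
            (Finset.mem_filter.1 hv).2.1 (Finset.mem_filter.1 hv').2.1
      refine (Finset.sum_le_sum hb).trans ?_
      rw [Finset.sum_const, nsmul_eq_mul]
      have hcI : ((Finset.Icc (-|x|) |x|).card : ℝ) = 2 * |(x : ℝ)| + 1 := by
        rw [Int.card_Icc]
        have h5 : (((|x| + 1 - -|x|).toNat : ℤ) : ℝ) = ((|x| + 1 - -|x| : ℤ) : ℝ) := by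
          rw [Int.toNat_of_nonneg (by have := abs_nonneg x; omega)]
        rw [show (((|x| + 1 - -|x|).toNat : ℕ) : ℝ) = (((|x| + 1 - -|x|).toNat : ℤ) : ℝ) by
          push_cast; rfl, h5]
        push_cast
        ring
      rw [hcI]
      set X := |(x : ℝ)|
      unfold FB
      have a1 : (2 * X + 1) * (8 * l * δ ^ 2 * P ^ 2) ≤ (2 * (R : ℝ) + 1) * (8 * l * δ ^ 2 * P ^ 2) := by
        gcongr
      have a2 : (2 * X + 1) * (2 * l * δ * P ^ 2 / X) ≤ 6 * l * δ * P ^ 2 := by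
        rw [← mul_div_assoc, div_le_iff₀ (by linarith)]
        have : 0 ≤ 2 * l * δ * P ^ 2 := by positivity
        nlinarith
      have a3 : (2 * X + 1) * ((4 * X * δ + 1) * (l * P + 2 * δ * P + 1)) ≤
          (2 * (R : ℝ) + 1) * ((4 * R * δ + 1) * (l * P + 2 * δ * P + 1)) := by
        gcongr
      calc (2 * X + 1) * (8 * l * δ ^ 2 * P ^ 2 + 2 * l * δ * P ^ 2 / X +
            (4 * X * δ + 1) * (l * P + 2 * δ * P + 1)) =
          (2 * X + 1) * (8 * l * δ ^ 2 * P ^ 2) + (2 * X + 1) * (2 * l * δ * P ^ 2 / X) +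
            (2 * X + 1) * ((4 * X * δ + 1) * (l * P + 2 * δ * P + 1)) := by ring
        _ ≤ _ := by linarith
  have h5 : (V.card : ℝ) ≤ ∑ x ∈ Finset.Icc (-(R : ℤ)) R,
      (((Finset.Icc (-|x|) |x|).biUnion (fun y => U x y)).card : ℝ) := by
    exact_mod_cast (Finset.card_le_card hsub).trans Finset.card_biUnion_le
  refine h5.trans ((Finset.sum_le_sum hinner).trans ?_)
  rw [Finset.sum_const, nsmul_eq_mul]
  have hcI : ((Finset.Icc (-(R : ℤ)) R).card : ℝ) = 2 * (R : ℝ) + 1 := by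
    rw [Int.card_Icc]
    have : ((R : ℤ) + 1 - -(R : ℤ)).toNat = 2 * R + 1 := by omega
    rw [this]; push_cast; ring
  rw [hcI]

lemma isMin_swap {N a b x y : ℤ} (h : IsMin (N, a, b) x y) : IsMin (N, b, a) y x := by
  obtain ⟨h1, ⟨n, hn⟩, h3⟩ := h
  refine ⟨h1.symm, ⟨n, hn.symm⟩, ?_⟩
  rintro x' y' h1' ⟨n', hn'⟩
  have := h3 y' x' h1'.symm ⟨n', hn'.symm⟩
  linarith

lemma card_good (V : Finset (ℤ × ℤ × ℤ)) (P δ l α β : ℝ) (hP : 0 ≤ P) (hδ : 0 ≤ δ) (hl : 0 ≤ l)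
    (R : ℕ)
    (h1 : ∀ v ∈ V, 1 ≤ v.1 ∧ (v.1 : ℝ) ≤ P ∧ |(v.2.1 : ℝ) - α * v.1| ≤ δ * v.1 ∧
      |(v.2.2 : ℝ) - β * v.1| ≤ δ * v.1)
    (h2 : ∀ v ∈ V, ∃ x y : ℤ, IsMin v x y ∧ |x| ≤ R ∧ |y| ≤ R)
    (h3 : ∀ v ∈ V, ∀ v' ∈ V, ∀ x y, IsMin v x y → IsMin v' x y → (v.1 : ℝ) - v'.1 ≤ l * P) :
    (V.card : ℝ) ≤ 2 * ((2 * R + 1) * FB P δ l R) := by
  classical
  set V1 := V.filter (fun v => ∃ x y : ℤ, IsMin v x y ∧ x ≠ 0 ∧ |y| ≤ |x| ∧ |x| ≤ R) with hV1
  set V2 := V.filter (fun v => ∃ x y : ℤ, IsMin v x y ∧ y ≠ 0 ∧ |x| ≤ |y| ∧ |y| ≤ R) with hV2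
  have hsub : V ⊆ V1 ∪ V2 := by
    intro v hv
    obtain ⟨x, y, hm, hx, hy⟩ := h2 v hv
    rw [Finset.mem_union, hV1, hV2, Finset.mem_filter, Finset.mem_filter]
    rcases le_total |y| |x| with h | h
    · left
      refine ⟨hv, x, y, hm, ?_, h, hx⟩
      rintro rfl
      have : y = 0 := by simpa using h
      rcases hm.1 with h' | h'
      · exact h' rfl
      · exact h' this
    · right
      refine ⟨hv, x, y, hm, ?_, h, hy⟩
      rintro rfl
      have : x = 0 := by simpa using h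
      rcases hm.1 with h' | h'
      · exact h' this
      · exact h' rfl
  have c1 : (V1.card : ℝ) ≤ (2 * R + 1) * FB P δ l R := by
    apply card_half V1 P δ l α β hP hδ hl R
    · intro v hv; exact h1 v (Finset.mem_filter.1 hv).1
    · intro v hv; exact (Finset.mem_filter.1 hv).2
    · intro v hv v' hv'; exact h3 v (Finset.mem_filter.1 hv).1 v' (Finset.mem_filter.1 hv').1
  have c2 : (V2.card : ℝ) ≤ (2 * R + 1) * FB P δ l R := by
    set sw : ℤ × ℤ × ℤ → ℤ × ℤ × ℤ := fun v => (v.1, v.2.2, v.2.1) with hsw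
    have hinj : Function.Injective sw := by
      intro v v' h
      simp only [hsw, Prod.mk.injEq] at h
      exact Prod.ext h.1 (Prod.ext h.2.2 h.2.1)
    rw [← Finset.card_image_of_injective V2 hinj]
    apply card_half (V2.image sw) P δ l β α hP hδ hl R
    · intro v hv
      rw [Finset.mem_image] at hv
      obtain ⟨v, hv, rfl⟩ := hv
      have := h1 v (Finset.mem_filter.1 hv).1
      exact ⟨this.1, this.2.1, this.2.2.2, this.2.2.1⟩
    · intro v hv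
      rw [Finset.mem_image] at hv
      obtain ⟨v, hv, rfl⟩ := hv
      obtain ⟨x, y, hm, a, b, c⟩ := (Finset.mem_filter.1 hv).2
      exact ⟨y, x, isMin_swap hm, a, b, c⟩
    · intro v hv v' hv' x y hm hm'
      rw [Finset.mem_image] at hv hv'
      obtain ⟨v, hv, rfl⟩ := hv
      obtain ⟨v', hv', rfl⟩ := hv'
      exact h3 v (Finset.mem_filter.1 hv).1 v' (Finset.mem_filter.1 hv').1 y x
        (isMin_swap hm) (isMin_swap hm')
  have h5 : (V.card : ℝ) ≤ V1.card + V2.card := by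
    exact_mod_cast (Finset.card_le_card hsub).trans (Finset.card_union_le _ _)
  linarith

end Pool.Agent.H58.JP
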