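import Pool.Agent.H58.JP6
import Pool.Agent.H58.JP8

open MeasureTheory Set Filter Topology

namespace Pool.Agent.H58.JP

lemma IsMin.lam_sq {v : ℤ × ℤ × ℤ} {x y : ℤ} (h : IsMin v x y) :
    lam v.1 v.2.1 v.2.2 ^ 2 = (x : ℝ) ^ 2 + (y : ℝ) ^ 2 := by
  have hl : lam v.1 v.2.1 v.2.2 = Real.sqrt ((x : ℝ) ^ 2 + (y : ℝ) ^ 2) := by
    unfold lam
    apply IsLeast.csInf_eq
    refine ⟨⟨x, y, h.1, h.2.1, rfl⟩, ?_⟩
    rintro t ⟨x', y', h1', h2', rfl⟩
    apply Real.sqrt_le_sqrt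
    exact_mod_cast h.2.2 x' y' h1' h2'
  rw [hl, Real.sq_sqrt (by positivity)]

/-! ### Sets hit by words -/

/-- points having a word with vector in `V` and small first coordinate of the iterate -/
def HitSet (V : Finset (ℤ × ℤ × ℤ)) (t : ℤ × ℤ × ℤ → ℝ) : Set (ℝ × ℝ) :=
  {z | Adm z ∧ ∃ n, vec (word n z) ∈ V ∧ (T^[n] z).1 ≤ t (vec (word n z))}

lemma volume_hitSet (V : Finset (ℤ × ℤ × ℤ)) (t : ℤ × ℤ × ℤ → ℝ) (ht : ∀ v ∈ V, 0 ≤ t v)
    (hV : ∀ v ∈ V, 1 ≤ v.1) :
    volume (HitSet V t) ≤ ENNReal.ofReal (∑ v ∈ V, 64 * (t v / (v.1 : ℝ) ^ 3)) := by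
  classical
  have hsub : HitSet V t ⊆ ⋃ v ∈ V, ⋃ w ∈ (fiber_finite v).toFinset,
      {z : ℝ × ℝ | Adm z ∧ word w.length z = w ∧ (T^[w.length] z).1 ≤ t v} := by
    rintro z ⟨hz, n, hn, ht⟩
    simp only [Set.mem_iUnion]
    refine ⟨vec (word n z), hn, word n z, ?_, hz, ?_, ?_⟩
    · rw [Set.Finite.mem_toFinset]
      exact ⟨word_valid n z hz, rfl⟩
    · rw [word_length]
    · rw [word_length]; exact ht
  refine (measure_mono hsub).trans ?_
  refine (measure_biUnion_finset_le _ _).trans ?_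
  rw [ENNReal.ofReal_sum_of_nonneg]
  swap
  · intro v hv
    have := ht v hv
    have : (1 : ℝ) ≤ v.1 := by exact_mod_cast hV v hv
    positivity
  apply Finset.sum_le_sum
  intro v hv
  have ht0 := ht v hv
  have hv1 : (1 : ℝ) ≤ v.1 := by exact_mod_cast hV v hv
  refine (measure_biUnion_finset_le _ _).trans ?_
  calc ∑ w ∈ (fiber_finite v).toFinset,
        volume {z : ℝ × ℝ | Adm z ∧ word w.length z = w ∧ (T^[w.length] z).1 ≤ t v} ≤
      ∑ w ∈ (fiber_finite v).toFinset, ENNReal.ofReal (t v / (v.1 : ℝ) ^ 3) := by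
        apply Finset.sum_le_sum
        intro w hw
        rw [Set.Finite.mem_toFinset] at hw
        have := volume_cyl w hw.1 (t v)
        rw [hw.2, ← ENNReal.ofReal_mul (by positivity)] at this
        refine this.trans (le_of_eq ?_)
        congr 1
        field_simp
    _ = ((fiber_finite v).toFinset.card : ENNReal) * ENNReal.ofReal (t v / (v.1 : ℝ) ^ 3) := by
        rw [Finset.sum_const, nsmul_eq_mul]
    _ ≤ 64 * ENNReal.ofReal (t v / (v.1 : ℝ) ^ 3) := by
        gcongr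
        exact_mod_cast fiber_card v
    _ = ENNReal.ofReal (64 * (t v / (v.1 : ℝ) ^ 3)) := by
        rw [ENNReal.ofReal_mul (by norm_num)]
        norm_num

/-! ### The start -/

lemma measurable_T : Measurable T := by
  unfold T
  exact (measurable_snd.div measurable_fst).fract.prodMk
    ((measurable_const.div measurable_fst).fract)

lemma measurable_dA : Measurable dA := by
  unfold dA
  exact Int.measurable_floor.comp (measurable_snd.div measurable_fst)

lemma measurable_dB : Measurable dB := by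
  unfold dB
  exact Int.measurable_floor.comp (measurable_const.div measurable_fst)

lemma measurable_jpRec (c0 c1 c2 : ℤ) : ∀ n : ℕ, Measurable (fun z => jpRec z c0 c1 c2 n) := by
  intro n
  induction n using Nat.strong_induction_on with
  | _ n ih =>
    rcases n with _ | _ | _ | n
    · simp only [jpRec]; exact measurable_const
    · simp only [jpRec]; exact measurable_const
    · simp only [jpRec]; exact measurable_const
    · simp only [rec_succ]
      have i0 := ih n (by omega)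
      have i1 := ih (n + 1) (by omega)
      have i2 := ih (n + 2) (by omega)
      have m1 := measurable_dB.comp (measurable_T.iterate n)
      have m2 := measurable_dA.comp (measurable_T.iterate n)
      exact ((m1.mul i2).add (m2.mul i1)).add i0

lemma tendsto_start (n1 : ℕ) :
    Tendsto (fun Q : ℕ => volume {z : ℝ × ℝ | z ∈ Ioo (0 : ℝ) 1 ×ˢ Ioo (0 : ℝ) 1 ∧
      ((Q ^ 2 : ℕ) : ℤ) ≤ convQ z n1}) atTop (𝓝 0) := by
  have hmeas : ∀ Q : ℕ, MeasurableSet {z : ℝ × ℝ | z ∈ Ioo (0 : ℝ) 1 ×ˢ Ioo (0 : ℝ) 1 ∧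
      ((Q ^ 2 : ℕ) : ℤ) ≤ convQ z n1} := by
    intro Q
    apply MeasurableSet.inter (measurableSet_Ioo.prod measurableSet_Ioo)
    have : Measurable (fun z => convQ z n1) := measurable_jpRec 0 0 1 (n1 + 2)
    exact this (measurableSet_Ici (a := ((Q ^ 2 : ℕ) : ℤ)))
  have hanti : Antitone (fun Q : ℕ => {z : ℝ × ℝ | z ∈ Ioo (0 : ℝ) 1 ×ˢ Ioo (0 : ℝ) 1 ∧
      ((Q ^ 2 : ℕ) : ℤ) ≤ convQ z n1}) := by
    intro Q Q' hQ z hz
    refine ⟨hz.1, le_trans ?_ hz.2⟩
    exact_mod_cast Nat.pow_le_pow_left hQ 2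
  have h := tendsto_measure_iInter_atTop (μ := (volume : Measure (ℝ × ℝ)))
    (fun Q => (hmeas Q).nullMeasurableSet) hanti ⟨0, by
      refine ne_of_lt (lt_of_le_of_lt (measure_mono (show _ ⊆ Ioo (0 : ℝ) 1 ×ˢ Ioo (0 : ℝ) 1 from
        fun z hz => hz.1)) ?_)
      rw [Measure.volume_eq_prod, Measure.prod_prod, Real.volume_Ioo]
      simp⟩
  have he : (⋂ Q : ℕ, {z : ℝ × ℝ | z ∈ Ioo (0 : ℝ) 1 ×ˢ Ioo (0 : ℝ) 1 ∧
      ((Q ^ 2 : ℕ) : ℤ) ≤ convQ z n1}) = ∅ := by
    apply Set.eq_empty_of_forall_notMem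
    intro z hz
    rw [Set.mem_iInter] at hz
    have := (hz (convQ z n1).toNat.succ).2
    have h2 : (((convQ z n1).toNat.succ ^ 2 : ℕ) : ℤ) ≥ ((convQ z n1).toNat.succ : ℕ) := by
      exact_mod_cast Nat.le_self_pow (by norm_num) _
    have h3 := Int.self_le_toNat (convQ z n1)
    push_cast at h2 this
    linarith
  rw [he, measure_empty] at h
  exact h

end Pool.Agent.H58.JP
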