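import Mathlib

/-!
# The two-dimensional Jacobi-Perron algorithm and shortest vectors of modular lattices
-/

namespace Pool.Agent.H58.JP

/-- The Jacobi-Perron map `(α, β) ↦ (β/α - ⌊β/α⌋, 1/α - ⌊1/α⌋)`. -/
noncomputable def T (z : ℝ × ℝ) : ℝ × ℝ := (Int.fract (z.2 / z.1), Int.fract (1 / z.1))

/-- The digit `⌊β/α⌋`. -/
noncomputable def dA (z : ℝ × ℝ) : ℤ := ⌊z.2 / z.1⌋

/-- The digit `⌊1/α⌋`. -/
noncomputable def dB (z : ℝ × ℝ) : ℤ := ⌊1 / z.1⌋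

/-- The linear recursion `c (n+3) = b c (n+2) + a c (n+1) + c n` of the Jacobi-Perron algorithm,
where `a`, `b` are the digits of `T^n z`, with initial values `c0, c1, c2`. -/
noncomputable def jpRec (z : ℝ × ℝ) (c0 c1 c2 : ℤ) : ℕ → ℤ
  | 0 => c0
  | 1 => c1
  | 2 => c2
  | n + 3 => dB (T^[n] z) * jpRec z c0 c1 c2 (n + 2) + dA (T^[n] z) * jpRec z c0 c1 c2 (n + 1) +
      jpRec z c0 c1 c2 n

/-- The denominator `q_i` of the `i`-th Jacobi-Perron convergent `(p_i/q_i, r_i/q_i)` of `z`. -/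
noncomputable def convQ (z : ℝ × ℝ) (i : ℕ) : ℤ := jpRec z 0 0 1 (i + 2)

/-- The first numerator `p_i`. -/
noncomputable def convP (z : ℝ × ℝ) (i : ℕ) : ℤ := jpRec z 1 0 0 (i + 2)

/-- The second numerator `r_i`. -/
noncomputable def convR (z : ℝ × ℝ) (i : ℕ) : ℤ := jpRec z 0 1 0 (i + 2)

/-- The lattice generated by `(a, b)`, `(N, 0)`, `(0, N)`. -/
def InLattice (N a b x y : ℤ) : Prop := ∃ n : ℤ, N ∣ x - n * a ∧ N ∣ y - n * b

/-- The Euclidean length of a shortest nonzero vector of the lattice generated by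
`(a, b)`, `(N, 0)`, `(0, N)`. -/
noncomputable def lam (N a b : ℤ) : ℝ :=
  sInf {t : ℝ | ∃ x y : ℤ, (x ≠ 0 ∨ y ≠ 0) ∧ InLattice N a b x y ∧
    t = Real.sqrt ((x : ℝ) ^ 2 + (y : ℝ) ^ 2)}

/-- `f(N, a, b) = λ / √N`. -/
noncomputable def f (N a b : ℤ) : ℝ := lam N a b / Real.sqrt N

/-- The sequence `s_i(α, β) = f(q_i, p_i, r_i)`. -/
noncomputable def s (z : ℝ × ℝ) (i : ℕ) : ℝ := f (convQ z i) (convP z i) (convR z i)

/-- `(α, β) ∈ (0,1)²` with `1, α, β` linearly independent over `ℚ` (in particular both are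
irrational). -/
def Admissible (z : ℝ × ℝ) : Prop :=
  0 < z.1 ∧ z.1 < 1 ∧ 0 < z.2 ∧ z.2 < 1 ∧
    LinearIndependent ℚ (![1, z.1, z.2] : Fin 3 → ℝ)

end Pool.Agent.H58.JP
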