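import Pool.Agent.H58.MobDefs

set_option linter.unusedSectionVars false

namespace Pool.Agent.H58.Mob

open SimpleGraph

variable {V : Type*} [DecidableEq V] {G : SimpleGraph V}

/-! ### General position of small sets -/

lemma isGenPos_of_card_le_two {S : Finset V} (h : S.card ≤ 2) : IsGenPos G S := by
  intro x y p _
  exact (Finset.card_filter_le _ _).trans h

/-- Distances along a shortest walk. -/
lemma dist_getVert {x y : V} (p : G.Walk x y) (hp : p.length = G.dist x y) {i j : ℕ}
    (hij : i ≤ j) (hj : j ≤ p.length) : G.dist (p.getVert i) (p.getVert j) = j - i := by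
  have h1 : G.dist (p.getVert i) (p.getVert j) ≤ j - i := by
    have hh : (p.take j).getVert i = p.getVert i := by
      rw [Walk.take_getVert]; simp [hij]
    rw [← hh]
    refine (SimpleGraph.dist_le ((p.take j).drop i)).trans ?_
    rw [Walk.drop_length, Walk.take_length]
    simp [hj]
  have r1 : G.Reachable x (p.getVert i) := ⟨p.take i⟩
  have r2 : G.Reachable (p.getVert i) (p.getVert j) := r1.symm.trans ⟨p.take j⟩
  have h2 : G.dist x (p.getVert i) ≤ i := by
    refine (SimpleGraph.dist_le (p.take i)).trans ?_
    rw [Walk.take_length]; simp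
  have h3 : G.dist (p.getVert j) y ≤ p.length - j := by
    refine (SimpleGraph.dist_le (p.drop j)).trans ?_
    rw [Walk.drop_length]
  have h4 : G.dist x y ≤ G.dist x (p.getVert i) + G.dist (p.getVert i) y :=
    r1.dist_triangle_left _
  have h5 : G.dist (p.getVert i) y ≤ G.dist (p.getVert i) (p.getVert j) + G.dist (p.getVert j) y :=
    r2.dist_triangle_left _
  omega

lemma isGenPos_triple {x y z : V}
    (h1 : G.dist x y + G.dist y z ≠ G.dist x z) (h2 : G.dist x y + G.dist x z ≠ G.dist y z)
    (h3 : G.dist x z + G.dist y z ≠ G.dist x y) : IsGenPos G {x, y, z} := by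
  intro s t p hp
  by_contra hcon
  push Not at hcon
  have hle : ({x, y, z} : Finset V).card ≤ 3 := Finset.card_le_three
  have hsub := Finset.filter_subset (· ∈ p.support) ({x, y, z} : Finset V)
  have heq : ({x, y, z} : Finset V).filter (· ∈ p.support) = {x, y, z} :=
    Finset.eq_of_subset_of_card_le hsub (by omega)
  rw [Finset.filter_eq_self] at heq
  obtain ⟨i, hi, hi'⟩ := Walk.mem_support_iff_exists_getVert.1 (heq x (by simp))
  obtain ⟨j, hj, hj'⟩ := Walk.mem_support_iff_exists_getVert.1 (heq y (by simp))
  obtain ⟨k, hk, hk'⟩ := Walk.mem_support_iff_exists_getVert.1 (heq z (by simp))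
  have key : ∀ {a b : ℕ}, a ≤ p.length → b ≤ p.length →
      G.dist (p.getVert a) (p.getVert b) = (b - a) + (a - b) := by
    intro a b ha hb
    rcases le_total a b with h | h
    · rw [dist_getVert p hp h hb]; omega
    · rw [SimpleGraph.dist_comm, dist_getVert p hp h ha]; omega
  have e1 : G.dist x y = (j - i) + (i - j) := by rw [← hi, ← hj]; exact key hi' hj'
  have e2 : G.dist x z = (k - i) + (i - k) := by rw [← hi, ← hk]; exact key hi' hk'
  have e3 : G.dist y z = (k - j) + (j - k) := by rw [← hj, ← hk]; exact key hj' hk'
  omega

/-! ### Moves -/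

lemma LegalMove.genPos {S T : Finset V} (h : LegalMove G S T) : IsGenPos G T := by
  obtain ⟨u, _, u', _, _, _, h⟩ := h; exact h

lemma LegalMove.symm {S T : Finset V} (hS : IsGenPos G S) (h : LegalMove G S T) :
    LegalMove G T S := by
  obtain ⟨u, hu, u', hu', hadj, rfl, _⟩ := h
  have hne : u ≠ u' := hadj.ne
  refine ⟨u', by simp, u, ?_, hadj.symm, ?_, hS⟩
  · simp [hne]
  · rw [Finset.erase_insert (by simp [hu']), Finset.insert_erase hu]

/-- `T` can be reached from `S`. -/
def Reach (G : SimpleGraph V) (S T : Finset V) : Prop := Relation.ReflTransGen (LegalMove G) S T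

lemma Reach.genPos {S T : Finset V} (hS : IsGenPos G S) (h : Reach G S T) : IsGenPos G T := by
  rcases Relation.ReflTransGen.cases_tail h with h | ⟨U, _, h⟩
  · rw [h]; exact hS
  · exact h.genPos

lemma Reach.symm {S T : Finset V} (hS : IsGenPos G S) (h : Reach G S T) : Reach G T S := by
  induction h with
  | refl => exact Relation.ReflTransGen.refl
  | tail hab hbc ih =>
    exact Relation.ReflTransGen.head (hbc.symm (Reach.genPos hS hab)) ih

lemma Reach.trans {S T U : Finset V} (h : Reach G S T) (h' : Reach G T U) : Reach G S U :=
  Relation.ReflTransGen.trans h h'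

lemma exists_chain {S T : Finset V} (h : Reach G S T) :
    ∃ L : List (Finset V), List.IsChain (LegalMove G) (S :: L) ∧
      (S :: L).getLast (by simp) = T :=
  List.exists_isChain_cons_of_relationReflTransGen h

/-- If every vertex can be visited from `S`, then `S` is mobile. -/
lemma isMobile_of_visits [Fintype V] {S : Finset V} (hS : IsGenPos G S)
    (h : ∀ v, ∃ T, Reach G S T ∧ v ∈ T) : IsMobile G S := by
  refine ⟨hS, ?_⟩
  have key : ∀ l : List V, ∃ L : List (Finset V), List.IsChain (LegalMove G) (S :: L) ∧
      (S :: L).getLast (by simp) = S ∧ ∀ v ∈ l, ∃ T ∈ S :: L, v ∈ T := by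
    intro l
    induction l with
    | nil => exact ⟨[], by simp, by simp, by simp⟩
    | cons v l ih =>
      obtain ⟨L, hL1, hL2, hL3⟩ := ih
      obtain ⟨T, hT, hv⟩ := h v
      obtain ⟨A, hA1, hA2⟩ := exists_chain hT
      obtain ⟨B, hB1, hB2⟩ := exists_chain (Reach.symm hS hT)
      -- the closed chain S A .. T B .. S L
      have hc1 : List.IsChain (LegalMove G) ((S :: A) ++ B) := by
        rw [List.isChain_append]
        refine ⟨hA1, hB1.tail, ?_⟩
        intro x hx y hy
        have hx' : x = T := by
          rw [List.getLast?_eq_some_getLast (by simp), hA2] at hx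
          simpa using hx.symm
        subst hx'
        cases B with
        | nil => simp at hy
        | cons b B =>
          simp only [List.head?_cons, Option.mem_def, Option.some.injEq] at hy
          subst hy
          exact (List.isChain_cons_cons.1 hB1).1
      have hlast1 : ((S :: A) ++ B).getLast (by simp) = S := by
        cases B with
        | nil =>
          simp only [List.append_nil]
          simp only [List.getLast_singleton] at hB2
          rw [hA2, hB2]
        | cons b B =>
          rw [List.getLast_append_of_ne_nil (by simp) (by simp)]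
          rw [List.getLast_cons (by simp)] at hB2
          exact hB2
      refine ⟨A ++ B ++ L, ?_, ?_, ?_⟩
      · have : (S :: (A ++ B ++ L)) = ((S :: A) ++ B) ++ L := by simp
        rw [this, List.isChain_append]
        refine ⟨hc1, hL1.tail, ?_⟩
        intro x hx y hy
        have hx' : x = S := by
          rw [List.getLast?_eq_some_getLast (by simp), hlast1] at hx
          simpa using hx.symm
        subst hx'
        cases L with
        | nil => simp at hy
        | cons b L =>
          simp only [List.head?_cons, Option.mem_def, Option.some.injEq] at hy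
          subst hy
          exact (List.isChain_cons_cons.1 hL1).1
      · have : (S :: (A ++ B ++ L)) = ((S :: A) ++ B) ++ L := by simp
        simp only [this]
        cases L with
        | nil => simpa using hlast1
        | cons b L =>
          rw [List.getLast_append_of_ne_nil (by simp) (by simp)]
          rw [List.getLast_cons (by simp)] at hL2
          exact hL2
      · intro w hw
        rcases List.mem_cons.1 hw with rfl | hw
        · refine ⟨T, ?_, hv⟩
          have hTm : T ∈ S :: A := by rw [← hA2]; exact List.getLast_mem _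
          rcases List.mem_cons.1 hTm with h | h
          · rw [h]; simp
          · simp [h]
        · obtain ⟨U, hU, hwU⟩ := hL3 w hw
          refine ⟨U, ?_, hwU⟩
          rcases List.mem_cons.1 hU with h | h
          · rw [h]; simp
          · simp [h]
  obtain ⟨L, h1, _, h3⟩ := key Finset.univ.toList
  exact ⟨L, h1, fun v => h3 v (by simp)⟩

lemma reach_of_chain : ∀ (L : List (Finset V)) (S : Finset V),
    List.IsChain (LegalMove G) (S :: L) → ∀ T ∈ S :: L, Reach G S T := by
  intro L
  induction L with
  | nil =>
    intro S _ T hT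
    simp only [List.mem_singleton] at hT
    rw [hT]; exact Relation.ReflTransGen.refl
  | cons A L ih =>
    intro S h T hT
    rw [List.isChain_cons_cons] at h
    rcases List.mem_cons.1 hT with rfl | hT
    · exact Relation.ReflTransGen.refl
    · exact Relation.ReflTransGen.head h.1 (ih A h.2 T hT)

/-- Conversely, a mobile set visits every vertex. -/
lemma IsMobile.visits {S : Finset V} (h : IsMobile G S) (v : V) : ∃ T, Reach G S T ∧ v ∈ T := by
  obtain ⟨_, L, hL, hv⟩ := h
  obtain ⟨T, hT, hvT⟩ := hv v
  exact ⟨T, reach_of_chain L S hL T hT, hvT⟩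

lemma bddAbove_mob [Fintype V] (G : SimpleGraph V) :
    BddAbove {k : ℕ | ∃ S : Finset V, IsMobile G S ∧ S.card = k} :=
  ⟨Fintype.card V, by rintro k ⟨S, _, rfl⟩; exact Finset.card_le_univ S⟩

lemma card_le_mob [Fintype V] {S : Finset V} (h : IsMobile G S) : S.card ≤ mob G :=
  le_csSup (bddAbove_mob G) ⟨S, h, rfl⟩

/-! ### Sets meeting every connected component in one or two vertices -/

lemma isMobile_of_components [Fintype V] {S : Finset V}
    (h1 : ∀ v, ∃ x ∈ S, G.Reachable x v)
    (h2 : ∀ x ∈ S, ∀ y ∈ S, ∀ z ∈ S, G.Reachable x y → G.Reachable x z →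
      x = y ∨ x = z ∨ y = z) : IsMobile G S := by
  -- such a set is in general position
  have gp : ∀ S : Finset V, (∀ x ∈ S, ∀ y ∈ S, ∀ z ∈ S, G.Reachable x y → G.Reachable x z →
      x = y ∨ x = z ∨ y = z) → IsGenPos G S := by
    intro S hS s t p _
    by_contra hcon
    push Not at hcon
    obtain ⟨a, ha, b, hb, c, hc, hab, hac, hbc⟩ := Finset.two_lt_card.1 hcon
    simp only [Finset.mem_filter] at ha hb hc
    have ra : G.Reachable s a := ⟨p.takeUntil a ha.2⟩
    have rb : G.Reachable s b := ⟨p.takeUntil b hb.2⟩
    have rc : G.Reachable s c := ⟨p.takeUntil c hc.2⟩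
    rcases hS a ha.1 b hb.1 c hc.1 (ra.symm.trans rb) (ra.symm.trans rc) with h | h | h
    · exact hab h
    · exact hac h
    · exact hbc h
  -- induction on the distance to the nearest robot
  have main : ∀ (k : ℕ) (v : V) (S : Finset V), (∃ x ∈ S, G.Reachable x v ∧ G.dist x v = k) →
      (∀ x ∈ S, ∀ y ∈ S, ∀ z ∈ S, G.Reachable x y → G.Reachable x z →
      x = y ∨ x = z ∨ y = z) → ∃ T, Reach G S T ∧ v ∈ T := by
    intro k
    induction k using Nat.strong_induction_on with
    | _ k ih =>
      intro v S hx hS
      by_cases hmin : ∃ y ∈ S, G.Reachable y v ∧ G.dist y v < k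
      · obtain ⟨y, hy, hyr, hyk⟩ := hmin
        exact ih _ hyk v S ⟨y, hy, hyr, rfl⟩ hS
      push Not at hmin
      obtain ⟨x, hx, hr, hk⟩ := hx
      rcases Nat.eq_zero_or_pos k with rfl | hkpos
      · have : x = v := by
          rcases SimpleGraph.dist_eq_zero_iff_eq_or_not_reachable.1 hk with h | h
          · exact h
          · exact absurd hr h
        exact ⟨S, Relation.ReflTransGen.refl, this ▸ hx⟩
      obtain ⟨p, hp⟩ := hr.exists_walk_length_eq_dist
      have hlen : p.length = k := hp.trans hk
      set x' := p.getVert 1 with hx'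
      have hadj : G.Adj x x' := by
        have := p.adj_getVert_succ (i := 0) (by omega)
        simpa using this
      have hd' : G.dist x' v = k - 1 := by
        have := dist_getVert p hp (i := 1) (j := k) (by omega) (by omega)
        rwa [← hlen, Walk.getVert_length, hlen] at this
      have hr' : G.Reachable x' v := hadj.symm.reachable.trans hr
      have hx'S : x' ∉ S := by
        intro hmem
        have := hmin x' hmem hr'
        omega
      have hS' : ∀ a ∈ insert x' (S.erase x), ∀ b ∈ insert x' (S.erase x),
          ∀ c ∈ insert x' (S.erase x), G.Reachable a b → G.Reachable a c →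
          a = b ∨ a = c ∨ b = c := by
        have hrx : G.Reachable x x' := hadj.reachable
        intro a ha b hb c hc hab hac
        rw [Finset.mem_insert, Finset.mem_erase] at ha hb hc
        rcases ha with rfl | ⟨ha1, ha2⟩ <;> rcases hb with rfl | ⟨hb1, hb2⟩ <;>
          rcases hc with rfl | ⟨hc1, hc2⟩
        · simp
        · simp
        · simp
        · rcases hS x hx b hb2 c hc2 (hrx.trans hab) (hrx.trans hac) with h | h | h
          · exact absurd h.symm hb1
          · exact absurd h.symm hc1
          · exact Or.inr (Or.inr h)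
        · simp
        · rcases hS x hx a ha2 c hc2 (hrx.trans hab.symm) (hrx.trans (hab.symm.trans hac))
            with h | h | h
          · exact absurd h.symm ha1
          · exact absurd h.symm hc1
          · exact Or.inr (Or.inl h)
        · rcases hS x hx a ha2 b hb2 (hrx.trans hac.symm) (hrx.trans (hac.symm.trans hab))
            with h | h | h
          · exact absurd h.symm ha1
          · exact absurd h.symm hb1
          · exact Or.inl h
        · exact hS a ha2 b hb2 c hc2 hab hac
      have hmove : LegalMove G S (insert x' (S.erase x)) :=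
        ⟨x, hx, x', hx'S, hadj, rfl, gp _ hS'⟩
      obtain ⟨T, hT, hvT⟩ := ih (k - 1) (by omega) v _ ⟨x', by simp, hr', hd'⟩ hS'
      exact ⟨T, Relation.ReflTransGen.head hmove hT, hvT⟩
  refine isMobile_of_visits (gp S h2) fun v => ?_
  obtain ⟨x, hx, hr⟩ := h1 v
  exact main _ v S ⟨x, hx, hr, rfl⟩ h2

end Pool.Agent.H58.Mob
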