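import Pool.Agent.H58.Mob1

set_option linter.unusedSectionVars false

namespace Pool.Agent.H58.Mob

open SimpleGraph

variable {V : Type*} [DecidableEq V] {G : SimpleGraph V}

/-! ### The walker argument -/

lemma move3 {S0 : Finset V} {z p q z' : V} (hC : Reach G S0 {z, p, q}) (hadj : G.Adj z z')
    (hzp : z ≠ p) (hzq : z ≠ q) (hz'p : z' ≠ p) (hz'q : z' ≠ q)
    (gp : IsGenPos G {z', p, q}) : Reach G S0 {z', p, q} := by
  refine Relation.ReflTransGen.tail hC ⟨z, by simp, z', ?_, hadj, ?_, gp⟩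
  · simp [hadj.ne.symm, hz'p, hz'q]
  · have : ({z, p, q} : Finset V).erase z = {p, q} := by
      rw [Finset.erase_insert (by simp [hzp, hzq])]
    rw [this]

lemma gp_adj {z p q : V} (hpq : G.Adj p q) (h : G.dist z p = G.dist z q) :
    IsGenPos G {z, p, q} := by
  have h1 : G.dist p q = 1 := SimpleGraph.dist_eq_one_iff_adj.2 hpq
  apply isGenPos_triple <;> omega

lemma gp_two {z p q : V} (hpq : G.dist p q = 2) (h1 : G.dist z p ≤ G.dist z q + 1)
    (h2 : G.dist z q ≤ G.dist z p + 1) (h3 : G.dist z p + G.dist z q ≠ 2) :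
    IsGenPos G {z, p, q} := by
  apply isGenPos_triple <;> omega

lemma perm1 (x y z : V) : ({x, y, z} : Finset V) = {y, x, z} := by
  ext a; simp only [Finset.mem_insert, Finset.mem_singleton]; tauto

lemma perm2 (x y z : V) : ({x, y, z} : Finset V) = {x, z, y} := by
  ext a; simp only [Finset.mem_insert, Finset.mem_singleton]; tauto

lemma perm3 (x y z : V) : ({x, y, z} : Finset V) = {z, x, y} := by
  ext a; simp only [Finset.mem_insert, Finset.mem_singleton]; tauto

/-- A shortest path from the clique `Q` to the vertex `v`. -/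
structure Geo (G : SimpleGraph V) (Q : Finset V) (u : ℕ → V) (k : ℕ) (v : V) : Prop where
  h0 : u 0 ∈ Q
  hk : u k = v
  adj : ∀ i < k, G.Adj (u i) (u (i + 1))
  lo : ∀ i ≤ k, ∀ x ∈ Q, i ≤ G.dist (u i) x
  hi : ∀ i ≤ k, ∀ x ∈ Q, G.dist (u i) x ≤ i + 1

/-- The clique vertices that are at distance `i + 1` from the `i`-th vertex of the path. -/
noncomputable def Out (G : SimpleGraph V) (Q : Finset V) (u : ℕ → V) (i : ℕ) : Finset V :=
  Q.filter (fun x => G.dist (u i) x = i + 1)

lemma mem_Out {Q : Finset V} {u : ℕ → V} {i : ℕ} {x : V} :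
    x ∈ Out G Q u i ↔ x ∈ Q ∧ G.dist (u i) x = i + 1 := by
  simp [Out]

lemma Geo.dist_of_not_mem {Q : Finset V} {u : ℕ → V} {k : ℕ} {v : V} (g : Geo G Q u k v)
    {i : ℕ} (hi : i ≤ k) {x : V} (hx : x ∈ Q) (h : x ∉ Out G Q u i) : G.dist (u i) x = i := by
  have h1 := g.lo i hi x hx
  have h2 := g.hi i hi x hx
  rw [mem_Out] at h
  have : G.dist (u i) x ≠ i + 1 := fun h' => h ⟨hx, h'⟩
  omega

lemma dist_succ_le (hG : G.Connected) {a b x : V} (h : G.Adj a b) :
    G.dist b x ≤ G.dist a x + 1 := by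
  have h1 : G.dist b a = 1 := SimpleGraph.dist_eq_one_iff_adj.2 h.symm
  have := hG.dist_triangle (u := b) (v := a) (w := x)
  omega

lemma dist_succ_le' (hG : G.Connected) {a b x : V} (h : G.Adj a b) :
    G.dist x b ≤ G.dist x a + 1 := by
  rw [SimpleGraph.dist_comm (u := x) (v := b), SimpleGraph.dist_comm (u := x) (v := a)]
  exact dist_succ_le hG h

lemma Geo.dist_le_of_le (hG : G.Connected) {Q : Finset V} {u : ℕ → V} {k : ℕ} {v : V}
    (g : Geo G Q u k v) {i : ℕ} (x : V) {c : ℕ} (h : G.dist (u i) x ≤ c) :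
    ∀ j, i + j ≤ k → G.dist (u (i + j)) x ≤ c + j := by
  intro j
  induction j with
  | zero => intro _; simpa using h
  | succ j ih =>
    intro hj
    have h1 := ih (by omega)
    have h2 := dist_succ_le hG (x := x) (g.adj (i + j) (by omega))
    have : i + (j + 1) = i + j + 1 := by omega
    rw [this]; omega

lemma Geo.out_anti_succ (hG : G.Connected) {Q : Finset V} {u : ℕ → V} {k : ℕ} {v : V}
    (g : Geo G Q u k v) {i : ℕ} (hi : i < k) : Out G Q u (i + 1) ⊆ Out G Q u i := by
  intro x hx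
  rw [mem_Out] at hx ⊢
  refine ⟨hx.1, ?_⟩
  have h1 := dist_succ_le hG (x := x) (g.adj i hi)
  have h2 := g.hi i (by omega) x hx.1
  omega

lemma Geo.out_anti (hG : G.Connected) {Q : Finset V} {u : ℕ → V} {k : ℕ} {v : V}
    (g : Geo G Q u k v) {i : ℕ} : ∀ j, i + j ≤ k → Out G Q u (i + j) ⊆ Out G Q u i := by
  intro j
  induction j with
  | zero => intro _; simp
  | succ j ih =>
    intro hj
    exact (g.out_anti_succ hG (i := i + j) (by omega)).trans (ih (by omega))

/-- The walker goes on along the path while the other two robots stay. -/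
lemma Geo.walk {S0 Q : Finset V} {u : ℕ → V} {k : ℕ} {v : V}
    (g : Geo G Q u k v) {p q : V} {i : ℕ}
    (h : ∀ j, i ≤ j → j ≤ k → IsGenPos G {u j, p, q} ∧ u j ≠ p ∧ u j ≠ q)
    (hC : Reach G S0 {u i, p, q}) : ∀ j, i + j ≤ k → Reach G S0 {u (i + j), p, q} := by
  intro j
  induction j with
  | zero => intro _; simpa using hC
  | succ j ih =>
    intro hj
    have h1 := ih (by omega)
    have h2 := h (i + j) (by omega) (by omega)
    have h3 := h (i + j + 1) (by omega) (by omega)
    exact move3 h1 (g.adj (i + j) (by omega)) h2.2.1 h2.2.2 h3.2.1 h3.2.2 h3.1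

lemma Geo.walk_end {S0 Q : Finset V} {u : ℕ → V} {k : ℕ} {v : V}
    (g : Geo G Q u k v) {p q : V} {i : ℕ} (hik : i ≤ k)
    (h : ∀ j, i ≤ j → j ≤ k → IsGenPos G {u j, p, q} ∧ u j ≠ p ∧ u j ≠ q)
    (hC : Reach G S0 {u i, p, q}) : ∃ T, Reach G S0 T ∧ v ∈ T := by
  have := g.walk h hC (k - i) (by omega)
  rw [show i + (k - i) = k by omega, g.hk] at this
  exact ⟨_, this, by simp⟩

lemma ne_of_dist_pos (G : SimpleGraph V) {a b : V} (h : 0 < G.dist a b) : a ≠ b := by
  rintro rfl
  simp at h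

/-- The place where the walker is blocked. -/
lemma Geo.exists_block (hG : G.Connected) {S0 Q : Finset V} (hQ : G.IsClique (Q : Set V))
    (hcard : 3 ≤ Q.card)
    (hR : ∀ a ∈ Q, ∀ b ∈ Q, ∀ c ∈ Q, a ≠ b → a ≠ c → b ≠ c → Reach G S0 {a, b, c})
    {u : ℕ → V} {k : ℕ} {v : V} (g : Geo G Q u k v)
    (hv : ¬ ∃ T, Reach G S0 T ∧ v ∈ T) :
    ∃ i, i < k ∧ Q.card ≤ i + 3 ∧ ∃ y ∈ Q, ∃ w ∈ Q, y ≠ w ∧ Out G Q u i = {y, w} ∧
      Out G Q u (i + 1) = {w} ∧ Reach G S0 {u i, y, w} := by
  -- outer pairs are always available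
  have H : ∀ i ≤ k, ∀ p ∈ Out G Q u i, ∀ q ∈ Out G Q u i, p ≠ q →
      Reach G S0 {u i, p, q} := by
    intro i
    induction i with
    | zero =>
      intro _ p hp q hq hpq
      rw [mem_Out] at hp hq
      exact hR _ g.h0 p hp.1 q hq.1 (ne_of_dist_pos G (by omega)) (ne_of_dist_pos G (by omega)) hpq
    | succ i ih =>
      intro hi p hp q hq hpq
      have hsub := g.out_anti_succ hG (i := i) (by omega)
      have h1 := ih (by omega) p (hsub hp) q (hsub hq) hpq
      have hp' := hsub hp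
      have hq' := hsub hq
      rw [mem_Out] at hp hq hp' hq'
      have hadj : G.Adj p q := hQ (by exact_mod_cast hp.1) (by exact_mod_cast hq.1) hpq
      exact move3 h1 (g.adj i (by omega)) (ne_of_dist_pos G (by omega)) (ne_of_dist_pos G (by omega))
        (ne_of_dist_pos G (by omega)) (ne_of_dist_pos G (by omega)) (gp_adj hadj (by omega))
  -- inner pairs lead to `v`
  have N : ∀ i, 1 ≤ i → i ≤ k → ∀ p ∈ Q, ∀ q ∈ Q, p ≠ q → G.dist (u i) p = i →
      G.dist (u i) q = i → ¬ Reach G S0 {u i, p, q} := by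
    intro i hi1 hik p hp q hq hpq hdp hdq hC
    apply hv
    refine g.walk_end hik ?_ hC
    intro j hij hjk
    have e1 := g.dist_le_of_le hG p (le_of_eq hdp) (j - i) (by omega)
    have e2 := g.dist_le_of_le hG q (le_of_eq hdq) (j - i) (by omega)
    rw [show i + (j - i) = j by omega] at e1 e2
    have l1 := g.lo j hjk p hp
    have l2 := g.lo j hjk q hq
    have hadj : G.Adj p q := hQ (by exact_mod_cast hp) (by exact_mod_cast hq) hpq
    exact ⟨gp_adj hadj (by omega), ne_of_dist_pos G (by omega), ne_of_dist_pos G (by omega)⟩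
  -- at the end at most one outer vertex
  have hend : (Out G Q u k).card ≤ 1 := by
    by_contra hcon
    push Not at hcon
    obtain ⟨p, hp, q, hq, hpq⟩ := Finset.one_lt_card.1 hcon
    exact hv ⟨_, H k le_rfl p hp q hq hpq, by rw [g.hk]; simp⟩
  -- each step removes at most one
  have hstep : ∀ i < k, (Out G Q u i).card ≤ (Out G Q u (i + 1)).card + 1 := by
    intro i hi
    by_contra hcon
    push Not at hcon
    have hsub := g.out_anti_succ hG hi
    have h2 : 1 < (Out G Q u i \ Out G Q u (i + 1)).card := by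
      rw [Finset.card_sdiff_of_subset hsub]; omega
    obtain ⟨p, hp, q, hq, hpq⟩ := Finset.one_lt_card.1 h2
    rw [Finset.mem_sdiff] at hp hq
    have hp1 := mem_Out.1 hp.1
    have hq1 := mem_Out.1 hq.1
    have dp := g.dist_of_not_mem (i := i + 1) (by omega) hp1.1 hp.2
    have dq := g.dist_of_not_mem (i := i + 1) (by omega) hq1.1 hq.2
    have hadj : G.Adj p q := hQ (by exact_mod_cast hp1.1) (by exact_mod_cast hq1.1) hpq
    have hC := H i (by omega) p hp.1 q hq.1 hpq
    refine N (i + 1) (by omega) (by omega) p hp1.1 q hq1.1 hpq dp dq ?_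
    exact move3 hC (g.adj i hi) (ne_of_dist_pos G (by omega)) (ne_of_dist_pos G (by omega))
        (ne_of_dist_pos G (by omega)) (ne_of_dist_pos G (by omega)) (gp_adj hadj (by omega))
  have hzero : (Out G Q u 0).card + 1 = Q.card := by
    have : Out G Q u 0 = Q.erase (u 0) := by
      ext x
      rw [mem_Out, Finset.mem_erase]
      constructor
      · rintro ⟨h1, h2⟩
        exact ⟨(ne_of_dist_pos G (by omega)).symm, h1⟩
      · rintro ⟨h1, h2⟩
        refine ⟨h2, ?_⟩
        have : G.Adj (u 0) x := hQ (by exact_mod_cast g.h0) (by exact_mod_cast h2) (Ne.symm h1)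
        simpa using SimpleGraph.dist_eq_one_iff_adj.2 this
    rw [this, Finset.card_erase_add_one g.h0]
  have hlow : ∀ i ≤ k, Q.card ≤ (Out G Q u i).card + 1 + i := by
    intro i
    induction i with
    | zero => intro _; omega
    | succ i ih =>
      intro hi
      have := ih (by omega)
      have := hstep i (by omega)
      omega
  -- first index with at most one outer vertex
  have hex : ∃ j, j ≤ k ∧ (Out G Q u j).card ≤ 1 := ⟨k, le_rfl, hend⟩
  classical
  obtain ⟨hj1, hj2⟩ := Nat.find_spec hex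
  have hmin := fun m => Nat.find_min hex (m := m)
  set j := Nat.find hex with hj
  have hjpos : 0 < j := by
    rcases Nat.eq_zero_or_pos j with h | h
    · rw [h] at hj2; omega
    · exact h
  obtain ⟨i, hi⟩ : ∃ i, j = i + 1 := ⟨j - 1, by omega⟩
  have h2 : 2 ≤ (Out G Q u i).card := by
    have := hmin i (by omega)
    by_contra hcon
    exact this ⟨by omega, by omega⟩
  have h3 := hstep i (by omega)
  rw [hi] at hj2
  have h4 : (Out G Q u i).card = 2 := by omega
  have h5 : (Out G Q u (i + 1)).card = 1 := by omega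
  have h6 := hlow i (by omega)
  obtain ⟨w, hw⟩ := Finset.card_eq_one.1 h5
  have hsub := g.out_anti_succ hG (i := i) (by omega)
  have hwi : w ∈ Out G Q u i := hsub (by rw [hw]; simp)
  have h7 : ((Out G Q u i).erase w).card = 1 := by rw [Finset.card_erase_of_mem hwi]; omega
  obtain ⟨y, hy⟩ := Finset.card_eq_one.1 h7
  have hyi : y ∈ (Out G Q u i).erase w := by rw [hy]; simp
  rw [Finset.mem_erase] at hyi
  refine ⟨i, by omega, by omega, y, (mem_Out.1 hyi.2).1, w, (mem_Out.1 hwi).1, hyi.1, ?_, hw, ?_⟩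
  · rw [← Finset.insert_erase hwi, hy]
    ext a; simp only [Finset.mem_insert, Finset.mem_singleton]; tauto
  · exact H i (by omega) y hyi.2 w hwi hyi.1

end Pool.Agent.H58.Mob
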