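import Pool.Agent.H58.Mob2

set_option linter.unusedSectionVars false

namespace Pool.Agent.H58.Mob

open SimpleGraph

variable {V : Type*} [DecidableEq V] {G : SimpleGraph V}

lemma moveB {S0 : Finset V} {z p q p' : V} (hC : Reach G S0 {z, p, q}) (hadj : G.Adj p p')
    (hpz : p ≠ z) (hpq : p ≠ q) (hp'z : p' ≠ z) (hp'q : p' ≠ q)
    (gp : IsGenPos G {z, p', q}) : Reach G S0 {z, p', q} := by
  rw [perm1] at hC gp ⊢
  exact move3 hC hadj hpz hpq hp'z hp'q gp

lemma moveC {S0 : Finset V} {z p q q' : V} (hC : Reach G S0 {z, p, q}) (hadj : G.Adj q q')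
    (hqz : q ≠ z) (hqp : q ≠ p) (hq'z : q' ≠ z) (hq'p : q' ≠ p)
    (gp : IsGenPos G {z, p, q'}) : Reach G S0 {z, p, q'} := by
  rw [perm2] at hC gp ⊢
  exact moveB hC hadj hqz hqp hq'z hq'p gp

lemma dist_two (hG : G.Connected) {a b c : V} (hab : G.Adj a b) (hbc : G.Adj b c) (hne : a ≠ c)
    (hn : ¬ G.Adj a c) : G.dist a c = 2 := by
  have h1 := SimpleGraph.dist_eq_one_iff_adj.2 hab
  have h2 := SimpleGraph.dist_eq_one_iff_adj.2 hbc
  have h3 := hG.dist_triangle (u := a) (v := b) (w := c)
  have h4 : G.dist a c ≠ 1 := fun h => hn (SimpleGraph.dist_eq_one_iff_adj.1 h)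
  have h5 : G.dist a c ≠ 0 := fun h => hne (hG.dist_eq_zero_iff.1 h)
  omega

lemma exists_closer (hG : G.Connected) {a b : V} {m : ℕ} (h : G.dist a b = m + 1) :
    ∃ a', G.Adj a a' ∧ G.dist b a' = m := by
  obtain ⟨p, hp⟩ := hG.exists_walk_length_eq_dist a b
  refine ⟨p.getVert 1, ?_, ?_⟩
  · have := p.adj_getVert_succ (i := 0) (by omega)
    simpa using this
  · have := dist_getVert p hp (i := 1) (j := m + 1) (by omega) (by omega)
    rw [← h, ← hp, Walk.getVert_length, hp, h] at this
    rw [SimpleGraph.dist_comm, this]; omega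

lemma exists_geo (hG : G.Connected) {Q : Finset V} (hQ : G.IsClique (Q : Set V)) {x0 v : V}
    (hx0 : x0 ∈ Q) (hmin : ∀ x ∈ Q, G.dist x0 v ≤ G.dist x v) :
    ∃ u : ℕ → V, Geo G Q u (G.dist x0 v) v := by
  obtain ⟨p, hp⟩ := hG.exists_walk_length_eq_dist x0 v
  refine ⟨p.getVert, ⟨by simpa using hx0, by rw [← hp, Walk.getVert_length], ?_, ?_, ?_⟩⟩
  · intro i hi
    exact p.adj_getVert_succ (by omega)
  · intro i hi x hx
    have h1 := dist_getVert p hp (i := i) (j := p.length) (by omega) le_rfl
    rw [Walk.getVert_length] at h1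
    have h2 := hmin x hx
    have h3 := hG.dist_triangle (u := x) (v := p.getVert i) (w := v)
    rw [SimpleGraph.dist_comm (u := p.getVert i) (v := x)]
    omega
  · intro i hi x hx
    have h1 := dist_getVert p hp (i := 0) (j := i) (by omega) (by omega)
    rw [Walk.getVert_zero] at h1
    have h2 : G.dist x0 x ≤ 1 := by
      by_cases h : x0 = x
      · simp [h]
      · exact le_of_eq (SimpleGraph.dist_eq_one_iff_adj.2
          (hQ (by exact_mod_cast hx0) (by exact_mod_cast hx) h))
    have h3 := hG.dist_triangle (u := p.getVert i) (v := x0) (w := x)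
    rw [SimpleGraph.dist_comm (u := p.getVert i) (v := x0)] at h3
    omega

/-- From a clique on five vertices everything can be visited. -/
lemma clique5_visits (hG : G.Connected) {S0 : Finset V} : ∀ (k : ℕ) (Q : Finset V),
    G.IsClique (Q : Set V) → Q.card = 5 →
    (∀ a ∈ Q, ∀ b ∈ Q, ∀ c ∈ Q, a ≠ b → a ≠ c → b ≠ c → Reach G S0 {a, b, c}) →
    ∀ x0 ∈ Q, ∀ v, G.dist x0 v ≤ k → ∃ T, Reach G S0 T ∧ v ∈ T := by
  intro k
  induction k using Nat.strong_induction_on with
  | _ k ih =>
    intro Q hQ hcard hR x0 hx0 v hk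
    obtain ⟨x1, hx1, hmin⟩ := Finset.exists_min_image Q (fun x => G.dist x v) ⟨x0, hx0⟩
    obtain ⟨u, g⟩ := exists_geo hG hQ hx1 hmin
    have hk' : G.dist x1 v ≤ k := (hmin x0 hx0).trans hk
    generalize G.dist x1 v = K at g hk'
    by_contra hv
    obtain ⟨i, hiK, hi3, y, hy, w, hw, hyw, hO1, hO2, hC⟩ :=
      g.exists_block hG hQ (by omega) hR hv
    have hadj_yw : G.Adj y w := hQ (by exact_mod_cast hy) (by exact_mod_cast hw) hyw
    have dzy : G.dist (u i) y = i + 1 := (mem_Out.1 (by rw [hO1]; simp : y ∈ Out G Q u i)).2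
    have dzw : G.dist (u i) w = i + 1 := (mem_Out.1 (by rw [hO1]; simp : w ∈ Out G Q u i)).2
    have dz'w : G.dist (u (i + 1)) w = i + 2 :=
      (mem_Out.1 (by rw [hO2]; simp : w ∈ Out G Q u (i + 1))).2
    have dz'y : G.dist (u (i + 1)) y = i + 1 :=
      g.dist_of_not_mem (by omega) hy (by rw [hO2]; simpa using hyw)
    obtain ⟨y', hyy', dz'y'⟩ := exists_closer hG (a := y) (b := u (i + 1)) (m := i)
      (by rw [SimpleGraph.dist_comm]; exact dz'y)
    have hy'w : ¬ G.Adj y' w := by
      intro h
      have := dist_succ_le' hG (x := u (i + 1)) h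
      omega
    have hy'w2 : y' ≠ w := by
      rintro rfl; omega
    have hy'Q : y' ∉ Q := by
      intro h
      exact hy'w (hQ (by exact_mod_cast h) (by exact_mod_cast hw) hy'w2)
    have dzy'1 : G.dist (u i) y' ≤ i + 1 := by
      have := dist_succ_le hG (x := y') (g.adj i (by omega)).symm
      omega
    have dzy'2 : i ≤ G.dist (u i) y' := by
      have := dist_succ_le' hG (x := u i) hyy'.symm
      omega
    have dy'w : G.dist y' w = 2 := dist_two hG hyy'.symm hadj_yw hy'w2 hy'w
    have hC2 : Reach G S0 {u i, y', w} :=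
      moveB hC hyy' (ne_of_dist_pos G (by rw [SimpleGraph.dist_comm]; omega)) hyw
        (ne_of_dist_pos G (by rw [SimpleGraph.dist_comm]; omega)) hy'w2
        (gp_two dy'w (by omega) (by omega) (by omega))
    -- every other clique vertex is adjacent to `y'`
    have hall : ∀ x ∈ Q, x ≠ y → x ≠ w → G.Adj x y' := by
      intro x hx hxy hxw
      by_contra hn
      have hadj_xw : G.Adj w x := hQ (by exact_mod_cast hw) (by exact_mod_cast hx) (Ne.symm hxw)
      have hadj_xy : G.Adj y x := hQ (by exact_mod_cast hy) (by exact_mod_cast hx) (Ne.symm hxy)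
      have hxy' : y' ≠ x := by rintro rfl; exact hy'Q hx
      have dy'x : G.dist y' x = 2 :=
        dist_two hG hyy'.symm hadj_xy hxy' (fun h => hn h.symm)
      have dzx : G.dist (u i) x = i :=
        g.dist_of_not_mem (by omega) hx (by rw [hO1]; simp [hxy, hxw])
      have dz'x : G.dist (u (i + 1)) x = i + 1 :=
        g.dist_of_not_mem (by omega) hx (by rw [hO2]; simp [hxw])
      have hC3 : Reach G S0 {u i, y', x} :=
        moveC hC2 hadj_xw (ne_of_dist_pos G (by rw [SimpleGraph.dist_comm]; omega)) hy'w2.symm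
          (ne_of_dist_pos G (by rw [SimpleGraph.dist_comm]; omega)) hxy'.symm
          (gp_two dy'x (by omega) (by omega) (by omega))
      have hC4 : Reach G S0 {u (i + 1), y', x} :=
        move3 hC3 (g.adj i (by omega)) (ne_of_dist_pos G (by omega)) (ne_of_dist_pos G (by omega))
          (ne_of_dist_pos G (by omega)) (ne_of_dist_pos G (by omega))
          (gp_two dy'x (by omega) (by omega) (by omega))
      apply hv
      refine g.walk_end (i := i + 1) (by omega) ?_ hC4
      intro j hij hjk
      have e1 := g.dist_le_of_le hG y' (le_of_eq dz'y') (j - (i + 1)) (by omega)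
      have e2 := g.dist_le_of_le hG x (le_of_eq dz'x) (j - (i + 1)) (by omega)
      rw [show i + 1 + (j - (i + 1)) = j by omega] at e1 e2
      have l1 := g.lo j hjk y hy
      have l2 := g.lo j hjk x hx
      have l3 := dist_succ_le' hG (x := u j) hyy'.symm
      exact ⟨gp_two dy'x (by omega) (by omega) (by omega), ne_of_dist_pos G (by omega),
        ne_of_dist_pos G (by omega)⟩
    -- the closer clique
    have hmemQ' : ∀ x, x ∈ insert y' (Q.erase w) ↔ x = y' ∨ (x ≠ w ∧ x ∈ Q) := by
      intro x; simp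
    have hadjQ : ∀ x ∈ Q, x ≠ w → G.Adj x y' := by
      intro x hx hxw
      by_cases h : x = y
      · rw [h]; exact hyy'
      · exact hall x hx h hxw
    have hQ' : G.IsClique ((insert y' (Q.erase w) : Finset V) : Set V) := by
      intro a ha b hb hab
      have ha' := (hmemQ' a).1 (by exact_mod_cast ha)
      have hb' := (hmemQ' b).1 (by exact_mod_cast hb)
      rcases ha' with rfl | ⟨ha1, ha2⟩ <;> rcases hb' with rfl | ⟨hb1, hb2⟩
      · exact absurd rfl hab
      · exact (hadjQ b hb2 hb1).symm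
      · exact hadjQ a ha2 ha1
      · exact hQ (by exact_mod_cast ha2) (by exact_mod_cast hb2) hab
    have hcard' : (insert y' (Q.erase w)).card = 5 := by
      rw [Finset.card_insert_of_notMem (by simp [hy'Q]), Finset.card_erase_of_mem hw]; omega
    -- triples containing `y'`
    have hRy' : ∀ b ∈ Q, ∀ c ∈ Q, b ≠ w → c ≠ w → b ≠ c → Reach G S0 {y', b, c} := by
      intro b hb c hc hbw hcw hbc
      have h3 : (((Q.erase w).erase b).erase c).Nonempty := by
        rw [← Finset.card_pos]
        have h1 : b ∈ Q.erase w := by simp [hb, hbw]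
        have h2 : c ∈ (Q.erase w).erase b := by simp [hc, hcw, hbc.symm]
        rw [Finset.card_erase_of_mem h2, Finset.card_erase_of_mem h1, Finset.card_erase_of_mem hw]
        omega
      obtain ⟨r, hr⟩ := h3
      simp only [Finset.mem_erase] at hr
      obtain ⟨hrc, hrb, hrw, hrQ⟩ := hr
      have hadj_bc : G.Adj b c := hQ (by exact_mod_cast hb) (by exact_mod_cast hc) hbc
      have d1 : G.dist y' b = 1 := SimpleGraph.dist_eq_one_iff_adj.2 (hadjQ b hb hbw).symm
      have d2 : G.dist y' c = 1 := SimpleGraph.dist_eq_one_iff_adj.2 (hadjQ c hc hcw).symm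
      exact move3 (hR r hrQ b hb c hc hrb hrc hbc) (hadjQ r hrQ hrw) hrb hrc
        (by rintro rfl; exact hy'Q hb) (by rintro rfl; exact hy'Q hc) (gp_adj hadj_bc (by omega))
    have hR' : ∀ a ∈ insert y' (Q.erase w), ∀ b ∈ insert y' (Q.erase w),
        ∀ c ∈ insert y' (Q.erase w), a ≠ b → a ≠ c → b ≠ c → Reach G S0 {a, b, c} := by
      intro a ha b hb c hc hab hac hbc
      rw [hmemQ'] at ha hb hc
      rcases ha with rfl | ⟨ha1, ha2⟩
      · have hb' := hb.resolve_left hab.symm
        have hc' := hc.resolve_left hac.symm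
        exact hRy' b hb'.2 c hc'.2 hb'.1 hc'.1 hbc
      rcases hb with rfl | ⟨hb1, hb2⟩
      · have hc' := hc.resolve_left hbc.symm
        rw [perm1]
        exact hRy' a ha2 c hc'.2 ha1 hc'.1 hac
      rcases hc with rfl | ⟨hc1, hc2⟩
      · rw [perm3]
        exact hRy' a ha2 b hb2 ha1 hb1 hab
      · exact hR a ha2 b hb2 c hc2 hab hac hbc
    have hdv : G.dist y' v ≤ K - 1 := by
      have e1 : G.dist (u K) (u (i + 1)) ≤ 0 + (K - (i + 1)) := by
        have := g.dist_le_of_le hG (i := i + 1) (u (i + 1)) (c := 0) (by simp) (K - (i + 1))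
          (by omega)
        rwa [show i + 1 + (K - (i + 1)) = K by omega] at this
      rw [g.hk] at e1
      have e2 := hG.dist_triangle (u := y') (v := u (i + 1)) (w := v)
      rw [SimpleGraph.dist_comm (u := y') (v := u (i + 1)),
        SimpleGraph.dist_comm (u := u (i + 1)) (v := v)] at e2
      omega
    exact hv (ih (K - 1) (by omega) _ hQ' hcard' hR' y' (by simp) v hdv)

/-- The side step of an outer robot. -/
lemma Geo.side_step (hG : G.Connected) {S0 Q : Finset V} (hQ : G.IsClique (Q : Set V))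
    {u : ℕ → V} {k : ℕ} {v : V} (g : Geo G Q u k v)
    (hv : ¬ ∃ T, Reach G S0 T ∧ v ∈ T) {i : ℕ} (hi1 : 1 ≤ i) (hik : i < k) {y w : V}
    (hy : y ∈ Q) (hw : w ∈ Q) (hyw : y ≠ w) (hO1 : Out G Q u i = {y, w})
    (hO2 : Out G Q u (i + 1) = {w}) (hC : Reach G S0 {u i, y, w}) {t : V} (htw : G.Adj t w)
    (hty : ¬ G.Adj t y) (hty' : t ≠ y) : i + 3 ≤ G.dist (u (i + 1)) t := by
  by_contra hcon
  have hadj_yw : G.Adj y w := hQ (by exact_mod_cast hy) (by exact_mod_cast hw) hyw
  have dzy : G.dist (u i) y = i + 1 := (mem_Out.1 (by rw [hO1]; simp : y ∈ Out G Q u i)).2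
  have dzw : G.dist (u i) w = i + 1 := (mem_Out.1 (by rw [hO1]; simp : w ∈ Out G Q u i)).2
  have dz'w : G.dist (u (i + 1)) w = i + 2 :=
    (mem_Out.1 (by rw [hO2]; simp : w ∈ Out G Q u (i + 1))).2
  have dz'y : G.dist (u (i + 1)) y = i + 1 :=
    g.dist_of_not_mem (by omega) hy (by rw [hO2]; simpa using hyw)
  have dyt : G.dist y t = 2 := dist_two hG hadj_yw htw.symm hty'.symm (fun h => hty h.symm)
  have a1 := dist_succ_le' hG (x := u i) htw
  have a2 := dist_succ_le' hG (x := u i) htw.symm
  have a3 := dist_succ_le' hG (x := u (i + 1)) htw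
  have hC2 : Reach G S0 {u i, y, t} :=
    moveC hC htw.symm (ne_of_dist_pos G (by rw [SimpleGraph.dist_comm]; omega)) hyw.symm
      (ne_of_dist_pos G (by rw [SimpleGraph.dist_comm]; omega)) hty'
      (gp_two dyt (by omega) (by omega) (by omega))
  have hC3 : Reach G S0 {u (i + 1), y, t} :=
    move3 hC2 (g.adj i (by omega)) (ne_of_dist_pos G (by omega)) (ne_of_dist_pos G (by omega))
      (ne_of_dist_pos G (by omega)) (ne_of_dist_pos G (by omega))
      (gp_two dyt (by omega) (by omega) (by omega))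
  apply hv
  refine g.walk_end (i := i + 1) (by omega) ?_ hC3
  intro j hij hjk
  have e1 := g.dist_le_of_le hG y (le_of_eq dz'y) (j - (i + 1)) (by omega)
  have e2 := g.dist_le_of_le hG t (show G.dist (u (i + 1)) t ≤ i + 2 by omega)
    (j - (i + 1)) (by omega)
  rw [show i + 1 + (j - (i + 1)) = j by omega] at e1 e2
  have l1 := g.lo j hjk y hy
  have l2 := g.lo j hjk w hw
  have l3 := dist_succ_le' hG (x := u j) htw
  exact ⟨gp_two dyt (by omega) (by omega) (by omega), ne_of_dist_pos G (by omega),
    ne_of_dist_pos G (by omega)⟩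

/-- Structure of a clique on four vertices from which some vertex cannot be visited. -/
lemma clique4_structure (hG : G.Connected) {S0 Q : Finset V} (hQ : G.IsClique (Q : Set V))
    (hcard : Q.card = 4) (h5 : ∀ Q' : Finset V, G.IsClique (Q' : Set V) → Q'.card ≠ 5)
    (hR : ∀ a ∈ Q, ∀ b ∈ Q, ∀ c ∈ Q, a ≠ b → a ≠ c → b ≠ c → Reach G S0 {a, b, c})
    {v : V} (hv : ¬ ∃ T, Reach G S0 T ∧ v ∈ T) :
    ∃ w ∈ Q, ∃ r ∈ Q, w ≠ r ∧ (∀ t, G.Adj t w → G.Adj t r → t ∈ Q) ∧
      ∃ z, 3 ≤ G.dist z w ∧ 2 ≤ G.dist z r := by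
  have hne : Q.Nonempty := by rw [← Finset.card_pos]; omega
  obtain ⟨x1, hx1, hmin⟩ := Finset.exists_min_image Q (fun x => G.dist x v) hne
  obtain ⟨u, g⟩ := exists_geo hG hQ hx1 hmin
  generalize G.dist x1 v = K at g
  obtain ⟨i, hiK, hi3, y, hy, w, hw, hyw, hO1, hO2, hC⟩ :=
    g.exists_block hG hQ (by omega) hR hv
  have dz'w : G.dist (u (i + 1)) w = i + 2 :=
    (mem_Out.1 (by rw [hO2]; simp : w ∈ Out G Q u (i + 1))).2
  have dz'y : G.dist (u (i + 1)) y = i + 1 :=
    g.dist_of_not_mem (by omega) hy (by rw [hO2]; simpa using hyw)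
  -- the second path, starting at `y`
  obtain ⟨p, hp⟩ := hG.exists_walk_length_eq_dist y (u (i + 1))
  have hplen : p.length = i + 1 := by rw [hp, SimpleGraph.dist_comm]; exact dz'y
  set u' : ℕ → V := fun j => if j ≤ i + 1 then p.getVert j else u j with hu'
  have hu'1 : ∀ j, j ≤ i + 1 → u' j = p.getVert j := by intro j hj; simp [hu', hj]
  have hu'2 : ∀ j, i + 1 ≤ j → u' j = u j := by
    intro j hj
    rcases Nat.eq_or_lt_of_le hj with h | h
    · have hend : p.getVert (i + 1) = u (i + 1) := by
        have := p.getVert_length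
        rwa [hplen] at this
      rw [← h, hu'1 _ le_rfl, hend]
    · simp only [hu']; rw [if_neg (by omega)]
  have g' : Geo G Q u' K v := by
    refine ⟨?_, ?_, ?_, ?_, ?_⟩
    · rw [hu'1 0 (by omega)]; simpa using hy
    · rw [hu'2 K (by omega)]; exact g.hk
    · intro j hj
      by_cases h : j < i + 1
      · rw [hu'1 j (by omega), hu'1 (j + 1) (by omega)]
        exact p.adj_getVert_succ (by omega)
      · rw [hu'2 j (by omega), hu'2 (j + 1) (by omega)]
        exact g.adj j hj
    · intro j hj x hx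
      by_cases h : j < i + 1
      · rw [hu'1 j (by omega)]
        have h1 := dist_getVert p hp (i := j) (j := p.length) (by omega) le_rfl
        rw [Walk.getVert_length] at h1
        have h2 := g.lo (i + 1) (by omega) x hx
        have h3 := hG.dist_triangle (u := x) (v := p.getVert j) (w := u (i + 1))
        rw [SimpleGraph.dist_comm (u := x) (v := u (i + 1)),
          SimpleGraph.dist_comm (u := x) (v := p.getVert j)] at h3
        omega
      · rw [hu'2 j (by omega)]; exact g.lo j hj x hx
    · intro j hj x hx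
      by_cases h : j < i + 1
      · rw [hu'1 j (by omega)]
        have h1 := dist_getVert p hp (i := 0) (j := j) (by omega) (by omega)
        rw [Walk.getVert_zero] at h1
        have h2 : G.dist y x ≤ 1 := by
          by_cases h : y = x
          · simp [h]
          · exact le_of_eq (SimpleGraph.dist_eq_one_iff_adj.2
              (hQ (by exact_mod_cast hy) (by exact_mod_cast hx) h))
        have h3 := hG.dist_triangle (u := p.getVert j) (v := y) (w := x)
        rw [SimpleGraph.dist_comm (u := p.getVert j) (v := y)] at h3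
        omega
      · rw [hu'2 j (by omega)]; exact g.hi j hj x hx
  obtain ⟨i', hi'K, hi'3, s, hs, w', hw', hsw', hO1', hO2', hC'⟩ :=
    g'.exists_block hG hQ (by omega) hR hv
  have hOm : Out G Q u' (i + 1) = {w} := by
    have : Out G Q u' (i + 1) = Out G Q u (i + 1) := by
      ext x; rw [mem_Out, mem_Out, hu'2 (i + 1) le_rfl]
    rw [this, hO2]
  have hi'i : i' + 1 ≤ i + 1 := by
    by_contra hcon
    have hsub := g'.out_anti hG (i := i + 1) (i' - (i + 1)) (by omega)
    rw [show i + 1 + (i' - (i + 1)) = i' by omega, hOm, hO1'] at hsub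
    have := Finset.card_le_card hsub
    rw [Finset.card_pair hsw'] at this
    simp at this
  have hww : w' = w := by
    have hsub := g'.out_anti hG (i := i' + 1) (i + 1 - (i' + 1)) (by omega)
    rw [show i' + 1 + (i + 1 - (i' + 1)) = i + 1 by omega, hOm, hO2'] at hsub
    exact (Finset.mem_singleton.1 (hsub (Finset.mem_singleton_self w))).symm
  rw [hww] at hw' hsw' hO1' hO2' hC'
  have hsy : s ≠ y := by
    rintro rfl
    have h1 := (mem_Out.1 (by rw [hO1']; simp : s ∈ Out G Q u' i')).2
    rw [hu'1 i' (by omega)] at h1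
    have h2 := dist_getVert p hp (i := 0) (j := i') (by omega) (by omega)
    rw [Walk.getVert_zero, SimpleGraph.dist_comm] at h2
    omega
  -- the fourth vertex
  have h3 : (((Q.erase w).erase y).erase s).Nonempty := by
    rw [← Finset.card_pos]
    have h1 : y ∈ Q.erase w := by simp [hy, hyw]
    have h2 : s ∈ (Q.erase w).erase y := by simp [hs, hsw', hsy]
    rw [Finset.card_erase_of_mem h2, Finset.card_erase_of_mem h1, Finset.card_erase_of_mem hw]
    omega
  obtain ⟨r, hr⟩ := h3
  simp only [Finset.mem_erase] at hr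
  obtain ⟨hrs, hry, hrw, hrQ⟩ := hr
  have dz'r : G.dist (u (i + 1)) r = i + 1 :=
    g.dist_of_not_mem (by omega) hrQ (by rw [hO2]; simp [hrw])
  have dz''r : G.dist (u' (i' + 1)) r = i' + 1 :=
    g'.dist_of_not_mem (by omega) hrQ (by rw [hO2']; simp [hrw])
  refine ⟨w, hw, r, hrQ, hrw.symm, ?_, u (i + 1), by omega, by omega⟩
  intro t htw htr
  by_contra htQ
  have hty : G.Adj t y := by
    by_contra hn
    have h1 := g.side_step hG hQ hv (by omega) hiK hy hw hyw hO1 hO2 hC htw hn
      (by rintro rfl; exact htQ hy)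
    have h2 := dist_succ_le' hG (x := u (i + 1)) htr.symm
    omega
  have hts : G.Adj t s := by
    by_contra hn
    have h1 := g'.side_step hG hQ hv (by omega) hi'K hs hw hsw' hO1' hO2' hC' htw hn
      (by rintro rfl; exact htQ hs)
    have h2 := dist_succ_le' hG (x := u' (i' + 1)) htr.symm
    omega
  -- a clique on five vertices
  have hQeq : Q = {w, y, s, r} := by
    symm
    apply Finset.eq_of_subset_of_card_le
    · intro x hx
      simp only [Finset.mem_insert, Finset.mem_singleton] at hx
      rcases hx with rfl | rfl | rfl | rfl <;> assumption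
    · rw [hcard]
      rw [Finset.card_insert_of_notMem, Finset.card_insert_of_notMem,
        Finset.card_insert_of_notMem, Finset.card_singleton]
      · simpa using hrs.symm
      · simp [hsy.symm, hry.symm]
      · simp [hyw.symm, hsw'.symm, hrw.symm]
  refine h5 (insert t Q) ?_ ?_
  · rw [Finset.coe_insert, SimpleGraph.isClique_insert]
    refine ⟨hQ, ?_⟩
    intro b hb _
    have hb' : b ∈ Q := by exact_mod_cast hb
    rw [hQeq] at hb'
    simp only [Finset.mem_insert, Finset.mem_singleton] at hb'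
    rcases hb' with rfl | rfl | rfl | rfl <;> assumption
  · rw [Finset.card_insert_of_notMem htQ, hcard]

end Pool.Agent.H58.Mob
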