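import Pool.Agent.H58.Mob3

set_option linter.unusedSectionVars false

namespace Pool.Agent.H58.Mob

open SimpleGraph Finset

/-! ### Edges of Turan graphs -/

/-- number of edges of the Turan graph with three parts -/
abbrev t3 (n : ℕ) : ℕ := #(turanGraph n 3).edgeFinset

lemma t3_add (n : ℕ) : t3 (n + 3) = t3 n + 2 * n + 3 := by
  have := card_edgeFinset_turanGraph_add (n := n) (r := 3)
  unfold t3
  rw [this]
  have h : Nat.choose 3 2 = 3 := by decide
  rw [h]; ring

lemma t3_zero (q : ℕ) : t3 (3 * q) = 3 * q ^ 2 := by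
  induction q with
  | zero => unfold t3; rw [card_edgeFinset_turanGraph]; simp
  | succ q ih =>
    rw [show 3 * (q + 1) = 3 * q + 3 by ring, t3_add, ih]; ring

lemma t3_one (q : ℕ) : t3 (3 * q + 1) = 3 * q ^ 2 + 2 * q := by
  induction q with
  | zero => unfold t3; rw [card_edgeFinset_turanGraph]; simp
  | succ q ih =>
    rw [show 3 * (q + 1) + 1 = 3 * q + 1 + 3 by ring, t3_add, ih]; ring

lemma t3_two (q : ℕ) : t3 (3 * q + 2) = 3 * q ^ 2 + 4 * q + 1 := by
  induction q with
  | zero => unfold t3; rw [card_edgeFinset_turanGraph]; simp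
  | succ q ih =>
    rw [show 3 * (q + 1) + 2 = 3 * q + 2 + 3 by ring, t3_add, ih]; ring

lemma t3_step (m : ℕ) (hm : 4 ≤ m) : t3 m + m + 3 ≤ t3 (m + 2) := by
  obtain ⟨q, hq⟩ : ∃ q, m = 3 * q ∨ m = 3 * q + 1 ∨ m = 3 * q + 2 := ⟨m / 3, by omega⟩
  rcases hq with rfl | rfl | rfl
  · rw [t3_zero, t3_two]; omega
  · rw [t3_one, show 3 * q + 1 + 2 = 3 * (q + 1) by ring, t3_zero]; nlinarith
  · rw [t3_two, show 3 * q + 2 + 2 = 3 * (q + 1) + 1 by ring, t3_one]; nlinarith

variable {V : Type*} [DecidableEq V] [Fintype V] (G : SimpleGraph V) [DecidableRel G.Adj]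

/-- twice the number of edges inside `s` -/
def E2 (s : Finset V) : ℕ := ∑ v ∈ s, #(s.filter (G.Adj v))

lemma E2_erase {s : Finset V} {a : V} (ha : a ∈ s) :
    E2 G s = E2 G (s.erase a) + 2 * #(s.filter (G.Adj a)) := by
  unfold E2
  rw [← Finset.add_sum_erase s _ ha]
  have h1 : ∀ v ∈ s.erase a, #(s.filter (G.Adj v)) =
      #((s.erase a).filter (G.Adj v)) + (if G.Adj a v then 1 else 0) := by
    intro v hv
    by_cases h : G.Adj a v
    · rw [if_pos h]
      have : s.filter (G.Adj v) = insert a ((s.erase a).filter (G.Adj v)) := by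
        ext x
        simp only [mem_filter, mem_insert, mem_erase]
        constructor
        · rintro ⟨h1, h2⟩
          by_cases hx : x = a
          · exact Or.inl hx
          · exact Or.inr ⟨⟨hx, h1⟩, h2⟩
        · rintro (rfl | ⟨⟨_, h1⟩, h2⟩)
          · exact ⟨ha, h.symm⟩
          · exact ⟨h1, h2⟩
      rw [this, Finset.card_insert_of_notMem (by simp)]
    · rw [if_neg h]
      congr 1
      ext x
      simp only [mem_filter, mem_erase]
      constructor
      · rintro ⟨h1, h2⟩
        exact ⟨⟨fun hx => h (hx ▸ h2.symm), h1⟩, h2⟩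
      · rintro ⟨⟨_, h1⟩, h2⟩
        exact ⟨h1, h2⟩
  rw [Finset.sum_congr rfl h1, Finset.sum_add_distrib]
  have h2 : ∑ x ∈ s.erase a, (if G.Adj a x then 1 else 0) = #(s.filter (G.Adj a)) := by
    rw [← Finset.card_filter]
    congr 1
    ext x
    simp only [mem_filter, mem_erase]
    constructor
    · rintro ⟨⟨_, h1⟩, h2⟩; exact ⟨h1, h2⟩
    · rintro ⟨h1, h2⟩; exact ⟨⟨fun hx => G.loopless.irrefl _ (hx ▸ h2), h1⟩, h2⟩
  rw [h2]; ring

lemma E2_univ : E2 G univ = 2 * #G.edgeFinset := by
  rw [← SimpleGraph.sum_degrees_eq_twice_card_edges]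
  unfold E2
  apply Finset.sum_congr rfl
  intro v _
  rw [← SimpleGraph.card_neighborFinset_eq_degree]
  congr 1
  ext x; simp

lemma E2_le_of_no_clique4 {s : Finset V}
    (h : ∀ Q ⊆ s, G.IsClique (Q : Set V) → #Q ≠ 4) : E2 G s ≤ 2 * t3 #s := by
  classical
  have h1 : E2 G s = 2 * #(G.induce (s : Set V)).edgeFinset := by
    rw [← SimpleGraph.sum_degrees_eq_twice_card_edges]
    unfold E2
    rw [← Finset.sum_coe_sort]
    apply Finset.sum_congr rfl
    intro v _
    rw [← SimpleGraph.card_neighborFinset_eq_degree]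
    symm
    refine Finset.card_bij (fun x _ => (x : V)) ?_ ?_ ?_
    · intro x hx
      simp only [mem_neighborFinset, SimpleGraph.comap_adj, Function.Embedding.subtype_apply] at hx
      simp only [mem_filter]
      exact ⟨by exact_mod_cast x.2, hx⟩
    · intro x _ y _ hxy
      exact Subtype.ext hxy
    · intro x hx
      simp only [mem_filter] at hx
      exact ⟨⟨x, by exact_mod_cast hx.1⟩, by simpa using hx.2, rfl⟩
  have h2 : (G.induce (s : Set V)).CliqueFree (3 + 1) := by
    intro Q hQ
    have hQ1 := hQ.isClique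
    have hQ2 := hQ.card_eq
    refine h (Q.map (Function.Embedding.subtype _)) ?_ ?_ ?_
    · intro x hx
      simp only [mem_map, Function.Embedding.subtype_apply] at hx
      obtain ⟨y, _, rfl⟩ := hx
      exact_mod_cast y.2
    · intro x hx y hy hxy
      simp only [coe_map, Function.Embedding.subtype_apply, Set.mem_image, mem_coe] at hx hy
      obtain ⟨x', hx', rfl⟩ := hx
      obtain ⟨y', hy', rfl⟩ := hy
      have := hQ1 (by exact_mod_cast hx') (by exact_mod_cast hy') (fun h => hxy (by rw [h]))
      simpa using this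
    · rw [card_map]; exact hQ2
  have h3 := h2.card_edgeFinset_le
  rw [h1]
  have h4 : Fintype.card (s : Set V) = #s := by simp
  simp only [h4] at h3
  have h5 : t3 #s = (#s ^ 2 - (#s % 3) ^ 2) * (3 - 1) / (2 * 3) + (#s % 3).choose 2 :=
    card_edgeFinset_turanGraph
  rw [h5]
  omega

/-- Graphs in which every clique on four vertices has a light edge. -/
lemma E2_le_of_light (hP : ∀ Q : Finset V, G.IsClique (Q : Set V) → #Q = 4 →
      ∃ w ∈ Q, ∃ r ∈ Q, w ≠ r ∧ ∀ t, G.Adj t w → G.Adj t r → t ∈ Q) :
    ∀ (m : ℕ) (s : Finset V), #s = m → E2 G s ≤ 2 * (t3 m + 1) := by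
  intro m
  induction m using Nat.strong_induction_on with
  | _ m ih =>
    intro s hs
    by_cases h : ∀ Q ⊆ s, G.IsClique (Q : Set V) → #Q ≠ 4
    · have := E2_le_of_no_clique4 G h
      rw [hs] at this; omega
    push Not at h
    obtain ⟨Q, hQs, hQ, hQ4⟩ := h
    obtain ⟨w, hw, r, hr, hwr, hlight⟩ := hP Q hQ hQ4
    have hadj : G.Adj w r := hQ (by exact_mod_cast hw) (by exact_mod_cast hr) hwr
    have hrs : r ∈ s.erase w := by simp [hwr.symm, hQs hr]
    have e1 := E2_erase G (hQs hw)
    have e2 := E2_erase G hrs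
    have hm4 : 4 ≤ m := by
      rw [← hs, ← hQ4]; exact Finset.card_le_card hQs
    have c1 : #((s.erase w).filter (G.Adj r)) + 1 = #(s.filter (G.Adj r)) := by
      have : s.filter (G.Adj r) = insert w ((s.erase w).filter (G.Adj r)) := by
        ext x
        simp only [mem_filter, mem_insert, mem_erase]
        constructor
        · rintro ⟨h1, h2⟩
          by_cases hx : x = w
          · exact Or.inl hx
          · exact Or.inr ⟨⟨hx, h1⟩, h2⟩
        · rintro (rfl | ⟨⟨_, h1⟩, h2⟩)
          · exact ⟨hQs hw, hadj.symm⟩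
          · exact ⟨h1, h2⟩
      rw [this, Finset.card_insert_of_notMem (by simp)]
    have c2 : #(s.filter (G.Adj w)) + #(s.filter (G.Adj r)) ≤ m + 2 := by
      rw [← Finset.card_union_add_card_inter]
      have u1 : #(s.filter (G.Adj w) ∪ s.filter (G.Adj r)) ≤ m := by
        rw [← hs]
        apply Finset.card_le_card
        exact Finset.union_subset (Finset.filter_subset _ _) (Finset.filter_subset _ _)
      have u2 : #(s.filter (G.Adj w) ∩ s.filter (G.Adj r)) ≤ 2 := by
        have : s.filter (G.Adj w) ∩ s.filter (G.Adj r) ⊆ (Q.erase w).erase r := by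
          intro x hx
          simp only [mem_inter, mem_filter] at hx
          obtain ⟨⟨_, h1⟩, _, h2⟩ := hx
          simp only [mem_erase]
          exact ⟨h2.ne.symm, h1.ne.symm, hlight x h1.symm h2.symm⟩
        refine (Finset.card_le_card this).trans ?_
        rw [Finset.card_erase_of_mem (by simp [hwr.symm, hr]), Finset.card_erase_of_mem hw]
        omega
      omega
    have hcard : #((s.erase w).erase r) = m - 2 := by
      rw [Finset.card_erase_of_mem hrs, Finset.card_erase_of_mem (hQs hw)]; omega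
    by_cases hm : m < 6
    · have hno : ∀ Q' ⊆ (s.erase w).erase r, G.IsClique (Q' : Set V) → #Q' ≠ 4 := by
        intro Q' hQ' _ h4
        have := Finset.card_le_card hQ'
        omega
      have h1 := E2_le_of_no_clique4 G hno
      rw [hcard] at h1
      have v2 : t3 2 = 1 := by simpa using t3_two 0
      have v3 : t3 3 = 3 := by simpa using t3_zero 1
      have v4 : t3 4 = 5 := by simpa using t3_one 1
      have v5 : t3 5 = 8 := by simpa using t3_two 1
      have : m = 4 ∨ m = 5 := by omega
      rcases this with rfl | rfl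
      · norm_num at h1
        rw [v2] at h1; rw [v4]; omega
      · norm_num at h1
        rw [v3] at h1; rw [v5]; omega
    · have h1 := ih (m - 2) (by omega) _ hcard
      have h2 := t3_step (m - 2) (by omega)
      rw [show m - 2 + 2 = m by omega] at h2
      omega

end Pool.Agent.H58.Mob
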