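import Pool.Agent.H58.Mob4

set_option linter.unusedSectionVars false

namespace Pool.Agent.H58.Mob

open SimpleGraph Finset

variable {V : Type*} [DecidableEq V] {G : SimpleGraph V}

/-! ### Cliques: all triples are connected -/

lemma clique_triple_genPos {Q : Finset V} (hQ : G.IsClique (Q : Set V)) {S : Finset V}
    (hS : S ⊆ Q) (h3 : #S = 3) : IsGenPos G S := by
  obtain ⟨x, y, z, hxy, hxz, hyz, rfl⟩ := Finset.card_eq_three.1 h3
  have hx : x ∈ Q := hS (by simp)
  have hy : y ∈ Q := hS (by simp)
  have hz : z ∈ Q := hS (by simp)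
  have a1 := SimpleGraph.dist_eq_one_iff_adj.2
    (hQ (by exact_mod_cast hx) (by exact_mod_cast hy) hxy)
  have a2 := SimpleGraph.dist_eq_one_iff_adj.2
    (hQ (by exact_mod_cast hx) (by exact_mod_cast hz) hxz)
  have a3 := SimpleGraph.dist_eq_one_iff_adj.2
    (hQ (by exact_mod_cast hy) (by exact_mod_cast hz) hyz)
  apply isGenPos_triple <;> omega

lemma clique_reach {Q : Finset V} (hQ : G.IsClique (Q : Set V)) {T : Finset V} (hT : T ⊆ Q)
    (hT3 : #T = 3) : ∀ (k : ℕ) (S : Finset V), S ⊆ Q → #S = 3 → #(S \ T) = k → Reach G S T := by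
  intro k
  induction k with
  | zero =>
    intro S _ hS3 hk
    have : S ⊆ T := by
      rw [Finset.card_eq_zero, Finset.sdiff_eq_empty_iff_subset] at hk; exact hk
    have : S = T := Finset.eq_of_subset_of_card_le this (by omega)
    rw [this]; exact Relation.ReflTransGen.refl
  | succ k ih =>
    intro S hS hS3 hk
    obtain ⟨a, ha⟩ := Finset.card_pos.1 (by omega : 0 < #(S \ T))
    have h2 : #(T \ S) = #(S \ T) := by
      have := Finset.card_sdiff_add_card_inter S T
      have := Finset.card_sdiff_add_card_inter T S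
      rw [Finset.inter_comm T S] at this
      omega
    obtain ⟨b, hb⟩ := Finset.card_pos.1 (by omega : 0 < #(T \ S))
    rw [mem_sdiff] at ha hb
    have hab : a ≠ b := by rintro rfl; exact ha.2 hb.1
    have hadj : G.Adj a b := hQ (by exact_mod_cast hS ha.1) (by exact_mod_cast hT hb.1) hab
    have hS' : insert b (S.erase a) ⊆ Q := by
      intro x hx
      rw [mem_insert, mem_erase] at hx
      rcases hx with rfl | hx
      · exact hT hb.1
      · exact hS hx.2
    have hS'3 : #(insert b (S.erase a)) = 3 := by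
      rw [card_insert_of_notMem (by simp [hb.2]), card_erase_of_mem ha.1]; omega
    have hk' : #(insert b (S.erase a) \ T) = k := by
      have : insert b (S.erase a) \ T = (S \ T).erase a := by
        ext x
        simp only [mem_sdiff, mem_insert, mem_erase]
        constructor
        · rintro ⟨rfl | ⟨h1, h2⟩, h3⟩
          · exact absurd hb.1 h3
          · exact ⟨h1, h2, h3⟩
        · rintro ⟨h1, h2, h3⟩
          exact ⟨Or.inr ⟨h1, h2⟩, h3⟩
      rw [this, card_erase_of_mem (by rw [mem_sdiff]; exact ha)]; omega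
    exact Relation.ReflTransGen.head
      ⟨a, ha.1, b, hb.2, hadj, rfl, clique_triple_genPos hQ hS' hS'3⟩ (ih _ hS' hS'3 hk')

lemma clique_reach' {Q : Finset V} (hQ : G.IsClique (Q : Set V)) {S : Finset V} (hS : S ⊆ Q)
    (hS3 : #S = 3) : ∀ a ∈ Q, ∀ b ∈ Q, ∀ c ∈ Q, a ≠ b → a ≠ c → b ≠ c →
      Reach G S {a, b, c} := by
  intro a ha b hb c hc hab hac hbc
  refine clique_reach hQ ?_ ?_ _ S hS hS3 rfl
  · intro x hx
    simp only [mem_insert, mem_singleton] at hx
    rcases hx with rfl | rfl | rfl <;> assumption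
  · exact Finset.card_eq_three.2 ⟨a, b, c, hab, hac, hbc, rfl⟩

/-! ### Connectedness -/

variable [Fintype V]

lemma connected_of_no_mobile3 (hn : 3 ≤ Fintype.card V)
    (h : ∀ S : Finset V, IsMobile G S → #S ≤ 2) : G.Connected := by
  classical
  by_contra hcon
  have hne : Nonempty V := by
    rw [← Fintype.card_pos_iff]; omega
  have hpre : ¬ G.Preconnected := fun hp => hcon ⟨hp⟩
  unfold SimpleGraph.Preconnected at hpre
  push Not at hpre
  obtain ⟨a, b, hab⟩ := hpre
  have hab' : a ≠ b := by rintro rfl; exact hab (Reachable.refl _)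
  obtain ⟨c, hc⟩ : ∃ c, c ∉ ({a, b} : Finset V) := by
    by_contra hcon2
    push Not at hcon2
    have : (univ : Finset V) ⊆ {a, b} := fun x _ => hcon2 x
    have := Finset.card_le_card this
    rw [Finset.card_univ] at this
    have := Finset.card_le_two (a := a) (b := b)
    omega
  simp only [mem_insert, mem_singleton, not_or] at hc
  let P : Finset V → Prop := fun S => ∀ x ∈ S, ∀ y ∈ S, ∀ z ∈ S, G.Reachable x y →
    G.Reachable x z → x = y ∨ x = z ∨ y = z
  have hP0 : P {a, b, c} := by
    intro x hx y hy z hz hxy hxz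
    simp only [mem_insert, mem_singleton] at hx hy hz
    by_contra hcon3
    push Not at hcon3
    obtain ⟨h1, h2, h3⟩ := hcon3
    have hyz := hxy.symm.trans hxz
    rcases hx with rfl | rfl | rfl <;> rcases hy with rfl | rfl | rfl <;>
      rcases hz with rfl | rfl | rfl <;>
      first
        | exact h1 rfl
        | exact h2 rfl
        | exact h3 rfl
        | exact hab hxy
        | exact hab hxz
        | exact hab hyz
        | exact hab hxy.symm
        | exact hab hxz.symm
        | exact hab hyz.symm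
  have hex : ((univ : Finset (Finset V)).filter P).Nonempty := ⟨{a, b, c}, by simp [hP0]⟩
  obtain ⟨S, hS, hmax⟩ := Finset.exists_max_image _ (fun S => #S) hex
  simp only [mem_filter, mem_univ, true_and] at hS hmax
  have hcard : 3 ≤ #S := by
    have := hmax {a, b, c} hP0
    rw [Finset.card_eq_three.2 ⟨a, b, c, hab', Ne.symm hc.1, Ne.symm hc.2, rfl⟩] at this
    exact this
  have hmob : IsMobile G S := by
    refine isMobile_of_components ?_ hS
    intro v
    by_contra hv
    push Not at hv
    have hvS : v ∉ S := fun hvS => hv v hvS (Reachable.refl _)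
    have hP : P (insert v S) := by
      intro x hx y hy z hz hxy hxz
      rw [mem_insert] at hx hy hz
      rcases hx with rfl | hx
      · rcases hy with rfl | hy
        · simp
        · exact absurd hxy.symm (hv y hy)
      · rcases hy with rfl | hy
        · exact absurd hxy (hv x hx)
        · rcases hz with rfl | hz
          · exact absurd hxz (hv x hx)
          · exact hS x hx y hy z hz hxy hxz
    have := hmax _ hP
    rw [card_insert_of_notMem hvS] at this
    omega
  have := h S hmob
  omega

/-! ### Cliques on four and five vertices when no mobile set has three elements -/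

lemma no_clique5 (hG : G.Connected) (h : ∀ S : Finset V, IsMobile G S → #S ≤ 2) :
    ∀ Q : Finset V, G.IsClique (Q : Set V) → #Q ≠ 5 := by
  intro Q hQ h5
  obtain ⟨S, hS, hS3⟩ := Finset.exists_subset_card_eq (show 3 ≤ #Q by omega)
  have hgp := clique_triple_genPos hQ hS hS3
  have hR := clique_reach' hQ hS hS3
  obtain ⟨x0, hx0⟩ := Finset.card_pos.1 (by omega : 0 < #Q)
  have := h S (isMobile_of_visits hgp fun v =>
    clique5_visits hG _ Q hQ h5 hR x0 hx0 v le_rfl)
  omega

lemma clique4_light (hG : G.Connected) (h : ∀ S : Finset V, IsMobile G S → #S ≤ 2) :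
    ∀ Q : Finset V, G.IsClique (Q : Set V) → #Q = 4 →
      ∃ w ∈ Q, ∃ r ∈ Q, w ≠ r ∧ (∀ t, G.Adj t w → G.Adj t r → t ∈ Q) ∧
      ∃ z, 3 ≤ G.dist z w ∧ 2 ≤ G.dist z r := by
  intro Q hQ h4
  obtain ⟨S, hS, hS3⟩ := Finset.exists_subset_card_eq (show 3 ≤ #Q by omega)
  have hgp := clique_triple_genPos hQ hS hS3
  have hR := clique_reach' hQ hS hS3
  by_contra hcon
  have : IsMobile G S := by
    refine isMobile_of_visits hgp fun v => ?_
    by_contra hv
    exact hcon (clique4_structure hG hQ h4 (no_clique5 hG h) hR hv)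
  have := h S this
  omega

/-- A graph with a clique on four vertices and no mobile set with three elements has fewer edges
than the Turan graph. -/
lemma edges_lt_of_clique4 [DecidableRel G.Adj] (hG : G.Connected)
    (h : ∀ S : Finset V, IsMobile G S → #S ≤ 2) {Q : Finset V} (hQ : G.IsClique (Q : Set V))
    (h4 : #Q = 4) : #G.edgeFinset < t3 (Fintype.card V) := by
  obtain ⟨w, hw, r, hr, hwr, hlight, z, hzw, hzr⟩ := clique4_light hG h Q hQ h4
  have hadj : G.Adj w r := hQ (by exact_mod_cast hw) (by exact_mod_cast hr) hwr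
  have hzw' : z ≠ w := ne_of_dist_pos G (by omega)
  have hzr' : z ≠ r := ne_of_dist_pos G (by omega)
  have nzw : ¬ G.Adj z w := fun h => by
    have := SimpleGraph.dist_eq_one_iff_adj.2 h; omega
  have nzr : ¬ G.Adj z r := fun h => by
    have := SimpleGraph.dist_eq_one_iff_adj.2 h; omega
  have e0 := E2_univ G
  have e1 := E2_erase G (Finset.mem_univ w)
  have e2 := E2_erase G (show r ∈ univ.erase w by simp [hwr.symm])
  have e3 := E2_erase G (show z ∈ (univ.erase w).erase r by simp [hzw', hzr'])
  have hlow := E2_le_of_light G (fun Q hQ h4 => by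
    obtain ⟨w, hw, r, hr, hwr, hl, _⟩ := clique4_light hG h Q hQ h4
    exact ⟨w, hw, r, hr, hwr, hl⟩) _ (((univ.erase w).erase r).erase z) rfl
  have hn : 4 ≤ Fintype.card V := by rw [← h4]; exact Finset.card_le_univ Q
  have hcard : #(((univ : Finset V).erase w).erase r |>.erase z) = Fintype.card V - 3 := by
    rw [card_erase_of_mem (by simp [hzw', hzr']), card_erase_of_mem (by simp [hwr.symm]),
      card_erase_of_mem (by simp), Finset.card_univ]
    omega
  rw [hcard] at hlow
  have hstep : t3 (Fintype.card V) = t3 (Fintype.card V - 3) + 2 * (Fintype.card V - 3) + 3 := by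
    have := t3_add (Fintype.card V - 3)
    rwa [show Fintype.card V - 3 + 3 = Fintype.card V by omega] at this
  -- degrees
  have c1 : #(((univ : Finset V).erase w).filter (G.Adj r)) + 1 ≤ Fintype.card V - 2 := by
    have hsub : insert w (((univ : Finset V).erase w).filter (G.Adj r)) ⊆
        (univ.erase r).erase z := by
      intro x hx
      simp only [mem_insert, mem_filter, mem_erase, mem_univ, and_true] at hx ⊢
      rcases hx with rfl | ⟨_, h2⟩
      · exact ⟨hzw'.symm, hwr⟩
      · exact ⟨fun hxz => nzr (hxz ▸ h2.symm), h2.ne.symm⟩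
    have := Finset.card_le_card hsub
    rw [card_insert_of_notMem (by simp), card_erase_of_mem (by simp [hzr']),
      card_erase_of_mem (by simp), Finset.card_univ] at this
    omega
  have c2 : #((univ : Finset V).filter (G.Adj w)) +
      #((((univ : Finset V).erase w).erase r).filter (G.Adj z)) ≤ Fintype.card V - 2 := by
    have hdisj : Disjoint ((univ : Finset V).filter (G.Adj w))
        ((((univ : Finset V).erase w).erase r).filter (G.Adj z)) := by
      rw [Finset.disjoint_left]
      intro x hx hx'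
      simp only [mem_filter, mem_erase, mem_univ, and_true, true_and] at hx hx'
      have a1 := SimpleGraph.dist_eq_one_iff_adj.2 hx
      have a2 := SimpleGraph.dist_eq_one_iff_adj.2 hx'.2
      have a3 := hG.dist_triangle (u := z) (v := x) (w := w)
      rw [SimpleGraph.dist_comm (u := x) (v := w)] at a3
      omega
    rw [← Finset.card_union_of_disjoint hdisj]
    have hsub : ((univ : Finset V).filter (G.Adj w)) ∪
        ((((univ : Finset V).erase w).erase r).filter (G.Adj z)) ⊆ (univ.erase w).erase z := by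
      intro x hx
      simp only [mem_union, mem_filter, mem_erase, mem_univ, and_true, true_and] at hx ⊢
      rcases hx with hx | ⟨⟨h1, h2⟩, h3⟩
      · exact ⟨fun hxz => nzw (hxz ▸ hx.symm), hx.ne.symm⟩
      · exact ⟨h3.ne.symm, h2⟩
    refine (Finset.card_le_card hsub).trans ?_
    rw [card_erase_of_mem (by simp [hzw']), card_erase_of_mem (by simp), Finset.card_univ]
    omega
  omega

/-- **Upper bound and uniqueness.** -/
theorem edges_le [DecidableRel G.Adj] (hn : 3 ≤ Fintype.card V)
    (h : ∀ S : Finset V, IsMobile G S → #S ≤ 2) :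
    #G.edgeFinset ≤ t3 (Fintype.card V) ∧
      (#G.edgeFinset = t3 (Fintype.card V) → Nonempty (G ≃g turanGraph (Fintype.card V) 3)) := by
  classical
  have hG := connected_of_no_mobile3 hn h
  by_cases hfree : G.CliqueFree 4
  · obtain ⟨H, _, maxH⟩ := exists_isTuranMaximal (V := V) (r := 3) (by norm_num)
    have hH : #H.edgeFinset = t3 (Fintype.card V) :=
      ((isTuranMaximal_iff_nonempty_iso_turanGraph (by norm_num)).mp maxH).some.card_edgeFinset_eq
    have hle : #G.edgeFinset ≤ #H.edgeFinset := maxH.2 hfree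
    refine ⟨by omega, fun heq => ?_⟩
    have hGmax : G.IsTuranMaximal 3 := by
      refine ⟨hfree, fun G' _ hG' => ?_⟩
      rw [heq, ← hH]
      exact maxH.2 hG'
    exact (isTuranMaximal_iff_nonempty_iso_turanGraph (by norm_num)).mp hGmax
  · unfold SimpleGraph.CliqueFree at hfree
    push Not at hfree
    obtain ⟨Q, hQ⟩ := hfree
    have := edges_lt_of_clique4 hG h hQ.isClique hQ.card_eq
    exact ⟨by omega, fun heq => by omega⟩

/-! ### The Turan graph -/

lemma turan_dist {n : ℕ} (hn : 4 ≤ n) (a b : Fin n) (hab : a ≠ b) :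
    (turanGraph n 3).dist a b = if (a : ℕ) % 3 = (b : ℕ) % 3 then 2 else 1 := by
  split_ifs with h
  · -- a common neighbour
    obtain ⟨c, hc⟩ : ∃ c : Fin n, (c : ℕ) % 3 ≠ (a : ℕ) % 3 := by
      by_cases h0 : (a : ℕ) % 3 = 0
      · exact ⟨⟨1, by omega⟩, by simp [h0]⟩
      · exact ⟨⟨0, by omega⟩, by simpa using fun h' => h0 h'.symm⟩
    have h1 : (turanGraph n 3).Adj a c := by rw [turanGraph_adj]; exact fun h' => hc h'.symm
    have h2 : (turanGraph n 3).Adj c b := by rw [turanGraph_adj]; rw [← h]; exact hc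
    have h3 := SimpleGraph.dist_le (Walk.cons h1 (Walk.cons h2 Walk.nil))
    have h4 : (turanGraph n 3).dist a b ≠ 1 := by
      intro h'
      rw [SimpleGraph.dist_eq_one_iff_adj, turanGraph_adj] at h'
      exact h' h
    have h5 : (turanGraph n 3).dist a b ≠ 0 := by
      intro h'
      rcases SimpleGraph.dist_eq_zero_iff_eq_or_not_reachable.1 h' with h'' | h''
      · exact hab h''
      · exact h'' (h1.reachable.trans h2.reachable)
    simp at h3
    omega
  · rw [SimpleGraph.dist_eq_one_iff_adj, turanGraph_adj]; exact h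

lemma turan_connected {n : ℕ} (hn : 4 ≤ n) : (turanGraph n 3).Connected := by
  have : Nonempty (Fin n) := ⟨⟨0, by omega⟩⟩
  refine ⟨fun a b => ?_⟩
  by_contra hr
  have hab : a ≠ b := by rintro rfl; exact hr (Reachable.refl _)
  have h1 := turan_dist hn a b hab
  have h2 := SimpleGraph.dist_eq_zero_iff_eq_or_not_reachable.2 (Or.inr hr)
  rw [h2] at h1
  split_ifs at h1

/-- The residue pattern `x ≡ y`, `z` different is not in general position. -/
lemma turan_not_genPos {n : ℕ} (hn : 4 ≤ n) {S : Finset (Fin n)} (hS : IsGenPos (turanGraph n 3) S)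
    {x y z : Fin n} (hx : x ∈ S) (hy : y ∈ S) (hz : z ∈ S) (hxy : x ≠ y)
    (h : (x : ℕ) % 3 = (y : ℕ) % 3) : (x : ℕ) % 3 = (z : ℕ) % 3 := by
  by_contra hz'
  have h1 : (turanGraph n 3).Adj x z := by rw [turanGraph_adj]; exact hz'
  have h2 : (turanGraph n 3).Adj z y := by
    rw [turanGraph_adj]; rw [← h]; exact fun h' => hz' h'.symm
  have hd := turan_dist hn x y hxy
  rw [if_pos h] at hd
  have := hS x y (Walk.cons h1 (Walk.cons h2 Walk.nil)) (by simp [hd])
  have h3 : ({x, z, y} : Finset (Fin n)) ⊆
      S.filter (· ∈ (Walk.cons h1 (Walk.cons h2 Walk.nil)).support) := by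
    intro a ha
    simp only [mem_insert, mem_singleton] at ha
    rw [mem_filter]
    rcases ha with rfl | rfl | rfl <;> simp [*]
  have h4 := Finset.card_le_card h3
  rw [Finset.card_eq_three.2 ⟨x, z, y, h1.ne, hxy, h2.ne, rfl⟩] at h4
  omega

lemma turan_no_move {n : ℕ} (hn : 4 ≤ n) {S T : Finset (Fin n)}
    (hS : IsGenPos (turanGraph n 3) S) (hS3 : 3 ≤ #S) (h : LegalMove (turanGraph n 3) S T) :
    False := by
  obtain ⟨u, hu, u', hu', hadj, rfl, hT⟩ := h
  have h2 : 1 < #(S.erase u) := by rw [card_erase_of_mem hu]; omega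
  obtain ⟨p, hp, q, hq, hpq⟩ := Finset.one_lt_card.1 h2
  have hpS := Finset.mem_of_mem_erase hp
  have hqS := Finset.mem_of_mem_erase hq
  have hpu : p ≠ u := Finset.ne_of_mem_erase hp
  have hqu : q ≠ u := Finset.ne_of_mem_erase hq
  have hpT : p ∈ insert u' (S.erase u) := Finset.mem_insert_of_mem hp
  have hqT : q ∈ insert u' (S.erase u) := Finset.mem_insert_of_mem hq
  have huT : u' ∈ insert u' (S.erase u) := Finset.mem_insert_self _ _
  have hpu' : p ≠ u' := by rintro rfl; exact hu' hpS
  have hqu' : q ≠ u' := by rintro rfl; exact hu' hqS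
  rw [turanGraph_adj] at hadj
  by_cases hc : (p : ℕ) % 3 = (q : ℕ) % 3
  · have h1 := turan_not_genPos hn hS hpS hqS hu hpq hc
    have h2 := turan_not_genPos hn hT hpT hqT huT hpq hc
    exact hadj (h1.symm.trans h2)
  · have h1 : ¬ (p : ℕ) % 3 = (u : ℕ) % 3 := fun h =>
      hc (turan_not_genPos hn hS hpS hu hqS hpu h)
    have h2 : ¬ (q : ℕ) % 3 = (u : ℕ) % 3 := fun h =>
      hc (turan_not_genPos hn hS hqS hu hpS hqu h).symm
    have h3 : ¬ (p : ℕ) % 3 = (u' : ℕ) % 3 := fun h =>
      hc (turan_not_genPos hn hT hpT huT hqT hpu' h)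
    have h4 : ¬ (q : ℕ) % 3 = (u' : ℕ) % 3 := fun h =>
      hc (turan_not_genPos hn hT hqT huT hpT hqu' h).symm
    omega

lemma turan_mobile_le {n : ℕ} (hn : 4 ≤ n) {S : Finset (Fin n)}
    (h : IsMobile (turanGraph n 3) S) : #S ≤ 2 := by
  by_contra hcon
  push Not at hcon
  have hgp := h.1
  have hall : ∀ v : Fin n, v ∈ S := by
    intro v
    obtain ⟨T, hT, hv⟩ := h.visits v
    rcases Relation.ReflTransGen.cases_head hT with rfl | ⟨U, hU, _⟩
    · exact hv
    · exact absurd (turan_no_move hn hgp hcon hU) (fun h => h.elim)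
  have := turan_not_genPos hn hgp (hall ⟨0, by omega⟩) (hall ⟨3, by omega⟩) (hall ⟨1, by omega⟩)
    (by simp [Fin.ext_iff]) (by simp)
  simp at this

lemma turan_mob {n : ℕ} (hn : 4 ≤ n) : mob (turanGraph n 3) = 2 := by
  have h2 : IsMobile (turanGraph n 3) {(⟨0, by omega⟩ : Fin n), ⟨1, by omega⟩} := by
    refine isMobile_of_components ?_ ?_
    · intro v
      exact ⟨⟨0, by omega⟩, by simp, (turan_connected hn).preconnected _ _⟩
    · intro x hx y hy z hz _ _
      simp only [mem_insert, mem_singleton] at hx hy hz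
      rcases hx with rfl | rfl <;> rcases hy with rfl | rfl <;> rcases hz with rfl | rfl <;> simp
  have hc2 : #({(⟨0, by omega⟩ : Fin n), ⟨1, by omega⟩} : Finset (Fin n)) = 2 :=
    Finset.card_pair (by simp [Fin.ext_iff])
  apply le_antisymm
  · have hne : {k : ℕ | ∃ S : Finset (Fin n), IsMobile (turanGraph n 3) S ∧ #S = k}.Nonempty :=
      ⟨2, _, h2, hc2⟩
    refine csSup_le hne ?_
    rintro k ⟨S, hS, rfl⟩
    exact turan_mobile_le hn hS
  · rw [← hc2]; exact card_le_mob h2

end Pool.Agent.H58.Mob
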