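import Mathlib

/-!
# Mobile general position: definitions

All graphs are simple graphs on a finite vertex type.
-/

namespace Pool.Agent.H58.Mob

open SimpleGraph

variable {V : Type*} [DecidableEq V]

/-- `S` is a general position set of `G`: every shortest path of `G` (a walk whose length is the
distance between its ends) contains at most two vertices of `S`. -/
def IsGenPos (G : SimpleGraph V) (S : Finset V) : Prop :=
  ∀ (x y : V) (p : G.Walk x y), p.length = G.dist x y → (S.filter (· ∈ p.support)).card ≤ 2

/-- One legal move: one robot goes from its vertex `u` to an unoccupied neighbour `u'`, and the new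
occupied set is again a general position set. -/
def LegalMove (G : SimpleGraph V) (S T : Finset V) : Prop :=
  ∃ u ∈ S, ∃ u' ∉ S, G.Adj u u' ∧ T = insert u' (S.erase u) ∧ IsGenPos G T

/-- `S` is a mobile general position set: it is a general position set, and there is a finite
sequence of legal moves starting from `S` (the occupied sets `S, L₀, L₁, …`) such that every vertex
is occupied at some stage. -/
def IsMobile (G : SimpleGraph V) (S : Finset V) : Prop :=
  IsGenPos G S ∧
    ∃ L : List (Finset V), List.IsChain (LegalMove G) (S :: L) ∧ ∀ v : V, ∃ T ∈ S :: L, v ∈ T

/-- The mobile general position number: the largest size of a mobile general position set. -/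
noncomputable def mob (G : SimpleGraph V) : ℕ :=
  sSup {k : ℕ | ∃ S : Finset V, IsMobile G S ∧ S.card = k}

end Pool.Agent.H58.Mob
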